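import Mathlib

set_option autoImplicit false

/-! Elementary inequalities for (c1): sums of monomials without zeros in the slit plane on the unit
circle; eighth roots along an arc; four numbers which are nearly a constant sequence in the
multiplicative sense. -/

open Set Filter Topology

namespace Pool.Agent.H95.ZF

/-! ### One root -/

lemma norm_sub_sq_unit {x : ℂ} (hx : ‖x‖ = 1) {r : ℝ} :
    ‖x - ((-r : ℝ) : ℂ)‖ ^ 2 = (1 + r) ^ 2 - ‖x - 1‖ ^ 2 * r := by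
  have h1 : Complex.normSq x = 1 := by rw [Complex.normSq_eq_norm_sq, hx]; norm_num
  rw [← Complex.normSq_eq_norm_sq, ← Complex.normSq_eq_norm_sq]
  rw [Complex.normSq_apply] at h1
  simp only [Complex.normSq_apply, Complex.sub_re, Complex.sub_im, Complex.ofReal_re,
    Complex.ofReal_im, Complex.one_re, Complex.one_im]
  linear_combination (1 - (-r)) * h1

lemma root_ineq {x x0 : ℂ} (hx : ‖x‖ = 1) (hx0 : ‖x0‖ = 1) (h3 : ‖x0 - 1‖ ^ 2 = 3)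
    (ha : ‖x - 1‖ ^ 2 ≤ 3) {r : ℝ} :
    ‖x0 - ((-r : ℝ) : ℂ)‖ ^ (‖x - 1‖ ^ 2 / 3) *
      ‖(1 : ℂ) - ((-r : ℝ) : ℂ)‖ ^ (1 - ‖x - 1‖ ^ 2 / 3) ≤ ‖x - ((-r : ℝ) : ℂ)‖ := by
  set a := ‖x - 1‖ ^ 2 with hadef
  have ha0 : 0 ≤ a := by positivity
  set A := ‖x0 - ((-r : ℝ) : ℂ)‖ with hA
  set B := ‖(1 : ℂ) - ((-r : ℝ) : ℂ)‖ with hB
  set C := ‖x - ((-r : ℝ) : ℂ)‖ with hC
  have hA0 : 0 ≤ A := norm_nonneg _
  have hB0 : 0 ≤ B := norm_nonneg _
  have hC0 : 0 ≤ C := norm_nonneg _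
  have eA : A ^ 2 = (1 + r) ^ 2 - 3 * r := by rw [hA, norm_sub_sq_unit hx0, h3]
  have eB : B ^ 2 = (1 + r) ^ 2 := by
    rw [hB, norm_sub_sq_unit (by simp)]; simp
  have eC : C ^ 2 = (1 + r) ^ 2 - a * r := by rw [hC, norm_sub_sq_unit hx]
  have key := Real.geom_mean_le_arith_mean2_weighted (w₁ := a / 3) (w₂ := 1 - a / 3)
    (p₁ := A ^ 2) (p₂ := B ^ 2) (by positivity) (by linarith) (by positivity) (by positivity)
    (by ring)
  have e1 : a / 3 * A ^ 2 + (1 - a / 3) * B ^ 2 = C ^ 2 := by rw [eA, eB, eC]; ring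
  rw [e1] at key
  have e2 : (A ^ 2) ^ (a / 3) = (A ^ (a / 3)) ^ 2 := by
    rw [← Real.rpow_natCast, ← Real.rpow_natCast, ← Real.rpow_mul hA0, ← Real.rpow_mul hA0,
      mul_comm]
  have e3 : (B ^ 2) ^ (1 - a / 3) = (B ^ (1 - a / 3)) ^ 2 := by
    rw [← Real.rpow_natCast, ← Real.rpow_natCast, ← Real.rpow_mul hB0, ← Real.rpow_mul hB0,
      mul_comm]
  rw [e2, e3, ← mul_pow] at key
  exact (pow_le_pow_iff_left₀ (by positivity) hC0 (by norm_num)).1 key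

lemma roots_ineq {x x0 : ℂ} (hx : ‖x‖ = 1) (hx0 : ‖x0‖ = 1) (h3 : ‖x0 - 1‖ ^ 2 = 3)
    (ha : ‖x - 1‖ ^ 2 ≤ 3) (s : Multiset ℂ) (hs : ∀ α ∈ s, ∃ r : ℝ, 0 ≤ r ∧ α = ((-r : ℝ) : ℂ)) :
    ‖(s.map fun α => x0 - α).prod‖ ^ (‖x - 1‖ ^ 2 / 3) *
      ‖(s.map fun α => (1 : ℂ) - α).prod‖ ^ (1 - ‖x - 1‖ ^ 2 / 3) ≤
      ‖(s.map fun α => x - α).prod‖ := by
  induction s using Multiset.induction_on with
  | empty => simp
  | cons α s ih =>
    have h1 := ih fun β hβ => hs β (Multiset.mem_cons_of_mem hβ)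
    obtain ⟨r, -, rfl⟩ := hs α (Multiset.mem_cons_self _ _)
    have h2 := root_ineq (r := r) hx hx0 h3 ha
    simp only [Multiset.map_cons, Multiset.prod_cons, norm_mul]
    rw [Real.mul_rpow (norm_nonneg _) (norm_nonneg _), Real.mul_rpow (norm_nonneg _) (norm_nonneg _)]
    calc _ = (‖x0 - ((-r : ℝ) : ℂ)‖ ^ (‖x - 1‖ ^ 2 / 3) *
          ‖(1 : ℂ) - ((-r : ℝ) : ℂ)‖ ^ (1 - ‖x - 1‖ ^ 2 / 3)) *
          (‖(s.map fun α => x0 - α).prod‖ ^ (‖x - 1‖ ^ 2 / 3) *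
          ‖(s.map fun α => (1 : ℂ) - α).prod‖ ^ (1 - ‖x - 1‖ ^ 2 / 3)) := by ring
      _ ≤ _ := mul_le_mul h2 h1 (by positivity) (norm_nonneg _)

/-- **Sums of monomials without zeros in the slit plane** cannot decay fast along the unit circle. -/
theorem mono_bound {ι : Type*} (S : Finset ι) (n : ι → ℤ)
    (hz : ∀ x ∈ Complex.slitPlane, ∑ i ∈ S, x ^ n i ≠ 0) {x x0 : ℂ} (hx : ‖x‖ = 1)
    (hx0 : ‖x0‖ = 1) (h3 : ‖x0 - 1‖ ^ 2 = 3) (ha : ‖x - 1‖ ^ 2 ≤ 3) :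
    ‖∑ i ∈ S, x0 ^ n i‖ ^ (‖x - 1‖ ^ 2 / 3) * (S.card : ℝ) ^ (1 - ‖x - 1‖ ^ 2 / 3) ≤
      ‖∑ i ∈ S, x ^ n i‖ := by
  classical
  set M : ℕ := ∑ i ∈ S, (n i).natAbs with hM
  have hMn : ∀ i ∈ S, 0 ≤ n i + M := by
    intro i hi
    have h1 : (n i).natAbs ≤ M := Finset.single_le_sum (f := fun i => (n i).natAbs)
      (fun _ _ => Nat.zero_le _) hi
    omega
  set p : Polynomial ℂ := ∑ i ∈ S, Polynomial.X ^ (n i + M).toNat with hp
  have hev : ∀ z : ℂ, z ≠ 0 → p.eval z = z ^ M * ∑ i ∈ S, z ^ n i := by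
    intro z hz0
    rw [hp, Polynomial.eval_finsetSum, Finset.mul_sum]
    refine Finset.sum_congr rfl fun i hi => ?_
    rw [Polynomial.eval_pow, Polynomial.eval_X, ← zpow_natCast, ← zpow_natCast, ← zpow_add₀ hz0]
    congr 1
    have := hMn i hi
    omega
  have hnorm : ∀ z : ℂ, ‖z‖ = 1 → ‖p.eval z‖ = ‖∑ i ∈ S, z ^ n i‖ := by
    intro z hz1
    have hz0 : z ≠ 0 := by
      intro h; rw [h, norm_zero] at hz1; exact zero_ne_one hz1
    rw [hev z hz0, norm_mul, norm_pow, hz1, one_pow, one_mul]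
  have h1ev : ‖p.eval 1‖ = S.card := by
    rw [hnorm 1 (by simp)]; simp
  have hp0 : p ≠ 0 := by
    intro h
    have h1 := hz 1 Complex.one_mem_slitPlane
    have h2 := hev 1 one_ne_zero
    rw [h, Polynomial.eval_zero, one_pow, one_mul] at h2
    exact h1 h2.symm
  have hroots : ∀ α ∈ p.roots, ∃ r : ℝ, 0 ≤ r ∧ α = ((-r : ℝ) : ℂ) := by
    intro α hα
    rw [Polynomial.mem_roots hp0, Polynomial.IsRoot.def] at hα
    have h1 : α ∉ Complex.slitPlane := by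
      intro h
      have h2 := hev α (Complex.slitPlane_ne_zero h)
      rw [hα] at h2
      have h3 := mul_eq_zero.1 h2.symm
      rcases h3 with h3 | h3
      · exact pow_ne_zero _ (Complex.slitPlane_ne_zero h) h3
      · exact hz α h h3
    rw [Complex.mem_slitPlane_iff, not_or, not_lt, not_not] at h1
    refine ⟨-α.re, by linarith [h1.1], ?_⟩
    apply Complex.ext
    · simp
    · simp [h1.2]
  have hfac : ∀ z : ℂ, ‖p.eval z‖ = ‖p.leadingCoeff‖ * ‖(p.roots.map fun α => z - α).prod‖ := by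
    intro z
    rw [(IsAlgClosed.splits p).eval_eq_prod_roots z, norm_mul]
  have key := roots_ineq hx hx0 h3 ha p.roots hroots
  rw [← hnorm x hx, ← hnorm x0 hx0, ← h1ev, hfac x, hfac x0, hfac 1]
  set w := ‖x - 1‖ ^ 2 / 3 with hw
  have hl : 0 < ‖p.leadingCoeff‖ := norm_pos_iff.2 (Polynomial.leadingCoeff_ne_zero.2 hp0)
  rw [Real.mul_rpow hl.le (norm_nonneg _), Real.mul_rpow hl.le (norm_nonneg _)]
  have e1 : ‖p.leadingCoeff‖ ^ w * ‖p.leadingCoeff‖ ^ (1 - w) = ‖p.leadingCoeff‖ := by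
    rw [← Real.rpow_add hl]; simp
  calc _ = (‖p.leadingCoeff‖ ^ w * ‖p.leadingCoeff‖ ^ (1 - w)) *
        (‖(p.roots.map fun α => x0 - α).prod‖ ^ w *
          ‖(p.roots.map fun α => (1 : ℂ) - α).prod‖ ^ (1 - w)) := by ring
    _ ≤ _ := by
      rw [e1]
      exact mul_le_mul_of_nonneg_left key hl.le

/-! ### Eighth powers along an arc -/

lemma eighth_lower {h : ℂ} (hh : ‖h‖ ≤ 1 / 10) : 4 * ‖h‖ ≤ ‖(1 + h) ^ 8 - 1‖ := by
  have e : (1 + h) ^ 8 - 1 = 8 * h + h * (h * (28 + 56 * h + 70 * h ^ 2 + 56 * h ^ 3 +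
      28 * h ^ 4 + 8 * h ^ 5 + h ^ 6)) := by ring
  have h0 : 0 ≤ ‖h‖ := norm_nonneg h
  have hb : ‖28 + 56 * h + 70 * h ^ 2 + 56 * h ^ 3 + 28 * h ^ 4 + 8 * h ^ 5 + h ^ 6‖ ≤ 40 := by
    have p2 : ‖h‖ ^ 2 ≤ (1 / 10) ^ 2 := pow_le_pow_left₀ h0 hh 2
    have p3 : ‖h‖ ^ 3 ≤ (1 / 10) ^ 3 := pow_le_pow_left₀ h0 hh 3
    have p4 : ‖h‖ ^ 4 ≤ (1 / 10) ^ 4 := pow_le_pow_left₀ h0 hh 4
    have p5 : ‖h‖ ^ 5 ≤ (1 / 10) ^ 5 := pow_le_pow_left₀ h0 hh 5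
    have p6 : ‖h‖ ^ 6 ≤ (1 / 10) ^ 6 := pow_le_pow_left₀ h0 hh 6
    calc _ ≤ ‖(28 : ℂ)‖ + ‖56 * h‖ + ‖70 * h ^ 2‖ + ‖56 * h ^ 3‖ + ‖28 * h ^ 4‖ + ‖8 * h ^ 5‖ +
          ‖h ^ 6‖ := by
          refine (norm_add_le _ _).trans ?_
          gcongr
          refine (norm_add_le _ _).trans ?_
          gcongr
          refine (norm_add_le _ _).trans ?_
          gcongr
          refine (norm_add_le _ _).trans ?_
          gcongr
          refine (norm_add_le _ _).trans ?_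
          gcongr
          exact norm_add_le _ _
      _ ≤ 40 := by
          simp only [norm_mul, norm_pow, Complex.norm_ofNat]
          linarith
  have h1 : ‖h * (h * (28 + 56 * h + 70 * h ^ 2 + 56 * h ^ 3 + 28 * h ^ 4 + 8 * h ^ 5 +
      h ^ 6))‖ ≤ 4 * ‖h‖ := by
    rw [norm_mul, norm_mul]
    have : ‖h‖ * ‖28 + 56 * h + 70 * h ^ 2 + 56 * h ^ 3 + 28 * h ^ 4 + 8 * h ^ 5 + h ^ 6‖ ≤
        (1 / 10) * 40 := mul_le_mul hh hb (norm_nonneg _) (by norm_num)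
    nlinarith
  have h2 : ‖(8 : ℂ) * h‖ = 8 * ‖h‖ := by rw [norm_mul, Complex.norm_ofNat]
  rw [e]
  have h3 := norm_sub_norm_le (8 * h) (-(h * (h * (28 + 56 * h + 70 * h ^ 2 + 56 * h ^ 3 +
      28 * h ^ 4 + 8 * h ^ 5 + h ^ 6))))
  rw [norm_neg, sub_neg_eq_add, h2] at h3
  linarith

/-- A continuous function on `[0, T]` which starts at a positive real number and whose eighth power is
near `1` is near `1`. -/
theorem eighth_arc {f : ℝ → ℂ} {T δ : ℝ} (hf : ContinuousOn f (Icc 0 T))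
    (h0 : 0 < (f 0).re) (h0' : (f 0).im = 0) (hδ : δ < 1 / 10)
    (h8 : ∀ s ∈ Icc (0 : ℝ) T, ‖f s ^ 8 - 1‖ ≤ δ) : ∀ s ∈ Icc (0 : ℝ) T, ‖f s - 1‖ ≤ δ := by
  intro s hs
  have hT : (0 : ℝ) ≤ T := hs.1.trans hs.2
  have hδ0 : 0 ≤ δ := (norm_nonneg _).trans (h8 s hs)
  -- near `1` implies the bound
  have hin : ∀ u ∈ Icc (0 : ℝ) T, ‖f u - 1‖ ≤ 1 / 10 → ‖f u - 1‖ ≤ δ := by
    intro u hu h1
    have h2 := eighth_lower h1
    have h3 := h8 u hu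
    have e : (1 + (f u - 1)) ^ 8 = f u ^ 8 := by ring
    rw [e] at h2
    linarith [norm_nonneg (f u - 1)]
  have hstart : ‖f 0 - 1‖ ≤ δ := by
    have e0 : f 0 = (((f 0).re : ℝ) : ℂ) := by
      apply Complex.ext
      · simp
      · simp [h0']
    set x := (f 0).re with hx
    have h1 := h8 0 ⟨le_refl _, hT⟩
    rw [e0] at h1 ⊢
    have e1 : ((x : ℂ)) ^ 8 - 1 = ((x ^ 8 - 1 : ℝ) : ℂ) := by push_cast; ring
    have e2 : ((x : ℂ)) - 1 = ((x - 1 : ℝ) : ℂ) := by push_cast; ring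
    rw [e1, Complex.norm_real, Real.norm_eq_abs] at h1
    rw [e2, Complex.norm_real, Real.norm_eq_abs]
    have e3 : x ^ 8 - 1 = (x - 1) * (x ^ 7 + x ^ 6 + x ^ 5 + x ^ 4 + x ^ 3 + x ^ 2 + x + 1) := by
      ring
    rw [e3, abs_mul] at h1
    have h4 : 1 ≤ |x ^ 7 + x ^ 6 + x ^ 5 + x ^ 4 + x ^ 3 + x ^ 2 + x + 1| := by
      have : 0 ≤ x ^ 7 + x ^ 6 + x ^ 5 + x ^ 4 + x ^ 3 + x ^ 2 + x := by positivity
      rw [abs_of_nonneg (by linarith)]; linarith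
    calc |x - 1| = |x - 1| * 1 := (mul_one _).symm
      _ ≤ _ := mul_le_mul_of_nonneg_left h4 (abs_nonneg _)
      _ ≤ δ := h1
  by_contra hcon
  push Not at hcon
  have h5 : 1 / 10 < ‖f s - 1‖ := by
    by_contra h6
    push Not at h6
    exact absurd (hin s hs h6) (not_le.2 hcon)
  have hc : ContinuousOn (fun u => ‖f u - 1‖) (Icc 0 s) :=
    ((hf.mono (Icc_subset_Icc_right hs.2)).sub continuousOn_const).norm
  obtain ⟨u, hu, hu2⟩ := intermediate_value_Icc hs.1 hc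
    (show (1 / 10 : ℝ) ∈ Icc (‖f 0 - 1‖) (‖f s - 1‖) from ⟨by linarith, h5.le⟩)
  have hu' : u ∈ Icc (0 : ℝ) T := ⟨hu.1, hu.2.trans hs.2⟩
  have h7 := hin u hu' (le_of_eq hu2)
  simp only at hu2
  rw [hu2] at h7
  linarith

/-! ### Four numbers -/

/-- four non-negative numbers, nearly geometric in the cyclic sense, are comparable -/
lemma four_real_aux {a b c d h t : ℝ} (ha : 0 ≤ a) (_hb : 0 ≤ b) (hc : 0 ≤ c) (_hd : 0 ≤ d)
    (hh : 0 < h) (hs : a + b + c + d = h) (ht : 0 ≤ t) (ht' : t ≤ 1 / 100)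
    (hab : a ≤ b) (hcb : c ≤ b) (hdb : d ≤ b)
    (h1 : b ^ 2 - a * c ≤ t * h ^ 2) (h2 : c ^ 2 - b * d ≤ t * h ^ 2) :
    h / 8 ≤ a ∧ h / 8 ≤ b ∧ h / 8 ≤ c ∧ h / 8 ≤ d := by
  have hb4 : h / 4 ≤ b := by linarith
  have hbp : 0 < b := by linarith
  have k1 : b * (b - 4 * t * h) ≤ b ^ 2 - t * h ^ 2 := by
    nlinarith [mul_nonneg (mul_nonneg ht hh.le) (sub_nonneg.2 hb4)]
  have ha1 : b - 4 * t * h ≤ a := by
    have : b * (b - 4 * t * h) ≤ b * a := by nlinarith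
    exact le_of_mul_le_mul_left this hbp
  have hc1 : b - 4 * t * h ≤ c := by
    have : b * (b - 4 * t * h) ≤ b * c := by nlinarith
    exact le_of_mul_le_mul_left this hbp
  have hq : 0 ≤ b - 4 * t * h := by nlinarith
  have hd1 : b - 12 * t * h ≤ d := by
    have k2 : (b - 4 * t * h) ^ 2 ≤ c ^ 2 := pow_le_pow_left₀ hq hc1 2
    have k3 : b * (b - 12 * t * h) ≤ (b - 4 * t * h) ^ 2 - t * h ^ 2 := by
      nlinarith [mul_nonneg (mul_nonneg ht hh.le) (sub_nonneg.2 hb4),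
        sq_nonneg (t * h)]
    have : b * (b - 12 * t * h) ≤ b * d := by linarith
    exact le_of_mul_le_mul_left this hbp
  have k4 : t * h ≤ h / 100 := by nlinarith
  refine ⟨by linarith, by linarith, by linarith, by linarith⟩

theorem four_real {P : ℕ → ℝ} {h t : ℝ} (hP : ∀ i, 0 ≤ P i) (hper : ∀ i, P (i + 4) = P i)
    (hh : 0 < h) (hs : P 0 + P 1 + P 2 + P 3 = h) (ht : 0 ≤ t) (ht' : t ≤ 1 / 100)
    (hm : ∀ i, P (i + 1) ^ 2 - P i * P (i + 2) ≤ t * h ^ 2) : ∀ i, h / 8 ≤ P i := by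
  have h01 := hm 0
  have h12 := hm 1
  have h23 := hm 2
  have h34 := hm 3
  have e4 : P 4 = P 0 := hper 0
  have e5 : P 5 = P 1 := hper 1
  simp only [Nat.reduceAdd] at h01 h12 h23 h34
  rw [e4] at h23 h34
  rw [e5] at h34
  have key : h / 8 ≤ P 0 ∧ h / 8 ≤ P 1 ∧ h / 8 ≤ P 2 ∧ h / 8 ≤ P 3 := by
    rcases le_total (P 0) (P 1) with k1 | k1
    · rcases le_total (P 2) (P 3) with k2 | k2
      · rcases le_total (P 1) (P 3) with k3 | k3
        · -- `P 3` is the maximum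
          have := four_real_aux (hP 2) (hP 3) (hP 0) (hP 1) hh (by linarith) ht ht' k2
            (by linarith) k3 h23 h34
          tauto
        · have := four_real_aux (hP 0) (hP 1) (hP 2) (hP 3) hh (by linarith) ht ht' k1
            (by linarith) k3 h01 h12
          tauto
      · rcases le_total (P 1) (P 2) with k3 | k3
        · have := four_real_aux (hP 1) (hP 2) (hP 3) (hP 0) hh (by linarith) ht ht' k3
            k2 (by linarith) h12 h23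
          tauto
        · have := four_real_aux (hP 0) (hP 1) (hP 2) (hP 3) hh (by linarith) ht ht' k1
            k3 (by linarith) h01 h12
          tauto
    · rcases le_total (P 2) (P 3) with k2 | k2
      · rcases le_total (P 0) (P 3) with k3 | k3
        · have := four_real_aux (hP 2) (hP 3) (hP 0) (hP 1) hh (by linarith) ht ht' k2
            k3 (by linarith) h23 h34
          tauto
        · have := four_real_aux (hP 3) (hP 0) (hP 1) (hP 2) hh (by linarith) ht ht' k3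
            k1 (by linarith) (by linarith) h01
          tauto
      · rcases le_total (P 0) (P 2) with k3 | k3
        · have := four_real_aux (hP 1) (hP 2) (hP 3) (hP 0) hh (by linarith) ht ht' (by linarith)
            k2 k3 h12 h23
          tauto
        · have := four_real_aux (hP 3) (hP 0) (hP 1) (hP 2) hh (by linarith) ht ht' (by linarith)
            k1 k3 (by linarith) h01
          tauto
  intro i
  induction i using Nat.strong_induction_on with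
  | _ i ih =>
    rcases Nat.lt_or_ge i 4 with h4 | h4
    · interval_cases i <;> tauto
    · obtain ⟨j, rfl⟩ : ∃ j, i = j + 4 := ⟨i - 4, by omega⟩
      rw [hper]; exact ih j (by omega)

/-- product of six factors near `1` -/
lemma six_near {r1 r2 r3 : ℂ} {δ : ℝ} (hδ : δ ≤ 1 / 100) (h1 : ‖r1 - 1‖ ≤ δ)
    (h2 : ‖r2 - 1‖ ≤ δ) (h3 : ‖r3 - 1‖ ≤ δ) : ‖r1 ^ 3 * r2 ^ 2 * r3 - 1‖ ≤ 10 * δ := by
  have hδ0 : 0 ≤ δ := (norm_nonneg _).trans h1
  have step : ∀ {u v : ℂ} {A B : ℝ}, 0 ≤ A → ‖u - 1‖ ≤ A → ‖v - 1‖ ≤ B →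
      ‖u * v - 1‖ ≤ A + B + A * B := by
    intro u v A B hA hu hv
    have e : u * v - 1 = (u - 1) + (v - 1) + (u - 1) * (v - 1) := by ring
    rw [e]
    calc _ ≤ ‖u - 1‖ + ‖v - 1‖ + ‖(u - 1) * (v - 1)‖ :=
          (norm_add_le _ _).trans (add_le_add_left (norm_add_le _ _) _)
      _ ≤ A + B + A * B := by
          rw [norm_mul]
          gcongr
  have k2 : ‖r1 * r1 - 1‖ ≤ 2.1 * δ := (step hδ0 h1 h1).trans (by nlinarith)
  have k3 : ‖r1 * r1 * r1 - 1‖ ≤ 3.3 * δ := (step (by positivity) k2 h1).trans (by nlinarith)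
  have k4 : ‖r1 * r1 * r1 * r2 - 1‖ ≤ 4.5 * δ := (step (by positivity) k3 h2).trans (by nlinarith)
  have k5 : ‖r1 * r1 * r1 * r2 * r2 - 1‖ ≤ 6 * δ := (step (by positivity) k4 h2).trans (by nlinarith)
  have k6 : ‖r1 * r1 * r1 * r2 * r2 * r3 - 1‖ ≤ 8 * δ :=
    (step (by positivity) k5 h3).trans (by nlinarith)
  have e : r1 ^ 3 * r2 ^ 2 * r3 = r1 * r1 * r1 * r2 * r2 * r3 := by ring
  rw [e]; linarith

/-- four numbers, nearly geometric in the cyclic sense, one of them not small: all not small -/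
theorem four_cplx {G : ℕ → ℂ} {h t κ : ℝ} (hper : ∀ i, G (i + 4) = G i) (hh : 0 < h)
    (hG : ∀ i, ‖G i‖ ≤ h) (hκ : 0 < κ) (hκ1 : κ ≤ 1)
    (hm : ∀ i, ‖G (i + 1) ^ 2 - G i * G (i + 2)‖ ≤ t * h ^ 2) {m : ℕ} (hlow : κ * h ≤ ‖G m‖)
    (ht : t ≤ κ ^ 4 / 8) : ∀ i, κ ^ 4 / 8 * h ≤ ‖G i‖ := by
  have e1 : ∀ i, ‖G (i + 1)‖ ^ 2 ≤ ‖G i‖ * ‖G (i + 2)‖ + t * h ^ 2 := by
    intro i
    have h1 := norm_sub_norm_le (G (i + 1) ^ 2) (G i * G (i + 2))
    rw [norm_pow, norm_mul] at h1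
    linarith [hm i]
  have hκ2 : κ ^ 4 ≤ κ ^ 2 := pow_le_pow_of_le_one hκ.le hκ1 (by norm_num)
  have hκ3 : κ ^ 4 ≤ κ := by
    calc κ ^ 4 ≤ κ ^ 1 := pow_le_pow_of_le_one hκ.le hκ1 (by norm_num)
      _ = κ := pow_one κ
  -- the two neighbours of `m`
  obtain ⟨n, hn⟩ : ∃ n, G (n + 1) = G m ∧ G (n + 2) = G (m + 1) ∧ G (n + 3) = G (m + 2) ∧
      G (n + 4) = G (m + 3) ∧ G n = G (m + 3) := by
    refine ⟨m + 3, ?_, ?_, ?_, ?_, rfl⟩
    · rw [show m + 3 + 1 = m + 4 by ring, hper]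
    · rw [show m + 3 + 2 = m + 1 + 4 by ring, hper]
    · rw [show m + 3 + 3 = m + 2 + 4 by ring, hper]
    · rw [show m + 3 + 4 = m + 3 + 4 by ring, hper]
  obtain ⟨n1, n2, n3, n4, n0⟩ := hn
  have a0 := e1 n
  rw [n0, n1, n2] at a0
  -- ‖G m‖² ≤ ‖G (m+3)‖ ‖G (m+1)‖ + t h²
  have b0 : (κ * h) ^ 2 ≤ ‖G m‖ ^ 2 := pow_le_pow_left₀ (by positivity) hlow 2
  have c1 : κ ^ 2 / 2 * h ≤ ‖G (m + 1)‖ := by
    have k : (κ ^ 2 / 2 * h) * h ≤ ‖G (m + 1)‖ * h := by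
      have k1 : ‖G (m + 3)‖ * ‖G (m + 1)‖ ≤ h * ‖G (m + 1)‖ :=
        mul_le_mul_of_nonneg_right (hG _) (norm_nonneg _)
      nlinarith [mul_nonneg (sub_nonneg.2 ht) (sq_nonneg h), mul_nonneg (sub_nonneg.2 hκ2) (sq_nonneg h)]
    exact le_of_mul_le_mul_right k hh
  have c3 : κ ^ 2 / 2 * h ≤ ‖G (m + 3)‖ := by
    have k : (κ ^ 2 / 2 * h) * h ≤ ‖G (m + 3)‖ * h := by
      have k1 : ‖G (m + 3)‖ * ‖G (m + 1)‖ ≤ ‖G (m + 3)‖ * h :=
        mul_le_mul_of_nonneg_left (hG _) (norm_nonneg _)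
      nlinarith [mul_nonneg (sub_nonneg.2 ht) (sq_nonneg h), mul_nonneg (sub_nonneg.2 hκ2) (sq_nonneg h)]
    exact le_of_mul_le_mul_right k hh
  have a1 := e1 m
  -- ‖G (m+1)‖² ≤ ‖G m‖ ‖G (m+2)‖ + t h²
  have c2 : κ ^ 4 / 8 * h ≤ ‖G (m + 2)‖ := by
    have b1 : (κ ^ 2 / 2 * h) ^ 2 ≤ ‖G (m + 1)‖ ^ 2 := pow_le_pow_left₀ (by positivity) c1 2
    have k : (κ ^ 4 / 8 * h) * h ≤ ‖G (m + 2)‖ * h := by
      have k1 : ‖G m‖ * ‖G (m + 2)‖ ≤ h * ‖G (m + 2)‖ :=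
        mul_le_mul_of_nonneg_right (hG _) (norm_nonneg _)
      have e : (κ ^ 2 / 2 * h) ^ 2 = κ ^ 4 / 4 * h ^ 2 := by ring
      rw [e] at b1
      nlinarith [mul_nonneg (sub_nonneg.2 ht) (sq_nonneg h)]
    exact le_of_mul_le_mul_right k hh
  have d0 : κ ^ 4 / 8 * h ≤ ‖G m‖ := by nlinarith [pow_pos hκ 4]
  have d1 : κ ^ 4 / 8 * h ≤ ‖G (m + 1)‖ := by nlinarith [pow_pos hκ 4, pow_pos hκ 2]
  have d3 : κ ^ 4 / 8 * h ≤ ‖G (m + 3)‖ := by nlinarith [pow_pos hκ 4, pow_pos hκ 2]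
  have hmod : ∀ k j, G (j + 4 * k) = G j := by
    intro k
    induction k with
    | zero => intro j; simp
    | succ k ih => intro j; rw [show j + 4 * (k + 1) = j + 4 * k + 4 by ring, hper, ih]
  intro i
  have hi : ∃ j, (j = 0 ∨ j = 1 ∨ j = 2 ∨ j = 3) ∧ G i = G (m + j) := by
    -- choose `j` with `i ≡ m + j` mod 4
    refine ⟨(i + 3 * m) % 4, by omega, ?_⟩
    have q1 : i + 4 * m = (m + (i + 3 * m) % 4) + 4 * ((i + 3 * m) / 4) := by omega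
    rw [← hmod m i, q1, hmod]
  obtain ⟨j, hj, hj2⟩ := hi
  rw [hj2]
  rcases hj with rfl | rfl | rfl | rfl
  · exact d0
  · exact d1
  · exact c2
  · exact d3

/-- the fourth power of the ratio of two consecutive numbers is near `1` -/
theorem four_ratio {G : ℕ → ℂ} {h t κ : ℝ} (hper : ∀ i, G (i + 4) = G i) (hh : 0 < h)
    (hκ : 0 < κ) (hm : ∀ i, ‖G (i + 1) ^ 2 - G i * G (i + 2)‖ ≤ t * h ^ 2)
    (hlow : ∀ i, κ * h ≤ ‖G i‖) (ht : t / κ ^ 2 ≤ 1 / 100) (i : ℕ) :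
    ‖(G (i + 1) / G i) ^ 4 - 1‖ ≤ 10 * (t / κ ^ 2) := by
  have hpos : ∀ j, 0 < ‖G j‖ := fun j => lt_of_lt_of_le (by positivity) (hlow j)
  have hne : ∀ j, G j ≠ 0 := fun j => norm_pos_iff.1 (hpos j)
  have hr : ∀ j, ‖G (j + 1) ^ 2 / (G j * G (j + 2)) - 1‖ ≤ t / κ ^ 2 := by
    intro j
    have e : G (j + 1) ^ 2 / (G j * G (j + 2)) - 1 =
        (G (j + 1) ^ 2 - G j * G (j + 2)) / (G j * G (j + 2)) := by
      rw [sub_div, div_self (mul_ne_zero (hne _) (hne _))]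
    rw [e, norm_div, norm_mul, div_le_div_iff₀ (mul_pos (hpos _) (hpos _)) (by positivity)]
    have h1 := hm j
    have ht0 : 0 ≤ t := by
      have := (norm_nonneg _).trans h1
      by_contra hc
      push Not at hc
      nlinarith [sq_pos_of_pos hh]
    have h2 : (κ * h) * (κ * h) ≤ ‖G j‖ * ‖G (j + 2)‖ :=
      mul_le_mul (hlow j) (hlow _) (by positivity) (norm_nonneg _)
    calc _ ≤ t * h ^ 2 * κ ^ 2 := mul_le_mul_of_nonneg_right h1 (by positivity)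
      _ = t * ((κ * h) * (κ * h)) := by ring
      _ ≤ _ := mul_le_mul_of_nonneg_left h2 ht0
  have key := six_near ht (hr i) (hr (i + 1)) (hr (i + 2))
  have e4 : G (i + 2 + 2) = G i := by rw [show i + 2 + 2 = i + 4 by ring, hper]
  have e3 : i + 1 + 1 = i + 2 := rfl
  have e5 : i + 1 + 2 = i + 3 := rfl
  have e6 : i + 2 + 1 = i + 3 := rfl
  rw [e4, e3, e5, e6] at key
  have n0 := hne i
  have n1 := hne (i + 1)
  have n2 := hne (i + 2)
  have n3 := hne (i + 3)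
  have e : (G (i + 1) ^ 2 / (G i * G (i + 2))) ^ 3 * (G (i + 2) ^ 2 / (G (i + 1) * G (i + 3))) ^ 2 *
      (G (i + 3) ^ 2 / (G (i + 2) * G i)) = (G (i + 1) / G i) ^ 4 := by
    field_simp
  rw [e] at key
  exact key

end Pool.Agent.H95.ZF
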