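import Mathlib
import Pool.Agent.H53.ZF.Def
import Pool.Agent.H33.Q1.Inv

set_option autoImplicit false
open Finset

/-! Non-degeneracy for (c1): if the loop of `c0` visits the corner `c` in some configuration then it
visits `c` in some configuration in which the next label of `c` is closed. Only the labels of the two
faces next to this label are changed. -/

namespace Pool.Agent.H95.ZF

open Pool.Agent.H75.Perc Pool.Agent.H75.TwoArm Pool.Agent.H75.Four Pool.Agent.H69.Q1 Pool.Agent.Q1
open Pool.Agent.H75.TwoArm.StrandAux hiding vx_nxC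

/-- labels around the face with index `f` -/
def fE (f : ℤ × ℤ) : Finset (ℤ × ℤ) :=
  {(2 * f.1 - 2, 2 * f.2 - 1), (2 * f.1, 2 * f.2 - 1), (2 * f.1 - 1, 2 * f.2 - 2),
    (2 * f.1 - 1, 2 * f.2)}

lemma mem_fE {f e : ℤ × ℤ} : e ∈ fE f ↔ (e.1 = 2 * f.1 - 2 ∧ e.2 = 2 * f.2 - 1) ∨
    (e.1 = 2 * f.1 ∧ e.2 = 2 * f.2 - 1) ∨ (e.1 = 2 * f.1 - 1 ∧ e.2 = 2 * f.2 - 2) ∨
    (e.1 = 2 * f.1 - 1 ∧ e.2 = 2 * f.2) := by
  unfold fE
  simp only [mem_insert, mem_singleton, Prod.ext_iff]

lemma of_mem_fE {f g h : ℤ × ℤ} (hu : IsUnit4 (g - f)) (hl : f + g - (1, 1) ∈ fE h) :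
    h = f ∨ h = g := by
  rw [mem_fE] at hl
  simp only [Prod.fst_sub, Prod.snd_sub, Prod.fst_add, Prod.snd_add] at hl
  have h1 := unit_cases hu
  simp only [Prod.ext_iff]
  omega

lemma mem_fE_left {f g : ℤ × ℤ} (hu : IsUnit4 (g - f)) : f + g - (1, 1) ∈ fE f := by
  rw [mem_fE]
  simp only [Prod.fst_sub, Prod.snd_sub, Prod.fst_add, Prod.snd_add]
  have h1 := unit_cases hu
  omega

lemma ad_of {w : Finset (ℤ × ℤ)} {u v : ℤ × ℤ} (h : (v.1 = u.1 + 1 ∧ v.2 = u.2) ∨
    (v.1 = u.1 ∧ v.2 = u.2 + 1) ∨ (v.1 = u.1 - 1 ∧ v.2 = u.2) ∨ (v.1 = u.1 ∧ v.2 = u.2 - 1))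
    (hw : u + v ∈ w) : Ad w u v := by
  refine ⟨?_, hw⟩
  unfold IsUnit4
  simp only [Prod.ext_iff, Prod.fst_sub, Prod.snd_sub]
  omega

/-- the two ends of a label are joined around each of its two faces -/
lemma co_around {f e : ℤ × ℤ} (he : e ∈ fE f) : Co ((fE f).erase e) (eu e) (ev e) := by
  have hm : ∀ l : ℤ × ℤ, l ≠ e → l ∈ fE f → l ∈ (fE f).erase e := fun l h1 h2 => mem_erase.2 ⟨h1, h2⟩
  obtain ⟨a, b⟩ := f
  obtain ⟨x, y⟩ := e
  rw [mem_fE] at he
  simp only at he
  rcases he with ⟨h1, h2⟩ | ⟨h1, h2⟩ | ⟨h1, h2⟩ | ⟨h1, h2⟩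
  · have e1 : eu (x, y) = (a - 1, b - 1) := by unfold eu; simp only [Prod.ext_iff]; omega
    have e2 : ev (x, y) = (a - 1, b) := by unfold ev; simp only [Prod.ext_iff]; omega
    rw [e1, e2]
    refine Relation.ReflTransGen.tail (Relation.ReflTransGen.tail (Relation.ReflTransGen.single
      (b := (a, b - 1)) ?_) (c := (a, b)) ?_) ?_
    all_goals
      refine ad_of (by simp) (hm _ ?_ ?_)
      · simp only [ne_eq, Prod.ext_iff, Prod.fst_add, Prod.snd_add]; omega
      · rw [mem_fE]; simp only [Prod.fst_add, Prod.snd_add]; omega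
  · have e1 : eu (x, y) = (a, b - 1) := by unfold eu; simp only [Prod.ext_iff]; omega
    have e2 : ev (x, y) = (a, b) := by unfold ev; simp only [Prod.ext_iff]; omega
    rw [e1, e2]
    refine Relation.ReflTransGen.tail (Relation.ReflTransGen.tail (Relation.ReflTransGen.single
      (b := (a - 1, b - 1)) ?_) (c := (a - 1, b)) ?_) ?_
    all_goals
      refine ad_of (by simp) (hm _ ?_ ?_)
      · simp only [ne_eq, Prod.ext_iff, Prod.fst_add, Prod.snd_add]; omega
      · rw [mem_fE]; simp only [Prod.fst_add, Prod.snd_add]; omega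
  · have e1 : eu (x, y) = (a - 1, b - 1) := by unfold eu; simp only [Prod.ext_iff]; omega
    have e2 : ev (x, y) = (a, b - 1) := by unfold ev; simp only [Prod.ext_iff]; omega
    rw [e1, e2]
    refine Relation.ReflTransGen.tail (Relation.ReflTransGen.tail (Relation.ReflTransGen.single
      (b := (a - 1, b)) ?_) (c := (a, b)) ?_) ?_
    all_goals
      refine ad_of (by simp) (hm _ ?_ ?_)
      · simp only [ne_eq, Prod.ext_iff, Prod.fst_add, Prod.snd_add]; omega
      · rw [mem_fE]; simp only [Prod.fst_add, Prod.snd_add]; omega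
  · have e1 : eu (x, y) = (a - 1, b) := by unfold eu; simp only [Prod.ext_iff]; omega
    have e2 : ev (x, y) = (a, b) := by unfold ev; simp only [Prod.ext_iff]; omega
    rw [e1, e2]
    refine Relation.ReflTransGen.tail (Relation.ReflTransGen.tail (Relation.ReflTransGen.single
      (b := (a - 1, b - 1)) ?_) (c := (a, b - 1)) ?_) ?_
    all_goals
      refine ad_of (by simp) (hm _ ?_ ?_)
      · simp only [ne_eq, Prod.ext_iff, Prod.fst_add, Prod.snd_add]; omega
      · rw [mem_fE]; simp only [Prod.fst_add, Prod.snd_add]; omega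

/-- a dual path can be cut at its last visit to `{p, q}` -/
lemma dco_cut {w : Finset (ℤ × ℤ)} {p q f g : ℤ × ℤ} (hpq : p ≠ q) (h : DCo w f g) :
    DCo (w ∪ fE p ∪ fE q) f g ∨ DCo (w ∪ fE q) p g ∨ DCo (w ∪ fE p) q g := by
  obtain ⟨F, hF⟩ := h
  induction hF using Relation.ReflTransGen.head_induction_on with
  | refl => exact Or.inl (DCo.refl _ _)
  | @head f f' hs hr ih =>
    rcases ih with h1 | h1 | h1
    · have hl : f + f' - (1, 1) ∉ w := by
        have h2 := hs.2
        unfold du at h2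
        rw [mem_map] at h2
        obtain ⟨x, hx, hx2⟩ := h2
        have h3 : x = f + f' - (1, 1) := by
          rw [← hx2]
          change x = ((x.1 + 1, x.2 + 1) : ℤ × ℤ) - (1, 1)
          refine Prod.ext ?_ ?_ <;> simp
        rw [← h3]; exact (mem_sdiff.1 hx).2
      by_cases hp' : f' = p
      · right; left
        rw [hp'] at h1
        exact h1.anti (by
          intro x hx
          rcases mem_union.1 hx with h2 | h2
          · exact mem_union_left _ (mem_union_left _ h2)
          · exact mem_union_right _ h2)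
      by_cases hq' : f' = q
      · right; right
        rw [hq'] at h1
        exact h1.anti subset_union_left
      by_cases hp : f = p
      · right; left
        have h2 : DCo (w ∪ fE q) f f' := by
          refine DCo.step hs.1 ?_
          rw [mem_union, not_or]
          refine ⟨hl, fun h3 => ?_⟩
          rcases of_mem_fE hs.1 h3 with h4 | h4
          · exact hpq (hp.symm.trans h4.symm)
          · exact hq' h4.symm
        rw [hp] at h2
        exact h2.trans (h1.anti (by
          intro x hx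
          rcases mem_union.1 hx with h2 | h2
          · exact mem_union_left _ (mem_union_left _ h2)
          · exact mem_union_right _ h2))
      by_cases hq : f = q
      · right; right
        have h2 : DCo (w ∪ fE p) f f' := by
          refine DCo.step hs.1 ?_
          rw [mem_union, not_or]
          refine ⟨hl, fun h3 => ?_⟩
          rcases of_mem_fE hs.1 h3 with h4 | h4
          · exact hp h4.symm
          · exact hp' h4.symm
        rw [hq] at h2
        exact h2.trans (h1.anti subset_union_left)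
      · left
        refine (DCo.step hs.1 ?_).trans h1
        rw [mem_union, mem_union, not_or, not_or]
        refine ⟨⟨hl, fun h3 => ?_⟩, fun h3 => ?_⟩
        · rcases of_mem_fE hs.1 h3 with h4 | h4
          · exact hp h4.symm
          · exact hp' h4.symm
        · rcases of_mem_fE hs.1 h3 with h4 | h4
          · exact hq h4.symm
          · exact hq' h4.symm
    · exact Or.inr (Or.inl h1)
    · exact Or.inr (Or.inr h1)

/-- **Surgery**: the next label of a visited corner can be closed. -/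
theorem exists_closed {w : Finset (ℤ × ℤ)} {c0 c : ℤ × ℤ} (h : InOrb (nx w) c0 c) :
    ∃ T ⊆ fE (fi c) ∪ fE (fi (nxC c)), InOrb (nx ((w ∪ T).erase (lab c))) c0 c := by
  by_cases he : lab c ∈ w
  swap
  · exact ⟨∅, empty_subset _, by rw [union_empty, erase_eq_of_notMem he]; exact h⟩
  obtain ⟨hu, hs⟩ := Pool.Agent.H75.TwoArm.StrandAux.fi_nxC c
  set p := fi c with hp
  set q := fi (nxC c) with hq
  have hs' : p + q - (1, 1) = lab c := by rw [hs]; exact add_sub_cancel_right _ _
  have hpq : p ≠ q := by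
    intro e
    have := unit_cases hu
    rw [e] at this
    omega
  have hep : lab c ∈ fE p := by rw [← hs']; exact mem_fE_left hu
  have heq : lab c ∈ fE q := by
    have h1 : IsUnit4 (p - q) := by
      have := isUnit4_neg hu
      rwa [neg_sub] at this
    have h2 := mem_fE_left h1
    rw [add_comm q p, hs'] at h2
    exact h2
  obtain ⟨h1, h2⟩ := Pool.Agent.H33.Q1.inOrb_iff_dco.1 h
  have hco : ∀ f, lab c ∈ fE f → Co ((w ∪ fE f).erase (lab c)) (vx c0) (vx c) := by
    intro f hf
    refine co_erase ((co_around hf).mono (erase_subset_erase _ subset_union_right)) ?_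
    exact h1.mono subset_union_left
  have h3 : DCo (w ∪ fE q) p (fi c0) ∨ DCo (w ∪ fE p) q (fi c0) := by
    rcases dco_cut (p := p) (q := q) hpq h2.symm with h3 | h3 | h3
    · left
      refine h3.anti ?_
      intro x hx
      rcases mem_union.1 hx with h4 | h4
      · exact mem_union_left _ (mem_union_left _ h4)
      · exact mem_union_right _ h4
    · exact Or.inl h3
    · exact Or.inr h3
  rcases h3 with h3 | h3
  · refine ⟨fE q, subset_union_right, Pool.Agent.H33.Q1.inOrb_iff_dco.2 ⟨hco q heq, ?_⟩⟩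
    exact (h3.anti (erase_subset _ _)).symm
  · refine ⟨fE p, subset_union_left, Pool.Agent.H33.Q1.inOrb_iff_dco.2 ⟨hco p hep, ?_⟩⟩
    refine ((h3.anti (erase_subset _ _)).symm).trans (DCo.symm ?_)
    refine DCo.step hu ?_
    rw [hs']
    exact notMem_erase _ _

/-- visits of the strand of the root of a plane environment -/
lemma vis_iff {X : Env} {W : Finset (ℤ × ℤ)} (hX : M6c.PlaneEnv X W) {ω : Finset (ℤ × ℤ)}
    (hω : ω ⊆ X.E) (c : ℤ × ℤ) : Pool.Agent.H53.ZF.Vis X c ω ↔ InOrb (nx (ω ∪ W)) X.c0 c := by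
  rw [(hX.orb hω).inOrb_iff]
  unfold Pool.Agent.H53.ZF.Vis
  simp only [hX.zz ω hω]

lemma fE_sub_Bq {c f : ℤ × ℤ} {N : ℕ} (hN : 1 ≤ N)
    (h1 : (vx c).1 ≤ f.1 ∧ f.1 ≤ (vx c).1 + 1) (h2 : (vx c).2 ≤ f.2 ∧ f.2 ≤ (vx c).2 + 1) :
    fE f ⊆ Pool.Agent.H47.NC.Bq (vx c) N := by
  intro e he
  rw [mem_fE] at he
  unfold Pool.Agent.H47.NC.Bq
  rw [mem_Bx]
  omega

/-- **Surgery in an environment.** -/
theorem exists_closed_env {X : Env} {W : Finset (ℤ × ℤ)} (hX : M6c.PlaneEnv X W) {c : ℤ × ℤ}
    {N : ℕ} (hN : 1 ≤ N) (hB : Pool.Agent.H47.NC.Bq (vx c) N ⊆ X.E)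
    (h : ∃ ω ⊆ X.E, Pool.Agent.H53.ZF.Vis X c ω) :
    ∃ ω ⊆ X.E.erase (lab c), Pool.Agent.H53.ZF.Vis X c ω := by
  have hT : fE (fi c) ∪ fE (fi (nxC c)) ⊆ X.E := by
    refine (union_subset ?_ ?_).trans hB
    · refine fE_sub_Bq hN ?_ ?_ <;> unfold fi vx <;> omega
    · have h1 : vx (nxC c) = vx c := vx_nxC c
      rw [← h1]
      refine fE_sub_Bq hN ?_ ?_ <;> unfold fi vx <;> omega
  obtain ⟨ω, hω, hv⟩ := h
  rw [vis_iff hX hω] at hv
  obtain ⟨T, hT', hv'⟩ := exists_closed hv
  have heE : lab c ∈ X.E := by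
    obtain ⟨hu, hs⟩ := Pool.Agent.H75.TwoArm.StrandAux.fi_nxC c
    have hs' : fi c + fi (nxC c) - (1, 1) = lab c := by rw [hs]; exact add_sub_cancel_right _ _
    rw [← hs']
    exact hT (mem_union_left _ (mem_fE_left hu))
  have heW : lab c ∉ W := disjoint_left.1 hX.disj heE
  have h1 : (ω ∪ T).erase (lab c) ⊆ X.E.erase (lab c) :=
    erase_subset_erase _ (union_subset hω (hT'.trans hT))
  refine ⟨_, h1, ?_⟩
  rw [vis_iff hX (h1.trans (erase_subset _ _))]
  have e : (ω ∪ T).erase (lab c) ∪ W = (ω ∪ W ∪ T).erase (lab c) := by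
    ext x
    simp only [mem_union, mem_erase]
    constructor
    · rintro (⟨h2, h3⟩ | h2)
      · exact ⟨h2, by tauto⟩
      · exact ⟨fun h3 => heW (h3 ▸ h2), by tauto⟩
    · rintro ⟨h2, h3⟩
      tauto
  rw [e]; exact hv'

end Pool.Agent.H95.ZF
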