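import Mathlib
import Pool.Agent.H53.ZF.Def
import Pool.Agent.H95.ZF.Surg

set_option autoImplicit false
open Finset

/-! Generating functions of the turning index at the corners: values at corners next to each other,
the parts with a label open or closed, consequences of the zero-freeness. -/

namespace Pool.Agent.H95.ZF

open Pool.Agent.H75.Perc Pool.Agent.H75.TwoArm Pool.Agent.H75.Four Pool.Agent.H69.Q1 Pool.Agent.Q1
open Pool.Agent.H99.NC Pool.Agent.H53.ZF Pool.Agent.H75.Four.FOtherAux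
open Pool.Agent.ZF (at')
open Pool.Agent.H75.TwoArm.StrandAux hiding vx_nxC

variable {X : Env}

lemma at_of {ω : Finset (ℤ × ℤ)} (hω : ω ⊆ X.E) {i : ℕ} (hi : i < X.len ω) {h : ℤ × ℤ}
    (hz : X.z ω i = h) (y : ℂ) : at' X y ω h = y ^ X.K ω i := by
  unfold at'
  rw [Finset.sum_eq_single i]
  · rw [if_pos hz]
  · intro j hj hji
    rw [if_neg]
    intro h2
    exact hji (Env.z_inj hω (mem_range.1 hj) hi (h2.trans hz.symm))
  · intro hn; exact absurd (mem_range.2 hi) hn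

lemma at_zero {ω : Finset (ℤ × ℤ)} {h : ℤ × ℤ} (hn : ¬ Vis X h ω) (y : ℂ) : at' X y ω h = 0 := by
  unfold at'
  apply Finset.sum_eq_zero
  intro i hi
  rw [if_neg]
  intro h2
  exact hn ⟨i, mem_range.1 hi, h2⟩

/-- the next corner -/
lemma at_next {ω : Finset (ℤ × ℤ)} (hω : ω ⊆ X.E) {c : ℤ × ℤ} (hc : lab c ∈ X.E) {y : ℂ}
    (hy : y ≠ 0) : at' X y ω (nx ω c) = y ^ del ω c * at' X y ω c := by
  have hf : X.f ω c = nx ω c := Env.f_in hc
  have hd : X.d ω c = del ω c := Env.d_in hc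
  have hne : nx ω c ≠ X.c0 := by
    unfold nx
    split_ifs
    · have h1 : nxO c = nxC (opc c) := by rw [nxC_eq_nxO, opc_opc]
      rw [h1]
      exact X.root _ (by rw [lab_opc]; exact hc)
    · exact X.root _ hc
  by_cases hv : ∃ i < X.len ω, X.z ω i = c
  · obtain ⟨i, hi, hz⟩ := hv
    have h1 : X.z ω (i + 1) = nx ω c := by rw [Env.z_succ, hz, hf]
    have h2 : i + 1 < X.len ω := by
      rcases Nat.lt_or_ge (i + 1) (X.len ω) with h3 | h3
      · exact h3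
      · exfalso
        have h4 : i + 1 = X.len ω := by omega
        rw [h4, Env.z_len hω] at h1
        exact hne h1.symm
    rw [at_of hω hi hz, at_of hω h2 h1, Env.K_succ, hz, hd, ← zpow_add₀ hy, add_comm]
  · rw [at_zero (h := c) hv, mul_zero, at_zero]
    rintro ⟨j, hj, hz⟩
    apply hv
    obtain ⟨k, rfl⟩ : ∃ k, j = k + 1 := by
      refine ⟨j - 1, ?_⟩
      have : j ≠ 0 := by
        rintro rfl
        rw [Env.z_zero] at hz
        exact hne hz.symm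
      omega
    refine ⟨k, by omega, ?_⟩
    rw [Env.z_succ, ← hf] at hz
    exact Env.f_injective hω hz

lemma at_nxC_closed {ω : Finset (ℤ × ℤ)} (hω : ω ⊆ X.E) {c : ℤ × ℤ} (hc : lab c ∈ X.E)
    (hn : lab c ∉ ω) {y : ℂ} (hy : y ≠ 0) : at' X y ω (nxC c) = y * at' X y ω c := by
  have h := at_next hω hc hy
  unfold nx del at h
  rw [if_neg hn, if_neg hn, zpow_one] at h
  exact h

lemma at_nxC_open {ω : Finset (ℤ × ℤ)} (hω : ω ⊆ X.E) {c : ℤ × ℤ} (hc : lab c ∈ X.E)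
    (hn : lab c ∈ ω) {y : ℂ} (hy : y ≠ 0) : at' X y ω (nxC c) = y⁻¹ * at' X y ω (opc c) := by
  have h := at_next (c := opc c) hω (by rw [lab_opc]; exact hc) hy
  unfold nx del at h
  rw [lab_opc, if_pos hn, if_pos hn, ← nxC_eq_nxO, zpow_neg_one] at h
  exact h

/-- part of the generating function at `c` with `lab c` closed -/
noncomputable def C0 (X : Env) (c : ℤ × ℤ) (y : ℂ) : ℂ :=
  ∑ ω ∈ (X.E.erase (lab c)).powerset, at' X y ω c

/-- part of the generating function at `c` with `lab c` open -/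
noncomputable def O0 (X : Env) (c : ℤ × ℤ) (y : ℂ) : ℂ :=
  ∑ ω ∈ (X.E.erase (lab c)).powerset, at' X y (insert (lab c) ω) c

/-- part of the generating function at `opc c` with `lab c` open -/
noncomputable def O2 (X : Env) (c : ℤ × ℤ) (y : ℂ) : ℂ :=
  ∑ ω ∈ (X.E.erase (lab c)).powerset, at' X y (insert (lab c) ω) (opc c)

/-- weight `s` for the label `e`, weight `1` for the others -/
noncomputable def wts (e : ℤ × ℤ) (s : ℝ) (a : ℤ × ℤ) : ℝ := if a = e then s else 1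

lemma prod_wts_out {e : ℤ × ℤ} {s : ℝ} {ω : Finset (ℤ × ℤ)} (h : e ∉ ω) :
    ∏ a ∈ ω, (wts e s a : ℂ) = 1 := by
  refine prod_eq_one fun a ha => ?_
  have h1 : a ≠ e := by
    intro h1
    rw [h1] at ha
    exact h ha
  unfold wts
  rw [if_neg h1]
  simp

lemma prod_wts_in {e : ℤ × ℤ} {s : ℝ} {ω : Finset (ℤ × ℤ)} (h : e ∉ ω) :
    ∏ a ∈ insert e ω, (wts e s a : ℂ) = s := by
  rw [prod_insert h, prod_wts_out h]
  unfold wts
  simp

lemma genT_split {c : ℤ × ℤ} (hc : lab c ∈ X.E) (s : ℝ) (y : ℂ) (h : ℤ × ℤ) :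
    genT X (wts (lab c) s) y h =
      (∑ ω ∈ (X.E.erase (lab c)).powerset, at' X y ω h) +
      s * ∑ ω ∈ (X.E.erase (lab c)).powerset, at' X y (insert (lab c) ω) h := by
  unfold genT
  have e1 : X.E.powerset = (insert (lab c) (X.E.erase (lab c))).powerset := by
    rw [insert_erase hc]
  rw [e1, sum_powerset_insert (notMem_erase _ _), mul_sum]
  congr 1
  · refine sum_congr rfl fun ω hω => ?_
    rw [prod_wts_out (fun h1 => notMem_erase _ _ (mem_powerset.1 hω h1)), one_mul]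
  · refine sum_congr rfl fun ω hω => ?_
    rw [prod_wts_in (fun h1 => notMem_erase _ _ (mem_powerset.1 hω h1))]

lemma genT_c {c : ℤ × ℤ} (hc : lab c ∈ X.E) (s : ℝ) (y : ℂ) :
    genT X (wts (lab c) s) y c = C0 X c y + s * O0 X c y := genT_split hc s y c

lemma genT_nxC {c : ℤ × ℤ} (hc : lab c ∈ X.E) (s : ℝ) {y : ℂ} (hy : y ≠ 0) :
    genT X (wts (lab c) s) y (nxC c) = y * C0 X c y + s * (y⁻¹ * O2 X c y) := by
  rw [genT_split hc s y]
  have h1 : ∑ ω ∈ (X.E.erase (lab c)).powerset, at' X y ω (nxC c) = y * C0 X c y := by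
    unfold C0
    rw [mul_sum]
    refine sum_congr rfl fun ω hω => ?_
    have h1 := mem_powerset.1 hω
    exact at_nxC_closed (h1.trans (erase_subset _ _)) hc (fun h2 => notMem_erase _ _ (h1 h2)) hy
  have h2 : ∑ ω ∈ (X.E.erase (lab c)).powerset, at' X y (insert (lab c) ω) (nxC c) =
      y⁻¹ * O2 X c y := by
    unfold O2
    rw [mul_sum]
    refine sum_congr rfl fun ω hω => ?_
    have h1 := mem_powerset.1 hω
    exact at_nxC_open (insert_subset hc (h1.trans (erase_subset _ _))) hc (mem_insert_self _ _) hy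
  rw [h1, h2]

lemma genT_one (y : ℂ) (h e : ℤ × ℤ) :
    gn X y h = (1 / 2 : ℂ) ^ X.E.card * genT X (wts e 1) y h := by
  unfold gn genT
  congr 1
  refine sum_congr rfl fun ω _ => ?_
  have : ∏ a ∈ ω, (wts e 1 a : ℂ) = 1 := by
    refine prod_eq_one fun a _ => ?_
    unfold wts; split_ifs <;> simp
  rw [this, one_mul]

lemma gn_c {c : ℤ × ℤ} (hc : lab c ∈ X.E) (y : ℂ) :
    gn X y c = (1 / 2 : ℂ) ^ X.E.card * (C0 X c y + O0 X c y) := by
  rw [genT_one y c (lab c), genT_c hc]; simp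

lemma gn_nxC {c : ℤ × ℤ} (hc : lab c ∈ X.E) {y : ℂ} (hy : y ≠ 0) :
    gn X y (nxC c) = (1 / 2 : ℂ) ^ X.E.card * (y * C0 X c y + y⁻¹ * O2 X c y) := by
  rw [genT_one y (nxC c) (lab c), genT_nxC hc 1 hy]; simp

/-- `C0` is the generating function of the environment with the label frozen closed -/
lemma C0_freeze (c : ℤ × ℤ) (y : ℂ) :
    C0 X c y = genT (X.freeze (X.E.erase (lab c)) ∅) (fun _ => 1) y c := by
  unfold C0 genT
  rw [Env.freeze_E, inter_eq_right.2 (erase_subset _ _)]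
  refine sum_congr rfl fun ω hω => ?_
  have h1 := mem_powerset.1 hω
  have h2 : ω ⊆ X.E ∩ X.E.erase (lab c) := by
    rw [inter_eq_right.2 (erase_subset _ _)]; exact h1
  have e1 : ω ∪ (∅ ∩ (X.E \ X.E.erase (lab c))) = ω := by simp
  unfold at'
  rw [Env.freeze_len h2]
  simp only [Env.freeze_z h2, Env.freeze_K h2, e1]
  simp

/-- **Consequences of the zero-freeness.** -/
structure NZ (X : Env) (c : ℤ × ℤ) : Prop where
  c0 : ∀ y : ℂ, y ≠ 0 → |y.arg| < Real.pi / 4 → C0 X c y ≠ 0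
  o0 : ∀ y : ℂ, y ≠ 0 → |y.arg| < Real.pi / 4 → ∀ s : ℝ, 0 < s → C0 X c y + s * O0 X c y ≠ 0
  o2 : ∀ y : ℂ, y ≠ 0 → |y.arg| < Real.pi / 4 → ∀ s : ℝ, 0 < s →
    y * C0 X c y + s * (y⁻¹ * O2 X c y) ≠ 0

lemma wts_pos {e : ℤ × ℤ} {s : ℝ} (hs : 0 < s) (a : ℤ × ℤ) : 0 < wts e s a := by
  unfold wts; split_ifs
  · exact hs
  · exact one_pos

lemma lab_mem {X : Env} {c : ℤ × ℤ} {N : ℕ} (hN : 1 ≤ N)
    (hB : Pool.Agent.H47.NC.Bq (vx c) N ⊆ X.E) : lab c ∈ X.E := by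
  apply hB
  obtain ⟨hu, hs⟩ := Pool.Agent.H75.TwoArm.StrandAux.fi_nxC c
  have hs' : fi c + fi (nxC c) - (1, 1) = lab c := by rw [hs]; exact add_sub_cancel_right _ _
  rw [← hs']
  refine fE_sub_Bq (f := fi c) hN ?_ ?_ (mem_fE_left hu) <;> unfold fi vx <;> omega

theorem nz_of {X : Env} {W : Finset (ℤ × ℤ)} (hZ : ZFE) (hX : M6c.PlaneEnv X W) {c : ℤ × ℤ}
    {N : ℕ} (hN : 1 ≤ N) (hB : Pool.Agent.H47.NC.Bq (vx c) N ⊆ X.E)
    (h : ∃ ω ⊆ X.E, Vis X c ω) : NZ X c := by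
  have hc := lab_mem hN hB
  obtain ⟨ω, hω, hv⟩ := exists_closed_env hX hN hB h
  have hωE : ω ⊆ X.E := hω.trans (erase_subset _ _)
  have hn : lab c ∉ ω := fun h2 => notMem_erase _ _ (hω h2)
  refine ⟨?_, ?_, ?_⟩
  · intro y hy ha
    rw [C0_freeze]
    refine hZ _ _ (hX.freeze (X.E.erase (lab c)) ∅) c ?_ _ (fun _ => one_pos) y hy ha
    rw [Env.freeze_E, inter_eq_right.2 (erase_subset _ _)]
    refine ⟨ω, hω, ?_⟩
    have h2 : ω ⊆ X.E ∩ X.E.erase (lab c) := by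
      rw [inter_eq_right.2 (erase_subset _ _)]; exact hω
    have e1 : ω ∪ (∅ ∩ (X.E \ X.E.erase (lab c))) = ω := by simp
    unfold Vis at hv ⊢
    rw [Env.freeze_len h2]
    simp only [Env.freeze_z h2, e1]
    exact hv
  · intro y hy ha s hs
    rw [← genT_c hc]
    exact hZ X W hX c ⟨ω, hωE, hv⟩ _ (wts_pos hs) y hy ha
  · intro y hy ha s hs
    rw [← genT_nxC hc s hy]
    refine hZ X W hX (nxC c) ⟨ω, hωE, ?_⟩ _ (wts_pos hs) y hy ha
    -- the path goes from `c` to `nxC c`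
    by_contra hcon
    have h3 := at_nxC_closed hωE hc hn (y := 1) one_ne_zero
    rw [at_zero hcon] at h3
    obtain ⟨i, hi, hz⟩ := hv
    rw [at_of hωE hi hz, one_mul, one_zpow] at h3
    exact zero_ne_one h3

/-! ### Holomorphy -/

lemma at_diff (ω : Finset (ℤ × ℤ)) (h : ℤ × ℤ) {g : ℂ → ℂ} {s : Set ℂ}
    (hg : DifferentiableOn ℂ g s) (h0 : ∀ x ∈ s, g x ≠ 0) :
    DifferentiableOn ℂ (fun x => at' X (g x) ω h) s := by
  unfold at'
  refine DifferentiableOn.fun_sum fun i _ => ?_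
  by_cases hz : X.z ω i = h
  · simp only [if_pos hz]
    exact hg.zpow (Or.inl h0)
  · simp only [if_neg hz]
    exact differentiableOn_const _

lemma C0_diff (c : ℤ × ℤ) {g : ℂ → ℂ} {s : Set ℂ}
    (hg : DifferentiableOn ℂ g s) (h0 : ∀ x ∈ s, g x ≠ 0) :
    DifferentiableOn ℂ (fun x => C0 X c (g x)) s :=
  DifferentiableOn.fun_sum fun ω _ => at_diff ω _ hg h0

lemma O0_diff (c : ℤ × ℤ) {g : ℂ → ℂ} {s : Set ℂ}
    (hg : DifferentiableOn ℂ g s) (h0 : ∀ x ∈ s, g x ≠ 0) :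
    DifferentiableOn ℂ (fun x => O0 X c (g x)) s :=
  DifferentiableOn.fun_sum fun _ _ => at_diff _ _ hg h0

lemma O2_diff (c : ℤ × ℤ) {g : ℂ → ℂ} {s : Set ℂ}
    (hg : DifferentiableOn ℂ g s) (h0 : ∀ x ∈ s, g x ≠ 0) :
    DifferentiableOn ℂ (fun x => O2 X c (g x)) s :=
  DifferentiableOn.fun_sum fun _ _ => at_diff _ _ hg h0

/-! ### Positivity at `y = 1` -/

lemma at_one (ω : Finset (ℤ × ℤ)) (hω : ω ⊆ X.E) (h : ℤ × ℤ) :
    at' X 1 ω h = ((ind (Vis X h ω) : ℝ) : ℂ) := by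
  by_cases hv : Vis X h ω
  · rw [ind_true hv]
    obtain ⟨i, hi, hz⟩ := hv
    rw [at_of hω hi hz, one_zpow]; simp
  · rw [ind_false hv, at_zero hv]; simp

lemma at_norm {ω : Finset (ℤ × ℤ)} (hω : ω ⊆ X.E) (h : ℤ × ℤ) {y : ℂ} (hy : ‖y‖ = 1) :
    ‖at' X y ω h‖ ≤ ind (Vis X h ω) := by
  by_cases hv : Vis X h ω
  · rw [ind_true hv]
    obtain ⟨i, hi, hz⟩ := hv
    rw [at_of hω hi hz, norm_zpow, hy, one_zpow]
  · rw [ind_false hv, at_zero hv]; simp

lemma prP_eq (h : ℤ × ℤ) : PrP (fun _ => 1 / 2) X.E (Vis X h) =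
    (1 / 2 : ℝ) ^ X.E.card * ∑ ω ∈ X.E.powerset, ind (Vis X h ω) := by
  have h1 := Ec_half X.E (fun ω => ((ind (Vis X h ω) : ℝ) : ℂ))
  have h2 : Ec (fun _ => (1 / 2 : ℂ)) X.E (fun ω => ((ind (Vis X h ω) : ℝ) : ℂ)) =
      ((PrP (fun _ => 1 / 2) X.E (Vis X h) : ℝ) : ℂ) := by
    unfold Ec PrP Ex
    push_cast
    refine sum_congr rfl fun ω _ => ?_
    congr 1
    unfold wtc wt
    push_cast
    rfl
  rw [h2] at h1
  have h3 : (((1 / 2 : ℝ) ^ X.E.card * ∑ ω ∈ X.E.powerset, ind (Vis X h ω) : ℝ) : ℂ) =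
      (1 / 2 : ℂ) ^ X.E.card * ∑ ω ∈ X.E.powerset, ((ind (Vis X h ω) : ℝ) : ℂ) := by
    push_cast; rfl
  rw [← h3] at h1
  exact_mod_cast h1

lemma gn_one (h : ℤ × ℤ) : gn X 1 h = ((PrP (fun _ => 1 / 2) X.E (Vis X h) : ℝ) : ℂ) := by
  rw [prP_eq]
  unfold gn
  push_cast
  congr 1
  exact sum_congr rfl fun ω hω => at_one ω (mem_powerset.1 hω) h

lemma gn_norm (h : ℤ × ℤ) {y : ℂ} (hy : ‖y‖ = 1) :
    ‖gn X y h‖ ≤ PrP (fun _ => 1 / 2) X.E (Vis X h) := by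
  rw [prP_eq]
  unfold gn
  rw [norm_mul, norm_pow]
  have e : ‖(1 / 2 : ℂ)‖ = 1 / 2 := by norm_num
  rw [e]
  refine mul_le_mul_of_nonneg_left ?_ (by positivity)
  exact (norm_sum_le _ _).trans (sum_le_sum fun ω hω => at_norm (mem_powerset.1 hω) h hy)

end Pool.Agent.H95.ZF
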