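import Mathlib
import Pool.Agent.Q1.M6f.Vitali

set_option autoImplicit false

/-! (c1) of the plan ZF => N1: functions `q R e` (`e` = outer wiring at scale `R`) which are holomorphic
on a domain `Om` and avoid the half line `(-oo, 0]`, and which converge pointwise, uniformly in the
wiring, on a set with an accumulation point in `Om`, converge locally uniformly on `Om`, uniformly in
the wiring. (Montel / Vitali.) -/

open Set Filter Topology

namespace Pool.Agent.H95.ZF

/-- Square root and Cayley transform: slit plane to unit disc. -/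
noncomputable def cay (q : ℂ) : ℂ :=
  (Complex.exp (Complex.log q / 2) - 1) / (Complex.exp (Complex.log q / 2) + 1)

lemma sqrt_re {q : ℂ} (hq : q ∈ Complex.slitPlane) :
    0 < (Complex.exp (Complex.log q / 2)).re := by
  rw [Complex.exp_re]
  refine mul_pos (Real.exp_pos _) (Real.cos_pos_of_mem_Ioo ?_)
  have h1 : (Complex.log q / 2).im = q.arg / 2 := by
    have : Complex.log q / 2 = Complex.log q / ((2 : ℝ) : ℂ) := by norm_num
    rw [this, Complex.div_ofReal_im, Complex.log_im]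
  rw [h1]
  have h2 := Complex.neg_pi_lt_arg q
  have h3 := Complex.arg_le_pi q
  have h4 : q.arg ≠ Real.pi := Complex.mem_slitPlane_iff_arg.1 hq |>.1
  have h5 : q.arg < Real.pi := lt_of_le_of_ne h3 h4
  constructor <;> linarith

lemma cay_den {q : ℂ} (hq : q ∈ Complex.slitPlane) :
    Complex.exp (Complex.log q / 2) + 1 ≠ 0 := by
  intro h
  have h1 := sqrt_re hq
  have h2 : (Complex.exp (Complex.log q / 2) + 1).re = 0 := by rw [h]; rfl
  rw [Complex.add_re, Complex.one_re] at h2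
  linarith

lemma norm_cay {q : ℂ} (hq : q ∈ Complex.slitPlane) : ‖cay q‖ < 1 := by
  set s := Complex.exp (Complex.log q / 2) with hs
  have h1 : 0 < s.re := sqrt_re hq
  have h2 : s + 1 ≠ 0 := cay_den hq
  have e : cay q = (s - 1) / (s + 1) := rfl
  rw [e, norm_div, div_lt_one (norm_pos_iff.2 h2)]
  have h3 : ‖s - 1‖ ^ 2 < ‖s + 1‖ ^ 2 := by
    rw [← Complex.normSq_eq_norm_sq, ← Complex.normSq_eq_norm_sq, Complex.normSq_apply,
      Complex.normSq_apply]
    simp only [Complex.sub_re, Complex.sub_im, Complex.add_re, Complex.add_im, Complex.one_re,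
      Complex.one_im]
    nlinarith
  exact lt_of_pow_lt_pow_left₀ 2 (norm_nonneg _) h3

lemma cay_inv {q : ℂ} (hq : q ∈ Complex.slitPlane) :
    ((1 + cay q) / (1 - cay q)) ^ 2 = q := by
  set s := Complex.exp (Complex.log q / 2) with hs
  have h2 : s + 1 ≠ 0 := cay_den hq
  have e : cay q = (s - 1) / (s + 1) := rfl
  have h3 : (1 : ℂ) - cay q ≠ 0 := by
    rw [e]
    intro h
    field_simp at h
    norm_num at h
  have h4 : (1 + cay q) / (1 - cay q) = s := by
    rw [div_eq_iff h3, e]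
    field_simp
    ring
  rw [h4, hs, ← Complex.exp_nat_mul]
  have : ((2 : ℕ) : ℂ) * (Complex.log q / 2) = Complex.log q := by push_cast; ring
  rw [this, Complex.exp_log (Complex.slitPlane_ne_zero hq)]

lemma cay_diff {Om : Set ℂ} {q : ℂ → ℂ} (hq : DifferentiableOn ℂ q Om)
    (av : ∀ z ∈ Om, q z ∈ Complex.slitPlane) : DifferentiableOn ℂ (fun z => cay (q z)) Om := by
  have h1 : DifferentiableOn ℂ (fun z => Complex.exp (Complex.log (q z) / 2)) Om :=
    ((hq.clog av).div_const 2).cexp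
  exact (h1.sub_const 1).div (h1.add_const 1) fun z hz => cay_den (av z hz)

lemma cay_cont {q : ℂ} (hq : q ∈ Complex.slitPlane) : ContinuousAt cay q := by
  have h1 : ContinuousAt (fun q : ℂ => Complex.exp (Complex.log q / 2)) q :=
    ((continuousAt_clog hq).div_const 2).cexp
  exact (h1.sub continuousAt_const).div (h1.add continuousAt_const) (cay_den hq)

lemma inv_cont {w : ℂ} (hw : ‖w‖ < 1) :
    ContinuousAt (fun w : ℂ => ((1 + w) / (1 - w)) ^ 2) w := by
  have h1 : (1 : ℂ) - w ≠ 0 := by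
    intro h
    have : w = 1 := (sub_eq_zero.1 h).symm
    rw [this, norm_one] at hw
    exact lt_irrefl _ hw
  exact ((continuousAt_const.add continuousAt_id).div (continuousAt_const.sub continuousAt_id)
    h1).pow 2

/-- **Vitali for functions avoiding `(-oo, 0]`**, uniformly in the index `e`. -/
theorem tendsto_of_avoid {Om : Set ℂ} (hO : IsOpen Om) (hc : IsPreconnected Om)
    {E : ℕ → Type*} {q : ∀ R, E R → ℂ → ℂ}
    (hq : ∀ᶠ R in atTop, ∀ e, DifferentiableOn ℂ (q R e) Om)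
    (av : ∀ᶠ R in atTop, ∀ e, ∀ z ∈ Om, q R e z ∈ Complex.slitPlane)
    {q0 : ℂ → ℂ} (h0 : DifferentiableOn ℂ q0 Om) (av0 : ∀ z ∈ Om, q0 z ∈ Complex.slitPlane)
    {I : Set ℂ} (hI : I ⊆ Om) {z0 : ℂ} (hz0 : z0 ∈ Om) (hacc : AccPt z0 (𝓟 I))
    (hlim : ∀ x ∈ I, ∀ η : ℝ, 0 < η → ∀ᶠ R in atTop, ∀ e, ‖q R e x - q0 x‖ < η)
    {K : Set ℂ} (hK : K ⊆ Om) (hKc : IsCompact K) {η : ℝ} (hη : 0 < η) :
    ∀ᶠ R in atTop, ∀ e, ∀ z ∈ K, ‖q R e z - q0 z‖ < η := by
  classical
  by_contra hcon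
  set Bad : Set ℕ := {R | ∃ e, ∃ z ∈ K, η ≤ ‖q R e z - q0 z‖} with hBad
  have hfreq : ∃ᶠ R in atTop, R ∈ Bad := by
    intro h
    apply hcon
    filter_upwards [h] with R hR e z hz
    by_contra h'
    exact hR ⟨e, z, hz, not_lt.1 h'⟩
  have hne : (atTop ⊓ 𝓟 Bad : Filter ℕ).NeBot := by
    rw [frequently_iff_neBot] at hfreq
    exact hfreq
  set U : Ultrafilter ℕ := Ultrafilter.of (atTop ⊓ 𝓟 Bad) with hU
  have hU1 : (U : Filter ℕ) ≤ atTop := (Ultrafilter.of_le _).trans inf_le_left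
  have hU2 : ∀ᶠ R in (U : Filter ℕ), R ∈ Bad :=
    ((Ultrafilter.of_le _).trans inf_le_right) (mem_principal_self _)
  -- the bad functions
  set F : ℕ → ℂ → ℂ := fun R => if h : R ∈ Bad then q R h.choose else q0 with hF
  set w : ℕ → ℂ := fun R => if h : R ∈ Bad then h.choose_spec.choose else z0 with hw
  have hwK : ∀ᶠ R in (U : Filter ℕ), w R ∈ K ∧ η ≤ ‖F R (w R) - q0 (w R)‖ := by
    filter_upwards [hU2] with R hR
    have h1 := hR.choose_spec.choose_spec
    simp only [hF, hw, dif_pos hR]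
    exact h1
  have hFd : ∀ᶠ R in (U : Filter ℕ), DifferentiableOn ℂ (F R) Om := by
    filter_upwards [hU1 hq, hU2] with R h1 hR
    simp only [hF, dif_pos hR]
    exact h1 _
  have hFa : ∀ᶠ R in (U : Filter ℕ), ∀ z ∈ Om, F R z ∈ Complex.slitPlane := by
    filter_upwards [hU1 av, hU2] with R h1 hR
    simp only [hF, dif_pos hR]
    exact h1 _
  have hFl : ∀ x ∈ I, Tendsto (fun R => F R x) U (𝓝 (q0 x)) := by
    intro x hx
    rw [Metric.tendsto_nhds]
    intro ε hε
    filter_upwards [hU1 (hlim x hx ε hε), hU2] with R h1 hR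
    simp only [hF, dif_pos hR, dist_eq_norm]
    exact h1 _
  -- Cayley transforms
  set G : ℕ → ℂ → ℂ := fun R z => cay (F R z) with hG
  have hGd : ∀ᶠ R in (U : Filter ℕ), DifferentiableOn ℂ (G R) Om := by
    filter_upwards [hFd, hFa] with R h1 h2
    exact cay_diff h1 h2
  obtain ⟨g, hg, hglim⟩ := Pool.Agent.Q1.M6f.exists_lim_loc U hO hGd (by
    intro K' hK' _
    refine ⟨1, ?_⟩
    filter_upwards [hFa] with R h1 z hz
    exact (norm_cay (h1 z (hK' hz))).le)
  have hcd : DifferentiableOn ℂ (fun z => cay (q0 z)) Om := cay_diff h0 av0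
  have heqI : ∀ x ∈ I, g x = cay (q0 x) := by
    intro x hx
    have h1 : Tendsto (fun R => G R x) U (𝓝 (g x)) := hglim.tendsto_at (hI hx)
    have h2 : Tendsto (fun R => G R x) U (𝓝 (cay (q0 x))) :=
      (cay_cont (av0 x (hI hx))).tendsto.comp (hFl x hx)
    exact tendsto_nhds_unique h1 h2
  have heq : EqOn g (fun z => cay (q0 z)) Om := by
    refine AnalyticOnNhd.eqOn_of_preconnected_of_frequently_eq (hg.analyticOnNhd hO)
      (hcd.analyticOnNhd hO) hc hz0 ?_
    have h1 : ∃ᶠ x in 𝓝[≠] z0, x ∈ I := by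
      rw [accPt_iff_frequently_nhdsNE] at hacc
      exact hacc
    exact h1.mono fun x hx => heqI x hx
  -- the bad points converge
  have hunif : TendstoUniformlyOn G g U K :=
    (tendstoLocallyUniformlyOn_iff_forall_isCompact hO).1 hglim K hK hKc
  have hwU : (U.map w : Filter ℂ) ≤ 𝓟 K := by
    rw [le_principal_iff]
    change ∀ᶠ R in (U : Filter ℕ), w R ∈ K
    filter_upwards [hwK] with R h; exact h.1
  obtain ⟨a, haK, ha⟩ := hKc.ultrafilter_le_nhds _ hwU
  have haO : a ∈ Om := hK haK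
  have hwa : Tendsto w U (𝓝 a) := ha
  have hgc : ContinuousAt g a := (hg.differentiableAt (hO.mem_nhds haO)).continuousAt
  have hG1 : Tendsto (fun R => G R (w R)) U (𝓝 (g a)) := by
    have h1 : Tendsto (fun R => g (w R)) U (𝓝 (g a)) := hgc.tendsto.comp hwa
    rw [Metric.tendsto_nhds] at h1 ⊢
    intro ε hε
    rw [Metric.tendstoUniformlyOn_iff] at hunif
    filter_upwards [h1 (ε / 2) (by positivity), hunif (ε / 2) (by positivity), hwK] with R h2 h3 h4
    have h5 := h3 _ h4.1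
    rw [dist_comm] at h5
    calc dist (G R (w R)) (g a) ≤ dist (G R (w R)) (g (w R)) + dist (g (w R)) (g a) :=
          dist_triangle _ _ _
      _ < ε / 2 + ε / 2 := add_lt_add h5 h2
      _ = ε := by ring
  have hga : g a = cay (q0 a) := heq haO
  have hF1 : Tendsto (fun R => F R (w R)) U (𝓝 (q0 a)) := by
    have h1 : Tendsto (fun R => ((1 + G R (w R)) / (1 - G R (w R))) ^ 2) U
        (𝓝 (((1 + g a) / (1 - g a)) ^ 2)) := by
      have hn : ‖g a‖ < 1 := by rw [hga]; exact norm_cay (av0 a haO)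
      exact (inv_cont hn).tendsto.comp hG1
    rw [hga, cay_inv (av0 a haO)] at h1
    refine h1.congr' ?_
    filter_upwards [hFa, hwK] with R h2 h3
    exact cay_inv (h2 _ (hK h3.1))
  have hq1 : Tendsto (fun R => q0 (w R)) U (𝓝 (q0 a)) :=
    ((h0.differentiableAt (hO.mem_nhds haO)).continuousAt.tendsto).comp hwa
  have hd : Tendsto (fun R => ‖F R (w R) - q0 (w R)‖) U (𝓝 0) := by
    have := (hF1.sub hq1).norm
    rwa [sub_self, norm_zero] at this
  have hfin : ∀ᶠ R in (U : Filter ℕ), False := by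
    filter_upwards [hd (gt_mem_nhds hη), hwK] with R h1 h2
    exact absurd h1 (not_lt.2 h2.2)
  exact hfin.exists.elim fun _ h => h

/-- Interval form: pointwise convergence at the real points of `[a, b]`, `a < b`, is enough. -/
theorem tendsto_of_avoid_Icc {Om : Set ℂ} (hO : IsOpen Om) (hc : IsPreconnected Om)
    {E : ℕ → Type*} {q : ∀ R, E R → ℂ → ℂ}
    (hq : ∀ᶠ R in atTop, ∀ e, DifferentiableOn ℂ (q R e) Om)
    (av : ∀ᶠ R in atTop, ∀ e, ∀ z ∈ Om, q R e z ∈ Complex.slitPlane)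
    {q0 : ℂ → ℂ} (h0 : DifferentiableOn ℂ q0 Om) (av0 : ∀ z ∈ Om, q0 z ∈ Complex.slitPlane)
    {a b : ℝ} (hab : a < b) (hI : ∀ x : ℝ, x ∈ Icc a b → (x : ℂ) ∈ Om)
    (hlim : ∀ x ∈ Icc a b, ∀ η : ℝ, 0 < η → ∀ᶠ R in atTop, ∀ e, ‖q R e (x : ℂ) - q0 x‖ < η)
    {K : Set ℂ} (hK : K ⊆ Om) (hKc : IsCompact K) {η : ℝ} (hη : 0 < η) :
    ∀ᶠ R in atTop, ∀ e, ∀ z ∈ K, ‖q R e z - q0 z‖ < η := by
  refine tendsto_of_avoid hO hc hq av h0 av0 (I := (fun x : ℝ => (x : ℂ)) '' Icc a b) ?_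
    (hI a (left_mem_Icc.2 hab.le)) ?_ ?_ hK hKc hη
  · rintro _ ⟨x, hx, rfl⟩; exact hI x hx
  · rw [accPt_iff_frequently_nhdsNE]
    have h1 : Tendsto (fun x : ℝ => (x : ℂ)) (𝓝[>] a) (𝓝[≠] (a : ℂ)) := by
      refine tendsto_nhdsWithin_iff.2 ⟨?_, ?_⟩
      · exact (Complex.continuous_ofReal.tendsto a).mono_left nhdsWithin_le_nhds
      · filter_upwards [self_mem_nhdsWithin] with x hx
        intro h
        exact (ne_of_gt (mem_Ioi.1 hx)) (Complex.ofReal_injective h)
    refine h1.frequently ?_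
    refine Eventually.frequently ?_
    filter_upwards [Ioc_mem_nhdsGT hab] with x hx
    exact ⟨x, ⟨hx.1.le, hx.2⟩, rfl⟩
  · rintro _ ⟨x, hx, rfl⟩ η hη
    exact hlim x hx η hη

/-- The branch `X ^ (-1/4)` on the slit plane. -/
noncomputable def qu (X : ℂ) : ℂ := Complex.exp (-(Complex.log X / 4))

lemma qu_re {X : ℂ} (_hX : X ∈ Complex.slitPlane) : 0 < (qu X).re := by
  unfold qu
  rw [Complex.exp_re]
  refine mul_pos (Real.exp_pos _) (Real.cos_pos_of_mem_Ioo ?_)
  have h1 : (-(Complex.log X / 4)).im = -(X.arg / 4) := by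
    have : Complex.log X / 4 = Complex.log X / ((4 : ℝ) : ℂ) := by norm_num
    rw [Complex.neg_im, this, Complex.div_ofReal_im, Complex.log_im]
  rw [h1]
  have h2 := Complex.neg_pi_lt_arg X
  have h3 := Complex.arg_le_pi X
  have h4 := Real.pi_pos
  constructor <;> linarith

lemma qu_mem {X : ℂ} (hX : X ∈ Complex.slitPlane) : qu X ∈ Complex.slitPlane :=
  Complex.mem_slitPlane_iff.2 (Or.inl (qu_re hX))

lemma qu_diff {Om : Set ℂ} (hOm : Om ⊆ Complex.slitPlane) : DifferentiableOn ℂ qu Om := by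
  have h1 : DifferentiableOn ℂ (fun z : ℂ => Complex.log z) Om :=
    differentiableOn_id.clog hOm
  exact ((h1.div_const 4).neg).cexp

lemma qu_pow {X : ℂ} (hX : X ≠ 0) : qu X ^ 4 * X = 1 := by
  unfold qu
  rw [← Complex.exp_nat_mul]
  have : ((4 : ℕ) : ℂ) * -(Complex.log X / 4) = -Complex.log X := by push_cast; ring
  rw [this, Complex.exp_neg, Complex.exp_log hX, inv_mul_cancel₀ hX]

/-- **(c1)**: if the ratios `q R e X` are holomorphic on `Om` and avoid `(-oo, 0]` there, and tend to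
`X ^ (-1/4)` for every real `X` in `[1, 1 + eps]`, uniformly in the wiring `e`, then they tend to
`X ^ (-1/4)` at every point of `Om`, uniformly in the wiring. -/
theorem c1 {Om : Set ℂ} (hO : IsOpen Om) (hc : IsPreconnected Om) (hs : Om ⊆ Complex.slitPlane)
    {E : ℕ → Type*} {q : ∀ R, E R → ℂ → ℂ}
    (hq : ∀ᶠ R in atTop, ∀ e, DifferentiableOn ℂ (q R e) Om)
    (av : ∀ᶠ R in atTop, ∀ e, ∀ z ∈ Om, q R e z ∈ Complex.slitPlane)
    {a b : ℝ} (hab : a < b) (hI : ∀ x : ℝ, x ∈ Icc a b → (x : ℂ) ∈ Om)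
    (hlim : ∀ x ∈ Icc a b, ∀ η : ℝ, 0 < η → ∀ᶠ R in atTop, ∀ e, ‖q R e (x : ℂ) - qu x‖ < η)
    {X0 : ℂ} (hX : X0 ∈ Om) {η : ℝ} (hη : 0 < η) :
    ∀ᶠ R in atTop, ∀ e, ‖q R e X0 - qu X0‖ < η := by
  have h := tendsto_of_avoid_Icc hO hc hq av (qu_diff hs) (fun z hz => qu_mem (hs hz)) hab hI hlim
    (singleton_subset_iff.2 hX) isCompact_singleton hη
  filter_upwards [h] with R hR e
  exact hR e X0 rfl

end Pool.Agent.H95.ZF
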