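import Mathlib
import Pool.Agent.H95.ZF.Gn
import Pool.Agent.H95.ZF.Alg
import Pool.Agent.H95.ZF.Vit

set_option autoImplicit false
open Finset

/-! The square root of the ratio of the generating functions at two neighbouring corners of a vertex:
a holomorphic function on the slit plane with values in the slit plane. -/

namespace Pool.Agent.H95.ZF

open Pool.Agent.H75.Perc Pool.Agent.H75.TwoArm Pool.Agent.H75.Four Pool.Agent.H69.Q1 Pool.Agent.Q1
open Pool.Agent.H99.NC Pool.Agent.H53.ZF Pool.Agent.H75.Four.FOtherAux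
open Pool.Agent.ZF (at')
open Pool.Agent.H75.TwoArm.StrandAux hiding vx_nxC

/-! ### The branch of the fourth root -/

/-- fourth root -/
noncomputable def yx (x : ℂ) : ℂ := Complex.exp (Complex.log x / 4)

lemma yx_ne (x : ℂ) : yx x ≠ 0 := Complex.exp_ne_zero _

lemma yx_pow {x : ℂ} (hx : x ≠ 0) : yx x ^ 4 = x := by
  unfold yx
  rw [← Complex.exp_nat_mul]
  have : ((4 : ℕ) : ℂ) * (Complex.log x / 4) = Complex.log x := by push_cast; ring
  rw [this, Complex.exp_log hx]

lemma div4_im (x : ℂ) : (Complex.log x / 4).im = x.arg / 4 := by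
  have : Complex.log x / 4 = Complex.log x / ((4 : ℝ) : ℂ) := by norm_num
  rw [this, Complex.div_ofReal_im, Complex.log_im]

lemma yx_arg (x : ℂ) : (yx x).arg = x.arg / 4 := by
  unfold yx
  rw [Complex.arg_exp, div4_im]
  have h2 := Complex.neg_pi_lt_arg x
  have h3 := Complex.arg_le_pi x
  have h4 := Real.pi_pos
  rw [toIocMod_eq_self]
  constructor <;> linarith

lemma yx_arg_lt {x : ℂ} (hx : x ∈ Complex.slitPlane) : |(yx x).arg| < Real.pi / 4 := by
  rw [yx_arg, abs_lt]
  have h2 := Complex.neg_pi_lt_arg x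
  have h3 := Complex.arg_le_pi x
  have h4 : x.arg ≠ Real.pi := Complex.mem_slitPlane_iff_arg.1 hx |>.1
  have h5 : x.arg < Real.pi := lt_of_le_of_ne h3 h4
  constructor <;> linarith

lemma yx_diff : DifferentiableOn ℂ yx Complex.slitPlane := by
  have h1 : DifferentiableOn ℂ (fun z : ℂ => Complex.log z) Complex.slitPlane :=
    differentiableOn_id.clog fun z hz => hz
  exact (h1.div_const 4).cexp

/-- log of a point of the unit circle -/
lemma log_exp_I {s : ℝ} (h1 : -Real.pi < s) (h2 : s ≤ Real.pi) :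
    Complex.log (Complex.exp (s * Complex.I)) = s * Complex.I := by
  rw [Complex.log_exp] <;> simp [h1, h2]

lemma exp_I_mem {s : ℝ} (h1 : -Real.pi < s) (h2 : s < Real.pi) :
    Complex.exp (s * Complex.I) ∈ Complex.slitPlane := by
  rw [Complex.mem_slitPlane_iff_arg]
  refine ⟨?_, Complex.exp_ne_zero _⟩
  have : (Complex.log (Complex.exp (s * Complex.I))).im = s := by
    rw [log_exp_I h1 h2.le]; simp
  rw [Complex.log_im] at this
  rw [this]
  exact ne_of_lt h2

lemma yx_exp_I {s : ℝ} (h1 : -Real.pi < s) (h2 : s ≤ Real.pi) :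
    yx (Complex.exp (s * Complex.I)) = Complex.exp (((s / 4 : ℝ) : ℂ) * Complex.I) := by
  unfold yx
  rw [log_exp_I h1 h2]
  congr 1
  push_cast; ring

lemma norm_exp_I (s : ℝ) : ‖Complex.exp (s * Complex.I)‖ = 1 := Complex.norm_exp_ofReal_mul_I s

/-- the limit: eighth root, inverse -/
noncomputable def qv (x : ℂ) : ℂ := Complex.exp (-(Complex.log x / 8))

lemma qv_re {x : ℂ} : 0 < (qv x).re := by
  unfold qv
  rw [Complex.exp_re]
  refine mul_pos (Real.exp_pos _) (Real.cos_pos_of_mem_Ioo ?_)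
  have h1 : (-(Complex.log x / 8)).im = -(x.arg / 8) := by
    have : Complex.log x / 8 = Complex.log x / ((8 : ℝ) : ℂ) := by norm_num
    rw [Complex.neg_im, this, Complex.div_ofReal_im, Complex.log_im]
  rw [h1]
  have h2 := Complex.neg_pi_lt_arg x
  have h3 := Complex.arg_le_pi x
  have h4 := Real.pi_pos
  constructor <;> linarith

lemma qv_mem (x : ℂ) : qv x ∈ Complex.slitPlane := Complex.mem_slitPlane_iff.2 (Or.inl qv_re)

lemma qv_diff : DifferentiableOn ℂ qv Complex.slitPlane := by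
  have h1 : DifferentiableOn ℂ (fun z : ℂ => Complex.log z) Complex.slitPlane :=
    differentiableOn_id.clog fun z hz => hz
  exact ((h1.div_const 8).neg).cexp

lemma yx_qv {x : ℂ} : yx x * qv x ^ 2 = 1 := by
  unfold yx qv
  rw [← Complex.exp_nat_mul, ← Complex.exp_add]
  have : Complex.log x / 4 + ((2 : ℕ) : ℂ) * -(Complex.log x / 8) = 0 := by push_cast; ring
  rw [this, Complex.exp_zero]

lemma qv_norm {x : ℂ} (hx : ‖x‖ = 1) : ‖qv x‖ = 1 := by
  unfold qv
  rw [Complex.norm_exp]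
  have h1 : (-(Complex.log x / 8)).re = 0 := by
    have : Complex.log x / 8 = Complex.log x / ((8 : ℝ) : ℂ) := by norm_num
    rw [Complex.neg_re, this, Complex.div_ofReal_re, Complex.log_re, hx, Real.log_one]
    simp
  rw [h1, Real.exp_zero]

/-! ### Quotients in the slit plane -/

lemma slit_of {a b : ℂ} (ha : a ≠ 0) (h : ∀ s : ℝ, 0 < s → a + s * b ≠ 0) :
    (a + b) / a ∈ Complex.slitPlane := by
  rw [add_div, div_self ha, Complex.mem_slitPlane_iff]
  by_contra hcon
  rw [not_or, not_lt, not_not] at hcon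
  obtain ⟨h1, h2⟩ := hcon
  rw [Complex.add_re, Complex.one_re] at h1
  rw [Complex.add_im, Complex.one_im, zero_add] at h2
  set r : ℝ := -(b / a).re with hr
  have hr1 : 1 ≤ r := by linarith
  have e : b / a = ((-r : ℝ) : ℂ) := by
    apply Complex.ext
    · rw [hr]; simp
    · rw [h2]; simp
  refine h r⁻¹ (by positivity) ?_
  have e2 : b = a * ((-r : ℝ) : ℂ) := by rw [← e]; field_simp
  rw [e2]
  have hr0 : (r : ℂ) ≠ 0 := by
    have : r ≠ 0 := by positivity
    exact_mod_cast this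
  push_cast
  field_simp
  ring

variable {X : Env} {c : ℤ × ℤ}

noncomputable def uu (X : Env) (c : ℤ × ℤ) (x : ℂ) : ℂ :=
  (C0 X c (yx x) + O0 X c (yx x)) / C0 X c (yx x)

noncomputable def ww (X : Env) (c : ℤ × ℤ) (x : ℂ) : ℂ :=
  (yx x * C0 X c (yx x) + (yx x)⁻¹ * O2 X c (yx x)) / (yx x * C0 X c (yx x))

/-- square root of the ratio of the generating functions, divided by `yx` -/
noncomputable def QQ (X : Env) (c : ℤ × ℤ) (x : ℂ) : ℂ :=
  Complex.exp ((Complex.log (ww X c x) - Complex.log (uu X c x)) / 2)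

lemma uu_mem (h : NZ X c) {x : ℂ} (hx : x ∈ Complex.slitPlane) : uu X c x ∈ Complex.slitPlane :=
  slit_of (h.c0 _ (yx_ne x) (yx_arg_lt hx)) (h.o0 _ (yx_ne x) (yx_arg_lt hx))

lemma ww_mem (h : NZ X c) {x : ℂ} (hx : x ∈ Complex.slitPlane) : ww X c x ∈ Complex.slitPlane :=
  slit_of (mul_ne_zero (yx_ne x) (h.c0 _ (yx_ne x) (yx_arg_lt hx)))
    (h.o2 _ (yx_ne x) (yx_arg_lt hx))

lemma uu_diff (h : NZ X c) : DifferentiableOn ℂ (uu X c) Complex.slitPlane := by
  have h1 := C0_diff (X := X) c yx_diff (fun x _ => yx_ne x)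
  have h2 := O0_diff (X := X) c yx_diff (fun x _ => yx_ne x)
  exact (h1.add h2).div h1 fun x hx => h.c0 _ (yx_ne x) (yx_arg_lt hx)

lemma ww_diff (h : NZ X c) : DifferentiableOn ℂ (ww X c) Complex.slitPlane := by
  have h1 := C0_diff (X := X) c yx_diff (fun x _ => yx_ne x)
  have h2 := O2_diff (X := X) c yx_diff (fun x _ => yx_ne x)
  have h3 := yx_diff.mul h1
  have h4 := (yx_diff.inv fun x _ => yx_ne x).mul h2
  exact (h3.add h4).div h3 fun x hx => mul_ne_zero (yx_ne x) (h.c0 _ (yx_ne x) (yx_arg_lt hx))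

lemma QQ_diff (h : NZ X c) : DifferentiableOn ℂ (QQ X c) Complex.slitPlane := by
  have h1 := (uu_diff h).clog fun x hx => uu_mem h hx
  have h2 := (ww_diff h).clog fun x hx => ww_mem h hx
  exact ((h2.sub h1).div_const 2).cexp

lemma QQ_mem (h : NZ X c) {x : ℂ} (hx : x ∈ Complex.slitPlane) : QQ X c x ∈ Complex.slitPlane := by
  unfold QQ
  set a := (Complex.log (ww X c x) - Complex.log (uu X c x)) / 2 with ha
  have him : a.im = ((ww X c x).arg - (uu X c x).arg) / 2 := by
    have : a = (Complex.log (ww X c x) - Complex.log (uu X c x)) / ((2 : ℝ) : ℂ) := by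
      rw [ha]; norm_num
    rw [this, Complex.div_ofReal_im, Complex.sub_im, Complex.log_im, Complex.log_im]
  have w1 := Complex.neg_pi_lt_arg (ww X c x)
  have w2 : (ww X c x).arg < Real.pi := lt_of_le_of_ne (Complex.arg_le_pi _)
    (Complex.mem_slitPlane_iff_arg.1 (ww_mem h hx)).1
  have u1 := Complex.neg_pi_lt_arg (uu X c x)
  have u2 : (uu X c x).arg < Real.pi := lt_of_le_of_ne (Complex.arg_le_pi _)
    (Complex.mem_slitPlane_iff_arg.1 (uu_mem h hx)).1
  rw [Complex.mem_slitPlane_iff_arg]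
  refine ⟨?_, Complex.exp_ne_zero _⟩
  rw [Complex.arg_exp, him, (toIocMod_eq_self Real.two_pi_pos).2]
  · intro h1; linarith
  · constructor <;> linarith

lemma QQ_sq (h : NZ X c) {x : ℂ} (hx : x ∈ Complex.slitPlane) :
    QQ X c x ^ 2 = ww X c x / uu X c x := by
  unfold QQ
  rw [← Complex.exp_nat_mul]
  have : ((2 : ℕ) : ℂ) * ((Complex.log (ww X c x) - Complex.log (uu X c x)) / 2) =
      Complex.log (ww X c x) - Complex.log (uu X c x) := by push_cast; ring
  rw [this, Complex.exp_sub, Complex.exp_log (Complex.slitPlane_ne_zero (ww_mem h hx)),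
    Complex.exp_log (Complex.slitPlane_ne_zero (uu_mem h hx))]

lemma gn_ne (h : NZ X c) (hc : lab c ∈ X.E) {x : ℂ} (hx : x ∈ Complex.slitPlane) :
    gn X (yx x) c ≠ 0 := by
  rw [gn_c hc]
  refine mul_ne_zero (pow_ne_zero _ (by norm_num)) ?_
  have := h.o0 _ (yx_ne x) (yx_arg_lt hx) 1 one_pos
  simpa using this

/-- the ratio of the generating functions -/
lemma ratio_eq (h : NZ X c) (hc : lab c ∈ X.E) {x : ℂ} (hx : x ∈ Complex.slitPlane) :
    gn X (yx x) (nxC c) / gn X (yx x) c = yx x * QQ X c x ^ 2 := by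
  rw [QQ_sq h hx, gn_c hc, gn_nxC hc (yx_ne x)]
  unfold uu ww
  have h1 := h.c0 _ (yx_ne x) (yx_arg_lt hx)
  have h2 : C0 X c (yx x) + O0 X c (yx x) ≠ 0 := by
    have := h.o0 _ (yx_ne x) (yx_arg_lt hx) 1 one_pos
    simpa using this
  have h3 := yx_ne x
  have h4 : ((1 / 2 : ℂ)) ^ X.E.card ≠ 0 := pow_ne_zero _ (by norm_num)
  rw [mul_div_mul_left _ _ h4]
  field_simp

/-! ### Positivity at `1` -/

lemma yx_one : yx 1 = 1 := by unfold yx; simp

lemma sum_at_one {S : Finset (Finset (ℤ × ℤ))} {g : Finset (ℤ × ℤ) → Finset (ℤ × ℤ)}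
    (hg : ∀ ω ∈ S, g ω ⊆ X.E) (h : ℤ × ℤ) : (∑ ω ∈ S, at' X 1 (g ω) h).im = 0 := by
  rw [Complex.im_sum]
  refine Finset.sum_eq_zero fun ω hω => ?_
  rw [at_one _ (hg ω hω), Complex.ofReal_im]

lemma C0_one_im (c : ℤ × ℤ) : (C0 X c 1).im = 0 :=
  sum_at_one (g := fun ω => ω) (fun _ hω => (mem_powerset.1 hω).trans (erase_subset _ _)) c

lemma O0_one_im (hc : lab c ∈ X.E) : (O0 X c 1).im = 0 :=
  sum_at_one (g := fun ω => insert (lab c) ω)
    (fun _ hω => insert_subset hc ((mem_powerset.1 hω).trans (erase_subset _ _))) c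

lemma O2_one_im (hc : lab c ∈ X.E) : (O2 X c 1).im = 0 :=
  sum_at_one (g := fun ω => insert (lab c) ω)
    (fun _ hω => insert_subset hc ((mem_powerset.1 hω).trans (erase_subset _ _))) (opc c)

lemma real_of_im {z : ℂ} (h : z.im = 0) : z = ((z.re : ℝ) : ℂ) := by
  apply Complex.ext
  · simp
  · simp [h]

lemma log_im_zero {z : ℂ} (hz : z ∈ Complex.slitPlane) (h : z.im = 0) : (Complex.log z).im = 0 := by
  have h1 : 0 < z.re := by
    rcases Complex.mem_slitPlane_iff.1 hz with h1 | h1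
    · exact h1
    · exact absurd h h1
  rw [Complex.log_im, real_of_im h, Complex.arg_ofReal_of_nonneg h1.le]

lemma QQ_one (h : NZ X c) (hc : lab c ∈ X.E) : 0 < (QQ X c 1).re ∧ (QQ X c 1).im = 0 := by
  have hu : (uu X c 1).im = 0 := by
    unfold uu
    rw [yx_one, real_of_im (C0_one_im (X := X) c), real_of_im (O0_one_im hc), ← Complex.ofReal_add,
      ← Complex.ofReal_div, Complex.ofReal_im]
  have hw : (ww X c 1).im = 0 := by
    unfold ww
    rw [yx_one, real_of_im (C0_one_im (X := X) c), real_of_im (O2_one_im hc), one_mul, inv_one,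
      one_mul, ← Complex.ofReal_add, ← Complex.ofReal_div, Complex.ofReal_im]
  have h1 := log_im_zero (uu_mem h Complex.one_mem_slitPlane) hu
  have h2 := log_im_zero (ww_mem h Complex.one_mem_slitPlane) hw
  unfold QQ
  rw [real_of_im h1, real_of_im h2]
  have e : (((Complex.log (ww X c 1)).re : ℂ) - ((Complex.log (uu X c 1)).re : ℂ)) / 2 =
      ((((Complex.log (ww X c 1)).re - (Complex.log (uu X c 1)).re) / 2 : ℝ) : ℂ) := by
    push_cast; ring
  rw [e, ← Complex.ofReal_exp]
  exact ⟨by rw [Complex.ofReal_re]; exact Real.exp_pos _, Complex.ofReal_im _⟩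

/-! ### Along an arc -/

theorem arc_close (h : NZ X c) (hc : lab c ∈ X.E) {T δ : ℝ} (hT : T < Real.pi) (hδ : δ < 1 / 10)
    (hr : ∀ s ∈ Set.Icc (0 : ℝ) T, ‖(gn X (yx (Complex.exp (s * Complex.I))) (nxC c) /
      gn X (yx (Complex.exp (s * Complex.I))) c) ^ 4 - 1‖ ≤ δ) :
    ∀ s ∈ Set.Icc (0 : ℝ) T,
      ‖QQ X c (Complex.exp (s * Complex.I)) - qv (Complex.exp (s * Complex.I))‖ ≤ δ := by
  have hpi := Real.pi_pos
  have hmem : ∀ s ∈ Set.Icc (0 : ℝ) T, Complex.exp (s * Complex.I) ∈ Complex.slitPlane :=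
    fun s hs => exp_I_mem (by linarith [hs.1]) (by linarith [hs.2])
  set f : ℝ → ℂ := fun s => QQ X c (Complex.exp (s * Complex.I)) /
    qv (Complex.exp (s * Complex.I)) with hf
  have hqne : ∀ x, qv x ≠ 0 := fun x => Complex.exp_ne_zero _
  have hcE : ContinuousOn (fun s : ℝ => Complex.exp (s * Complex.I)) (Set.Icc 0 T) := by
    fun_prop
  have hfc : ContinuousOn f (Set.Icc 0 T) := by
    refine ContinuousOn.div ?_ ?_ fun s _ => hqne _
    · exact (QQ_diff h).continuousOn.comp hcE hmem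
    · exact qv_diff.continuousOn.comp hcE hmem
  have hq1 : qv 1 = 1 := by unfold qv; simp
  have hf0 : f 0 = QQ X c 1 := by
    simp only [hf, Complex.ofReal_zero, zero_mul, Complex.exp_zero, hq1, div_one]
  obtain ⟨p1, p2⟩ := QQ_one h hc
  have h8 : ∀ s ∈ Set.Icc (0 : ℝ) T, ‖f s ^ 8 - 1‖ ≤ δ := by
    intro s hs
    have h1 := hr s hs
    rw [ratio_eq h hc (hmem s hs)] at h1
    set x := Complex.exp (s * Complex.I) with hx
    have e1 : yx x * qv x ^ 2 = 1 := yx_qv
    have e2 : (yx x * QQ X c x ^ 2) ^ 4 = f s ^ 8 := by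
      have e3 : yx x = 1 / qv x ^ 2 := by
        rw [eq_div_iff (pow_ne_zero _ (hqne x))]; exact e1
      rw [e3]
      simp only [hf]
      rw [← hx]
      have := hqne x
      field_simp
    rw [e2] at h1
    exact h1
  have key := eighth_arc hfc (by rw [hf0]; exact p1) (by rw [hf0]; exact p2) hδ h8
  intro s hs
  have h1 := key s hs
  simp only [hf] at h1
  set x := Complex.exp (s * Complex.I) with hx
  have hn : ‖qv x‖ = 1 := qv_norm (norm_exp_I s)
  have e : QQ X c x - qv x = qv x * (QQ X c x / qv x - 1) := by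
    have := hqne x
    field_simp
  rw [e, norm_mul, hn, one_mul]
  exact h1

end Pool.Agent.H95.ZF
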