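import Mathlib
import Pool.Agent.H95.ZF.Quo

set_option autoImplicit false
open Finset

/-! Lower bounds for the generating functions on an arc, from zero-freeness and mixing. -/

namespace Pool.Agent.H95.ZF

open Pool.Agent.H75.Perc Pool.Agent.H75.TwoArm Pool.Agent.H75.Four Pool.Agent.H69.Q1 Pool.Agent.Q1
open Pool.Agent.H99.NC Pool.Agent.H53.ZF Pool.Agent.H75.Four.FOtherAux
open Pool.Agent.ZF (at')
open Pool.Agent.H75.TwoArm.StrandAux hiding vx_nxC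

/-! ### The four corners of a vertex -/

lemma crn_succ (v : ℤ × ℤ) (i : ℕ) : crn v (i + 1) = nxC (crn v i) :=
  Function.iterate_succ_apply' _ _ _

lemma crn_zero (v : ℤ × ℤ) : crn v 0 = (2 * v.1, 2 * v.2) := rfl

lemma crn_one (v : ℤ × ℤ) : crn v 1 = (2 * v.1 + 1, 2 * v.2) := by
  rw [crn_succ, crn_zero]; unfold nxC; simp

lemma crn_two (v : ℤ × ℤ) : crn v 2 = (2 * v.1 + 1, 2 * v.2 + 1) := by
  rw [crn_succ, crn_one]; unfold nxC; simp [Int.add_emod]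

lemma crn_three (v : ℤ × ℤ) : crn v 3 = (2 * v.1, 2 * v.2 + 1) := by
  rw [crn_succ, crn_two]; unfold nxC; simp [Int.add_emod]

lemma crn_four (v : ℤ × ℤ) : crn v 4 = crn v 0 := by
  rw [crn_succ, crn_three, crn_zero]; unfold nxC; simp [Int.add_emod]

lemma crn_add (v : ℤ × ℤ) (i : ℕ) : crn v (i + 4) = crn v i := by
  induction i with
  | zero => simpa using crn_four v
  | succ i ih => rw [show i + 1 + 4 = i + 4 + 1 by ring, crn_succ, ih, ← crn_succ]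

lemma crn_cases (v : ℤ × ℤ) (i : ℕ) : crn v i = crn v 0 ∨ crn v i = crn v 1 ∨ crn v i = crn v 2 ∨
    crn v i = crn v 3 := by
  induction i using Nat.strong_induction_on with
  | _ i ih =>
    rcases Nat.lt_or_ge i 4 with h | h
    · interval_cases i <;> simp
    · obtain ⟨j, rfl⟩ : ∃ j, i = j + 4 := ⟨i - 4, by omega⟩
      rw [crn_add]; exact ih j (by omega)

lemma vx_crn (v : ℤ × ℤ) (i : ℕ) : vx (crn v i) = v := by
  induction i with
  | zero => rw [crn_zero]; unfold vx; refine Prod.ext ?_ ?_ <;> simp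
  | succ i ih => rw [crn_succ, vx_nxC, ih]

/-- every corner is one of the four corners of its vertex -/
lemma exists_crn (c : ℤ × ℤ) : ∃ i, c = crn (vx c) i ∧ ty c = i := by
  obtain ⟨a, b⟩ := c
  have e1 : vx (a, b) = (a / 2, b / 2) := rfl
  rw [e1]
  have h1 : a % 2 = 0 ∨ a % 2 = 1 := by omega
  have h2 : b % 2 = 0 ∨ b % 2 = 1 := by omega
  rcases h1 with h1 | h1 <;> rcases h2 with h2 | h2
  · refine ⟨0, ?_, by unfold ty; simp [h1, h2]⟩
    rw [crn_zero]; refine Prod.ext ?_ ?_ <;> simp only <;> omega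
  · refine ⟨3, ?_, by unfold ty; simp [h1, h2]⟩
    rw [crn_three]; refine Prod.ext ?_ ?_ <;> simp only <;> omega
  · refine ⟨1, ?_, by unfold ty; simp [h1, h2]⟩
    rw [crn_one]; refine Prod.ext ?_ ?_ <;> simp only <;> omega
  · refine ⟨2, ?_, by unfold ty; simp [h1, h2]⟩
    rw [crn_two]; refine Prod.ext ?_ ?_ <;> simp only <;> omega

/-! ### The generating function as a sum of monomials in `y ^ 4` -/

open Classical in
/-- configurations with a visit -/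
noncomputable def VS (X : Env) (h : ℤ × ℤ) : Finset (Finset (ℤ × ℤ)) :=
  X.E.powerset.filter fun ω => Vis X h ω

/-- turning index at the visit -/
noncomputable def kap (X : Env) (h : ℤ × ℤ) (ω : Finset (ℤ × ℤ)) : ℤ :=
  ∑ i ∈ range (X.len ω), if X.z ω i = h then X.K ω i else 0

variable {X : Env}

lemma kap_eq {ω : Finset (ℤ × ℤ)} (hω : ω ⊆ X.E) {i : ℕ} (hi : i < X.len ω) {h : ℤ × ℤ}
    (hz : X.z ω i = h) : kap X h ω = X.K ω i := by
  unfold kap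
  rw [Finset.sum_eq_single i]
  · rw [if_pos hz]
  · intro j hj hji
    rw [if_neg]
    intro h2
    exact hji (Env.z_inj hω (mem_range.1 hj) hi (h2.trans hz.symm))
  · intro hn; exact absurd (mem_range.2 hi) hn

lemma kap_mod {ω : Finset (ℤ × ℤ)} (hω : ω ⊆ X.E) {h : ℤ × ℤ} (hv : Vis X h ω) :
    kap X h ω % 4 = ty h := by
  obtain ⟨i, hi, hz⟩ := hv
  rw [kap_eq hω hi hz, Env.K_mod hω, hz]

lemma at_kap {ω : Finset (ℤ × ℤ)} (hω : ω ⊆ X.E) {h : ℤ × ℤ} (hv : Vis X h ω) {y : ℂ}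
    (hy : y ≠ 0) : at' X y ω h = y ^ ty h * (y ^ 4) ^ (kap X h ω / 4) := by
  have h1 := kap_mod hω hv
  obtain ⟨i, hi, hz⟩ := hv
  rw [at_of hω hi hz, ← kap_eq hω hi hz]
  have e : kap X h ω = ty h + 4 * (kap X h ω / 4) := by omega
  conv_lhs => rw [e]
  rw [zpow_add₀ hy, zpow_mul]
  norm_cast

lemma sum_at (h : ℤ × ℤ) {y : ℂ} (hy : y ≠ 0) : ∑ ω ∈ X.E.powerset, at' X y ω h =
    y ^ ty h * ∑ ω ∈ VS X h, (y ^ 4) ^ (kap X h ω / 4) := by
  classical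
  rw [mul_sum]
  unfold VS
  rw [sum_filter]
  refine sum_congr rfl fun ω hω => ?_
  by_cases hv : Vis X h ω
  · rw [if_pos hv, at_kap (mem_powerset.1 hω) hv hy]
  · rw [if_neg hv, at_zero hv]

lemma gn_norm_eq (h : ℤ × ℤ) {y : ℂ} (hy : ‖y‖ = 1) : ‖gn X y h‖ =
    (1 / 2 : ℝ) ^ X.E.card * ‖∑ ω ∈ VS X h, (y ^ 4) ^ (kap X h ω / 4)‖ := by
  have hy0 : y ≠ 0 := by
    intro h1; rw [h1, norm_zero] at hy; exact zero_ne_one hy
  unfold gn
  rw [sum_at h hy0, norm_mul, norm_mul, norm_zpow, hy, one_zpow, one_mul, norm_pow]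
  congr 2
  norm_num

lemma prP_card (h : ℤ × ℤ) : PrP (fun _ => 1 / 2) X.E (Vis X h) =
    (1 / 2 : ℝ) ^ X.E.card * (VS X h).card := by
  classical
  rw [prP_eq]
  congr 1
  unfold VS
  rw [card_filter]
  push_cast
  exact sum_congr rfl fun ω _ => by unfold ind; rfl

/-- **No fast decay on the unit circle.** -/
theorem low_bound {W : Finset (ℤ × ℤ)} (hZ : ZFE) (hX : M6c.PlaneEnv X W) {h : ℤ × ℤ}
    (hv : ∃ ω ⊆ X.E, Vis X h ω) {x x0 : ℂ} (hx : ‖x‖ = 1)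
    (hx0 : ‖x0‖ = 1) (h3 : ‖x0 - 1‖ ^ 2 = 3) (ha : ‖x - 1‖ ^ 2 ≤ 3) :
    ‖gn X (yx x0) h‖ ^ (‖x - 1‖ ^ 2 / 3) *
      PrP (fun _ => 1 / 2) X.E (Vis X h) ^ (1 - ‖x - 1‖ ^ 2 / 3) ≤ ‖gn X (yx x) h‖ := by
  have hny : ∀ z : ℂ, ‖z‖ = 1 → ‖yx z‖ = 1 ∧ yx z ^ 4 = z := by
    intro z hz
    have hz0 : z ≠ 0 := by
      intro h1; rw [h1, norm_zero] at hz; exact zero_ne_one hz
    have h1 := yx_pow hz0
    refine ⟨?_, h1⟩
    have h2 : ‖yx z‖ ^ 4 = 1 := by rw [← norm_pow, h1, hz]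
    exact (pow_eq_one_iff_of_nonneg (norm_nonneg _) (by norm_num)).1 h2
  have hz : ∀ z ∈ Complex.slitPlane, ∑ ω ∈ VS X h, z ^ (kap X h ω / 4) ≠ 0 := by
    intro z hz h1
    have hz0 := Complex.slitPlane_ne_zero hz
    have h2 := hZ X W hX h hv (fun _ => 1) (fun _ => one_pos) (yx z) (yx_ne z) (yx_arg_lt hz)
    apply h2
    unfold genT
    have h4 : ∀ ω ∈ X.E.powerset, (∏ a ∈ ω, (((fun _ => 1 : ℤ × ℤ → ℝ) a : ℝ) : ℂ)) *
        at' X (yx z) ω h = at' X (yx z) ω h := by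
      intro ω _
      simp
    rw [sum_congr rfl h4, sum_at h (yx_ne z), yx_pow hz0, h1, mul_zero]
  have key := mono_bound (VS X h) (fun ω => kap X h ω / 4) hz hx hx0 h3 ha
  rw [gn_norm_eq h (hny x hx).1, gn_norm_eq h (hny x0 hx0).1, (hny x hx).2, (hny x0 hx0).2,
    prP_card]
  set w := ‖x - 1‖ ^ 2 / 3 with hw
  have hl : (0 : ℝ) < (1 / 2 : ℝ) ^ X.E.card := by positivity
  rw [Real.mul_rpow hl.le (norm_nonneg _), Real.mul_rpow hl.le (by positivity)]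
  have e1 : ((1 / 2 : ℝ) ^ X.E.card) ^ w * ((1 / 2 : ℝ) ^ X.E.card) ^ (1 - w) =
      (1 / 2 : ℝ) ^ X.E.card := by
    rw [← Real.rpow_add hl]; simp
  calc _ = (((1 / 2 : ℝ) ^ X.E.card) ^ w * ((1 / 2 : ℝ) ^ X.E.card) ^ (1 - w)) *
        (‖∑ ω ∈ VS X h, x0 ^ (kap X h ω / 4)‖ ^ w * ((VS X h).card : ℝ) ^ (1 - w)) := by ring
    _ ≤ _ := by
      rw [e1]
      exact mul_le_mul_of_nonneg_left key hl.le

/-- probability of a visit -/
noncomputable def pv4 (X : Env) (v : ℤ × ℤ) (i : ℕ) : ℝ := PrP (fun _ => 1 / 2) X.E (Vis X (crn v i))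

lemma pb_half : Pb (fun _ : ℤ × ℤ => (1 / 2 : ℝ)) := Pb.const (by norm_num) (by norm_num)

lemma hv_eq (X : Env) (v : ℤ × ℤ) : hv X v = pv4 X v 0 + pv4 X v 1 + pv4 X v 2 + pv4 X v 3 := by
  unfold hv pv4
  rw [sum_range_succ, sum_range_succ, sum_range_succ, sum_range_one]

lemma vis_of_pos {h : ℤ × ℤ} (hp : 0 < PrP (fun _ => 1 / 2) X.E (Vis X h)) :
    ∃ ω ⊆ X.E, Vis X h ω := by
  by_contra hcon
  push Not at hcon
  rw [prP_eq] at hp
  have : ∑ ω ∈ X.E.powerset, ind (Vis X h ω) = 0 :=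
    sum_eq_zero fun ω hω => ind_false (hcon ω (mem_powerset.1 hω))
  rw [this, mul_zero] at hp
  exact lt_irrefl _ hp

/-- all four probabilities are comparable -/
theorem step_one {v : ℤ × ℤ} {t : ℝ} (ht0 : 0 ≤ t) (ht : t ≤ 1 / 100) (hh : 0 < hv X v)
    (hMX : ∀ i : ℕ, ‖gn X 1 (crn v (i + 1)) ^ 2 - gn X 1 (crn v i) * gn X 1 (crn v (i + 2))‖ ≤
      t * hv X v ^ 2) : ∀ i, hv X v / 8 ≤ pv4 X v i := by
  refine four_real (P := pv4 X v) (fun i => PrP_nonneg pb_half _ _) (fun i => ?_) hh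
    (hv_eq X v).symm ht0 ht (fun i => ?_)
  · unfold pv4; rw [crn_add]
  · have h1 := hMX i
    rw [gn_one, gn_one, gn_one] at h1
    have e : (((PrP (fun _ => 1 / 2) X.E (Vis X (crn v (i + 1))) : ℝ) : ℂ) ^ 2 -
        ((PrP (fun _ => 1 / 2) X.E (Vis X (crn v i)) : ℝ) : ℂ) *
        ((PrP (fun _ => 1 / 2) X.E (Vis X (crn v (i + 2))) : ℝ) : ℂ)) =
        ((pv4 X v (i + 1) ^ 2 - pv4 X v i * pv4 X v (i + 2) : ℝ) : ℂ) := by
      unfold pv4; push_cast; rfl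
    rw [e, Complex.norm_real, Real.norm_eq_abs] at h1
    exact (le_abs_self _).trans h1

/-- lower bound on the arc and ratios -/
theorem step_two {W : Finset (ℤ × ℤ)} (hZ : ZFE) (hX : M6c.PlaneEnv X W) {v : ℤ × ℤ}
    {r w0 s : ℝ} (hs0 : 0 < s) (hs : 2 ^ 30 * s ^ 8 ≤ 1 / 1000) (hr0 : 0 < r) (hr1 : r ≤ 1)
    (hrs : s ≤ r ^ w0) (hh : 0 < hv X v)
    (hMX : ∀ y : ℂ, ‖y‖ = 1 → ∀ i : ℕ,
      ‖gn X y (crn v (i + 1)) ^ 2 - gn X y (crn v i) * gn X y (crn v (i + 2))‖ ≤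
      s ^ 16 * hv X v ^ 2) {x x0 : ℂ} (hx : ‖x‖ = 1)
    (hx0 : ‖x0‖ = 1) (h3 : ‖x0 - 1‖ ^ 2 = 3) (ha : ‖x - 1‖ ^ 2 / 3 ≤ w0) (hw0 : w0 ≤ 1)
    {m : ℕ} (hm : r ≤ ‖gn X (yx x0) (crn v m)‖) (i : ℕ) :
    ‖(gn X (yx x) (crn v (i + 1)) / gn X (yx x) (crn v i)) ^ 4 - 1‖ ≤ 10 * (2 ^ 30 * s ^ 8) := by
  -- sizes
  have hs8 : s ^ 8 ≤ 1 / 1000 / 2 ^ 30 := by
    rw [le_div_iff₀ (by positivity)]; linarith
  have hs1 : s ≤ 1 := by
    by_contra hcon
    push Not at hcon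
    have : 1 ≤ s ^ 8 := one_le_pow₀ hcon.le
    norm_num at hs8
    linarith
  have hs12 : s ^ 12 ≤ 1 / 2 ^ 15 / 8 := by
    have h1 : s ^ 12 ≤ s ^ 8 := pow_le_pow_of_le_one hs0.le hs1 (by norm_num)
    have h2 : (1 : ℝ) / 1000 / 2 ^ 30 ≤ 1 / 2 ^ 15 / 8 := by norm_num
    linarith
  have hs16 : s ^ 16 ≤ 1 / 100 := by
    have h1 : s ^ 16 ≤ s ^ 8 := pow_le_pow_of_le_one hs0.le hs1 (by norm_num)
    have h2 : (1 : ℝ) / 1000 / 2 ^ 30 ≤ 1 / 100 := by norm_num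
    linarith
  have hP := step_one (X := X) (v := v) (t := s ^ 16) (by positivity) hs16 hh
    (fun i => hMX 1 (by simp) i)
  have hPm := hP m
  have hPpos : 0 < pv4 X v m := by linarith
  have hP1 : pv4 X v m ≤ 1 := PrP_le_one pb_half _ _
  -- the norm of the fourth root
  have hyn : ‖yx x‖ = 1 := by
    have hx0' : x ≠ 0 := by
      intro h1; rw [h1, norm_zero] at hx; exact zero_ne_one hx
    have h2 : ‖yx x‖ ^ 4 = 1 := by rw [← norm_pow, yx_pow hx0', hx]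
    exact (pow_eq_one_iff_of_nonneg (norm_nonneg _) (by norm_num)).1 h2
  set w := ‖x - 1‖ ^ 2 / 3 with hw
  have hw_nn : 0 ≤ w := by positivity
  have ha3 : ‖x - 1‖ ^ 2 ≤ 3 := by
    have : w ≤ 1 := ha.trans hw0
    rw [hw] at this
    linarith
  have hlow := low_bound hZ hX (vis_of_pos hPpos) hx hx0 h3 ha3
  rw [← hw] at hlow
  -- the lower bound at `m`
  have hG : s * pv4 X v m ≤ ‖gn X (yx x) (crn v m)‖ := by
    refine le_trans ?_ hlow
    change s * pv4 X v m ≤ _ * pv4 X v m ^ (1 - w)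
    have k1 : r ^ w ≤ ‖gn X (yx x0) (crn v m)‖ ^ w := Real.rpow_le_rpow hr0.le hm hw_nn
    have k2 : s ≤ r ^ w := hrs.trans (Real.rpow_le_rpow_of_exponent_ge hr0 hr1 ha)
    have k3 : pv4 X v m ≤ pv4 X v m ^ (1 - w) := by
      calc pv4 X v m = pv4 X v m ^ (1 : ℝ) := (Real.rpow_one _).symm
        _ ≤ _ := Real.rpow_le_rpow_of_exponent_ge hPpos hP1 (by linarith)
    exact mul_le_mul (k2.trans k1) k3 hPpos.le (Real.rpow_nonneg (norm_nonneg _) _)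
  set h := hv X v with hhdef
  have hκ : (s / 8) * h ≤ ‖gn X (yx x) (crn v m)‖ := by nlinarith
  have hper : ∀ j, gn X (yx x) (crn v (j + 4)) = gn X (yx x) (crn v j) := fun j => by rw [crn_add]
  have hup : ∀ j, ‖gn X (yx x) (crn v j)‖ ≤ h := by
    intro j
    refine (gn_norm _ hyn).trans ?_
    have hnn : ∀ k, 0 ≤ pv4 X v k := fun k => PrP_nonneg pb_half _ _
    rw [hhdef, hv_eq]
    change PrP (fun _ => 1 / 2) X.E (Vis X (crn v j)) ≤ _
    rcases crn_cases v j with h1 | h1 | h1 | h1 <;> rw [h1]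
    · change pv4 X v 0 ≤ _; linarith [hnn 1, hnn 2, hnn 3]
    · change pv4 X v 1 ≤ _; linarith [hnn 0, hnn 2, hnn 3]
    · change pv4 X v 2 ≤ _; linarith [hnn 1, hnn 0, hnn 3]
    · change pv4 X v 3 ≤ _; linarith [hnn 1, hnn 2, hnn 0]
  have hall := four_cplx (G := fun j => gn X (yx x) (crn v j)) (h := h) (t := s ^ 16) (κ := s / 8)
    hper hh hup (by positivity) (by linarith) (hMX (yx x) hyn) (m := m) hκ (by
      have e : (s / 8) ^ 4 / 8 = s ^ 4 * (1 / 2 ^ 15) := by ring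
      rw [e]
      have e2 : s ^ 16 = s ^ 4 * s ^ 12 := by ring
      rw [e2]
      refine mul_le_mul_of_nonneg_left ?_ (by positivity)
      have : (1 : ℝ) / 2 ^ 15 / 8 ≤ 1 / 2 ^ 15 := by norm_num
      linarith)
  have hκ' : 0 < (s / 8) ^ 4 / 8 := by positivity
  have e3 : s ^ 16 / ((s / 8) ^ 4 / 8) ^ 2 = 2 ^ 30 * s ^ 8 := by
    have : s ≠ 0 := hs0.ne'
    field_simp
    norm_num
  have key := four_ratio (G := fun j => gn X (yx x) (crn v j)) (h := h) (t := s ^ 16)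
    (κ := (s / 8) ^ 4 / 8) hper hh hκ' (hMX (yx x) hyn) hall (by rw [e3]; linarith) i
  rw [e3] at key
  exact key

end Pool.Agent.H95.ZF
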