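import Mathlib
import Pool.Agent.H99.ZF.ClDef
import Pool.Agent.H53.ZF.Gate

set_option autoImplicit false
open Finset

/-! # The boundary walk of a box

`nx (BB R)` moves by one unit counterclockwise along the boundary of `[-2R, 2R+1]²` (corners). Close tips
are joined by a short walk. -/

namespace Pool.Agent.H95.ZF

open Pool.Agent.H75.Perc Pool.Agent.H75.TwoArm Pool.Agent.H53.ZF Pool.Agent.H99.ZF

lemma step_r {R y : ℤ} (h1 : -(2 * R) ≤ y) (h2 : y ≤ 2 * R) (hR : 0 ≤ R) :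
    nx (BB R) (2 * R + 1, y) = (2 * R + 1, y + 1) := by
  rcases step_cases (BB R) (2 * R + 1) y with ⟨h3, h4⟩ | ⟨h3, h4⟩ <;> rw [h4] <;>
  unfold H75.TwoArm.BB at h3 <;> rw [mem_Bx] at h3 <;>
  rcases ty_cases (2 * R + 1, y) with ⟨-, g1, g2, g3, g4, g5⟩ | ⟨-, g1, g2, g3, g4, g5⟩ |
      ⟨-, g1, g2, g3, g4, g5⟩ | ⟨-, g1, g2, g3, g4, g5⟩ <;>
  simp only at g1 g2 g3 g4 g5 <;> rw [g3] at h3 <;> simp only at h3 <;>
  first
  | (exfalso; omega)
  | (rw [g4])
  | (rw [g5])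

lemma step_t {R x : ℤ} (h1 : -(2 * R) < x) (h2 : x ≤ 2 * R + 1) (hR : 0 ≤ R) :
    nx (BB R) (x, 2 * R + 1) = (x - 1, 2 * R + 1) := by
  rcases step_cases (BB R) x (2 * R + 1) with ⟨h3, h4⟩ | ⟨h3, h4⟩ <;> rw [h4] <;>
  unfold H75.TwoArm.BB at h3 <;> rw [mem_Bx] at h3 <;>
  rcases ty_cases (x, 2 * R + 1) with ⟨-, g1, g2, g3, g4, g5⟩ | ⟨-, g1, g2, g3, g4, g5⟩ |
      ⟨-, g1, g2, g3, g4, g5⟩ | ⟨-, g1, g2, g3, g4, g5⟩ <;>
  simp only at g1 g2 g3 g4 g5 <;> rw [g3] at h3 <;> simp only at h3 <;>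
  first
  | (exfalso; omega)
  | (rw [g4])
  | (rw [g5])

lemma step_l {R y : ℤ} (h1 : -(2 * R) < y) (h2 : y ≤ 2 * R + 1) (hR : 0 ≤ R) :
    nx (BB R) (-(2 * R), y) = (-(2 * R), y - 1) := by
  rcases step_cases (BB R) (-(2 * R)) y with ⟨h3, h4⟩ | ⟨h3, h4⟩ <;> rw [h4] <;>
  unfold H75.TwoArm.BB at h3 <;> rw [mem_Bx] at h3 <;>
  rcases ty_cases (-(2 * R), y) with ⟨-, g1, g2, g3, g4, g5⟩ | ⟨-, g1, g2, g3, g4, g5⟩ |
      ⟨-, g1, g2, g3, g4, g5⟩ | ⟨-, g1, g2, g3, g4, g5⟩ <;>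
  simp only at g1 g2 g3 g4 g5 <;> rw [g3] at h3 <;> simp only at h3 <;>
  first
  | (exfalso; omega)
  | (rw [g4])
  | (rw [g5])

lemma step_b {R x : ℤ} (h1 : -(2 * R) ≤ x) (h2 : x ≤ 2 * R) (hR : 0 ≤ R) :
    nx (BB R) (x, -(2 * R)) = (x + 1, -(2 * R)) := by
  rcases step_cases (BB R) x (-(2 * R)) with ⟨h3, h4⟩ | ⟨h3, h4⟩ <;> rw [h4] <;>
  unfold H75.TwoArm.BB at h3 <;> rw [mem_Bx] at h3 <;>
  rcases ty_cases (x, -(2 * R)) with ⟨-, g1, g2, g3, g4, g5⟩ | ⟨-, g1, g2, g3, g4, g5⟩ |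
      ⟨-, g1, g2, g3, g4, g5⟩ | ⟨-, g1, g2, g3, g4, g5⟩ <;>
  simp only at g1 g2 g3 g4 g5 <;> rw [g3] at h3 <;> simp only at h3 <;>
  first
  | (exfalso; omega)
  | (rw [g4])
  | (rw [g5])

/-- a walk along one side: `n` steps in the direction `d` -/
lemma walk_line {R D : ℤ} {x p d : ℤ × ℤ} (n : ℕ)
    (hs : ∀ i < n, nx (BB R) (p + (i : ℤ) • d) = p + (i : ℤ) • d + d)
    (hD : ∀ i ≤ n, |(vx (p + (i : ℤ) • d)).1 - x.1| ≤ D ∧ |(vx (p + (i : ℤ) • d)).2 - x.2| ≤ D) :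
    Walk R D x p (p + (n : ℤ) • d) := by
  have key : ∀ i ≤ n, (nx (BB R))^[i] p = p + (i : ℤ) • d := by
    intro i
    induction i with
    | zero => intro _; simp
    | succ i ih =>
      intro hi
      rw [Function.iterate_succ_apply', ih (by omega), hs i (by omega)]
      push_cast
      rw [add_smul, one_smul, add_assoc]
  exact ⟨n, key n le_rfl, fun i hi => by rw [key i hi]; exact hD i hi⟩

lemma Walk.trans' {R D : ℤ} {x p q s : ℤ × ℤ} (h : Walk R D x p q) (h' : Walk R D x q s) :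
    Walk R D x p s := by
  obtain ⟨n, h1, h2⟩ := h
  obtain ⟨m, h3, h4⟩ := h'
  refine ⟨m + n, by rw [Function.iterate_add_apply, h1, h3], fun i hi => ?_⟩
  rcases Nat.lt_or_ge n i with h5 | h5
  · have h6 := h4 (i - n) (by omega)
    rw [← h1, ← Function.iterate_add_apply, show i - n + n = i by omega] at h6
    exact h6
  · exact h2 i h5

section

variable {R D : ℤ} {x : ℤ × ℤ}

lemma walk_r (hR : 0 ≤ R) {y y' : ℤ} (h1 : -(2 * R) ≤ y) (h2 : y ≤ y') (h3 : y' ≤ 2 * R + 1)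
    (hx : |R - x.1| ≤ D) (hy : |y / 2 - x.2| ≤ D) (hy' : |y' / 2 - x.2| ≤ D) :
    Walk R D x (2 * R + 1, y) (2 * R + 1, y') := by
  obtain ⟨n, rfl⟩ : ∃ n : ℕ, y' = y + n := ⟨(y' - y).toNat, by omega⟩
  have e : ∀ i : ℕ, ((2 * R + 1, y) : ℤ × ℤ) + (i : ℤ) • ((0, 1) : ℤ × ℤ) = (2 * R + 1, y + i) := by
    intro i
    refine Prod.ext ?_ ?_ <;> simp
  have h := walk_line (R := R) (D := D) (x := x) (p := (2 * R + 1, y)) (d := (0, 1)) n ?_ ?_
  · rw [e] at h; exact h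
  · intro i hi
    rw [e, step_r (by omega) (by omega) hR]
    refine Prod.ext ?_ ?_ <;> simp
  · intro i hi
    rw [e]
    unfold vx
    simp only
    rw [abs_le] at hx hy hy' ⊢
    rw [abs_le]
    omega

lemma walk_t (hR : 0 ≤ R) {y y' : ℤ} (h1 : -(2 * R) ≤ y') (h2 : y' ≤ y) (h3 : y ≤ 2 * R + 1)
    (hx : |R - x.2| ≤ D) (hy : |y / 2 - x.1| ≤ D) (hy' : |y' / 2 - x.1| ≤ D) :
    Walk R D x (y, 2 * R + 1) (y', 2 * R + 1) := by
  obtain ⟨n, rfl⟩ : ∃ n : ℕ, y' = y - n := ⟨(y - y').toNat, by omega⟩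
  have e : ∀ i : ℕ, ((y, 2 * R + 1) : ℤ × ℤ) + (i : ℤ) • ((-1, 0) : ℤ × ℤ) = (y - i, 2 * R + 1) := by
    intro i
    refine Prod.ext ?_ ?_ <;> simp [sub_eq_add_neg]
  have h := walk_line (R := R) (D := D) (x := x) (p := (y, 2 * R + 1)) (d := (-1, 0)) n ?_ ?_
  · rw [e] at h; exact h
  · intro i hi
    rw [e, step_t (by omega) (by omega) hR]
    refine Prod.ext ?_ ?_ <;> simp [sub_eq_add_neg]
  · intro i hi
    rw [e]
    unfold vx
    simp only
    rw [abs_le] at hx hy hy' ⊢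
    rw [abs_le]
    omega

lemma walk_l (hR : 0 ≤ R) {y y' : ℤ} (h1 : -(2 * R) ≤ y') (h2 : y' ≤ y) (h3 : y ≤ 2 * R + 1)
    (hx : |-R - x.1| ≤ D) (hy : |y / 2 - x.2| ≤ D) (hy' : |y' / 2 - x.2| ≤ D) :
    Walk R D x (-(2 * R), y) (-(2 * R), y') := by
  obtain ⟨n, rfl⟩ : ∃ n : ℕ, y' = y - n := ⟨(y - y').toNat, by omega⟩
  have e : ∀ i : ℕ, ((-(2 * R), y) : ℤ × ℤ) + (i : ℤ) • ((0, -1) : ℤ × ℤ) = (-(2 * R), y - i) := by
    intro i
    refine Prod.ext ?_ ?_ <;> simp [sub_eq_add_neg]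
  have h := walk_line (R := R) (D := D) (x := x) (p := (-(2 * R), y)) (d := (0, -1)) n ?_ ?_
  · rw [e] at h; exact h
  · intro i hi
    rw [e, step_l (by omega) (by omega) hR]
    refine Prod.ext ?_ ?_ <;> simp [sub_eq_add_neg]
  · intro i hi
    rw [e]
    unfold vx
    simp only
    rw [abs_le] at hx hy hy' ⊢
    rw [abs_le]
    omega

lemma walk_b (hR : 0 ≤ R) {y y' : ℤ} (h1 : -(2 * R) ≤ y) (h2 : y ≤ y') (h3 : y' ≤ 2 * R + 1)
    (hx : |-R - x.2| ≤ D) (hy : |y / 2 - x.1| ≤ D) (hy' : |y' / 2 - x.1| ≤ D) :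
    Walk R D x (y, -(2 * R)) (y', -(2 * R)) := by
  obtain ⟨n, rfl⟩ : ∃ n : ℕ, y' = y + n := ⟨(y' - y).toNat, by omega⟩
  have e : ∀ i : ℕ, ((y, -(2 * R)) : ℤ × ℤ) + (i : ℤ) • ((1, 0) : ℤ × ℤ) = (y + i, -(2 * R)) := by
    intro i
    refine Prod.ext ?_ ?_ <;> simp
  have h := walk_line (R := R) (D := D) (x := x) (p := (y, -(2 * R))) (d := (1, 0)) n ?_ ?_
  · rw [e] at h; exact h
  · intro i hi
    rw [e, step_b (by omega) (by omega) hR]
    refine Prod.ext ?_ ?_ <;> simp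
  · intro i hi
    rw [e]
    unfold vx
    simp only
    rw [abs_le] at hx hy hy' ⊢
    rw [abs_le]
    omega

end

/-- the forward tips -/
lemma tf_cases {R : ℤ} {a : ℤ × ℤ} (h : TF R a) :
    (∃ y, -R ≤ y ∧ y < R ∧ a = (2 * R + 1, 2 * y + 1)) ∨
    (∃ x, -R < x ∧ x ≤ R ∧ a = (2 * x, 2 * R + 1)) ∨
    (∃ y, -R < y ∧ y ≤ R ∧ a = (-(2 * R), 2 * y)) ∨
    (∃ x, -R ≤ x ∧ x < R ∧ a = (2 * x + 1, -(2 * R))) := by
  obtain ⟨h1, h2⟩ := h
  obtain ⟨p, q⟩ := a
  unfold H75.TwoArm.BB at h1 h2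
  rw [mem_Bx] at h1 h2
  unfold plab at h2
  unfold lab at h1
  simp only at h1 h2
  simp only [Prod.mk.injEq]
  by_cases hq : q % 2 = 0 <;> by_cases hp : p % 2 = 0
  · simp only [hq, hp, if_true] at h1 h2
    right; right; left
    exact ⟨q / 2, by omega, by omega, by omega, by omega⟩
  · simp only [hq, hp, if_true, if_false] at h1 h2
    right; right; right
    exact ⟨p / 2, by omega, by omega, by omega, by omega⟩
  · simp only [hq, hp, if_true, if_false] at h1 h2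
    right; left
    exact ⟨p / 2, by omega, by omega, by omega, by omega⟩
  · simp only [hq, hp, if_false] at h1 h2
    left
    exact ⟨q / 2, by omega, by omega, by omega, by omega⟩

/-- the backward tips -/
lemma tb_cases {R : ℤ} {b : ℤ × ℤ} (h : TB R b) :
    (∃ y, -R < y ∧ y ≤ R ∧ b = (2 * R + 1, 2 * y)) ∨
    (∃ x, -R ≤ x ∧ x < R ∧ b = (2 * x + 1, 2 * R + 1)) ∨
    (∃ y, -R ≤ y ∧ y < R ∧ b = (-(2 * R), 2 * y + 1)) ∨
    (∃ x, -R < x ∧ x ≤ R ∧ b = (2 * x, -(2 * R))) := by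
  obtain ⟨h1, h2⟩ := h
  obtain ⟨p, q⟩ := b
  unfold H75.TwoArm.BB at h1 h2
  rw [mem_Bx] at h1 h2
  unfold plab at h1
  unfold lab at h2
  simp only at h1 h2
  simp only [Prod.mk.injEq]
  by_cases hq : q % 2 = 0 <;> by_cases hp : p % 2 = 0
  · simp only [hq, hp, if_true] at h1 h2
    right; right; right
    exact ⟨p / 2, by omega, by omega, by omega, by omega⟩
  · simp only [hq, hp, if_true, if_false] at h1 h2
    left
    exact ⟨q / 2, by omega, by omega, by omega, by omega⟩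
  · simp only [hq, hp, if_true, if_false] at h1 h2
    right; right; left
    exact ⟨q / 2, by omega, by omega, by omega, by omega⟩
  · simp only [hq, hp, if_false] at h1 h2
    right; left
    exact ⟨p / 2, by omega, by omega, by omega, by omega⟩

/-- **Piece A.** -/
theorem pa : PA := by
  intro R D a b hR hDR ha hb h1 h2
  have hR0 : 0 ≤ R := by omega
  rcases tf_cases ha with ⟨y, a1, a2, rfl⟩ | ⟨y, a1, a2, rfl⟩ | ⟨y, a1, a2, rfl⟩ | ⟨y, a1, a2, rfl⟩ <;>
  rcases tb_cases hb with ⟨z, b1, b2, rfl⟩ | ⟨z, b1, b2, rfl⟩ | ⟨z, b1, b2, rfl⟩ | ⟨z, b1, b2, rfl⟩ <;>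
  unfold vx at h1 h2 <;> simp only at h1 h2 <;> rw [abs_le] at h1 h2
  · -- right, right
    rcases lt_or_ge y z with h | h
    · left
      refine walk_r hR0 (by omega) (by omega) (by omega) ?_ ?_ ?_ <;> unfold vx <;>
        simp only <;> rw [abs_le] <;> omega
    · right
      refine walk_r hR0 (by omega) (by omega) (by omega) ?_ ?_ ?_ <;> unfold vx <;>
        simp only <;> rw [abs_le] <;> omega
  · -- right, top
    left
    refine Walk.trans' (q := (2 * R + 1, 2 * R + 1)) (walk_r hR0 (by omega) (by omega) (by omega)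
      ?_ ?_ ?_) (walk_t hR0 (by omega) (by omega) (by omega) ?_ ?_ ?_) <;> unfold vx <;>
      simp only <;> rw [abs_le] <;> omega
  · -- right, left
    exfalso; omega
  · -- right, bottom
    right
    refine Walk.trans' (q := (2 * R + 1, -(2 * R))) (walk_b hR0 (by omega) (by omega) (by omega)
      ?_ ?_ ?_) (walk_r hR0 (by omega) (by omega) (by omega) ?_ ?_ ?_) <;> unfold vx <;>
      simp only <;> rw [abs_le] <;> omega
  · -- top, right
    right
    refine Walk.trans' (q := (2 * R + 1, 2 * R + 1)) (walk_r hR0 (by omega) (by omega) (by omega)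
      ?_ ?_ ?_) (walk_t hR0 (by omega) (by omega) (by omega) ?_ ?_ ?_) <;> unfold vx <;>
      simp only <;> rw [abs_le] <;> omega
  · -- top, top
    rcases lt_or_ge z y with h | h
    · left
      refine walk_t hR0 (by omega) (by omega) (by omega) ?_ ?_ ?_ <;> unfold vx <;>
        simp only <;> rw [abs_le] <;> omega
    · right
      refine walk_t hR0 (by omega) (by omega) (by omega) ?_ ?_ ?_ <;> unfold vx <;>
        simp only <;> rw [abs_le] <;> omega
  · -- top, left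
    left
    refine Walk.trans' (q := (-(2 * R), 2 * R + 1)) (walk_t hR0 (by omega) (by omega) (by omega)
      ?_ ?_ ?_) (walk_l hR0 (by omega) (by omega) (by omega) ?_ ?_ ?_) <;> unfold vx <;>
      simp only <;> rw [abs_le] <;> omega
  · -- top, bottom
    exfalso; omega
  · -- left, right
    exfalso; omega
  · -- left, top
    right
    refine Walk.trans' (q := (-(2 * R), 2 * R + 1)) (walk_t hR0 (by omega) (by omega) (by omega)
      ?_ ?_ ?_) (walk_l hR0 (by omega) (by omega) (by omega) ?_ ?_ ?_) <;> unfold vx <;>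
      simp only <;> rw [abs_le] <;> omega
  · -- left, left
    rcases lt_or_ge z y with h | h
    · left
      refine walk_l hR0 (by omega) (by omega) (by omega) ?_ ?_ ?_ <;> unfold vx <;>
        simp only <;> rw [abs_le] <;> omega
    · right
      refine walk_l hR0 (by omega) (by omega) (by omega) ?_ ?_ ?_ <;> unfold vx <;>
        simp only <;> rw [abs_le] <;> omega
  · -- left, bottom
    left
    refine Walk.trans' (q := (-(2 * R), -(2 * R))) (walk_l hR0 (by omega) (by omega) (by omega)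
      ?_ ?_ ?_) (walk_b hR0 (by omega) (by omega) (by omega) ?_ ?_ ?_) <;> unfold vx <;>
      simp only <;> rw [abs_le] <;> omega
  · -- bottom, right
    left
    refine Walk.trans' (q := (2 * R + 1, -(2 * R))) (walk_b hR0 (by omega) (by omega) (by omega)
      ?_ ?_ ?_) (walk_r hR0 (by omega) (by omega) (by omega) ?_ ?_ ?_) <;> unfold vx <;>
      simp only <;> rw [abs_le] <;> omega
  · -- bottom, top
    exfalso; omega
  · -- bottom, left
    right
    refine Walk.trans' (q := (-(2 * R), -(2 * R))) (walk_l hR0 (by omega) (by omega) (by omega)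
      ?_ ?_ ?_) (walk_b hR0 (by omega) (by omega) (by omega) ?_ ?_ ?_) <;> unfold vx <;>
      simp only <;> rw [abs_le] <;> omega
  · -- bottom, bottom
    rcases lt_or_ge y z with h | h
    · left
      refine walk_b hR0 (by omega) (by omega) (by omega) ?_ ?_ ?_ <;> unfold vx <;>
        simp only <;> rw [abs_le] <;> omega
    · right
      refine walk_b hR0 (by omega) (by omega) (by omega) ?_ ?_ ?_ <;> unfold vx <;>
        simp only <;> rw [abs_le] <;> omega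

end Pool.Agent.H95.ZF
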