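import Mathlib
import Pool.Agent.H95.ZF.Low

set_option autoImplicit false
open Finset Filter Topology

/-! # (c1): zero-freeness and mixing imply the relative form of `N1` -/

namespace Pool.Agent.H95.ZF

open Pool.Agent.H75.Perc Pool.Agent.H75.TwoArm Pool.Agent.H75.Four Pool.Agent.H69.Q1 Pool.Agent.Q1
open Pool.Agent.H99.NC Pool.Agent.H53.ZF Pool.Agent.H75.Four.FOtherAux
open Pool.Agent.ZF (at')
open Pool.Agent.Q1.M6c (PlaneEnv PlaneK)
open Pool.Agent.H75.TwoArm.StrandAux hiding vx_nxC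

/-- the point of the parafermion -/
noncomputable def xp : ℂ := Complex.exp (((-(2 * Real.pi / 3) : ℝ) : ℂ) * Complex.I)

/-- its fourth root -/
noncomputable def yp : ℂ := Complex.exp (((-(Real.pi / 6) : ℝ) : ℂ) * Complex.I)

lemma xp_mem : xp ∈ Complex.slitPlane := by
  have := Real.pi_pos
  exact exp_I_mem (by linarith) (by linarith)

lemma xp_norm : ‖xp‖ = 1 := norm_exp_I _

lemma yp_norm : ‖yp‖ = 1 := norm_exp_I _

lemma yx_xp : yx xp = yp := by
  have := Real.pi_pos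
  unfold xp yp
  rw [yx_exp_I (by linarith) (by linarith)]
  congr 3
  ring

lemma xp_three : ‖xp - 1‖ ^ 2 = 3 := by
  rw [← Complex.normSq_eq_norm_sq, Complex.normSq_apply]
  have hre : xp.re = -1 / 2 := by
    unfold xp
    rw [Complex.exp_ofReal_mul_I_re, Real.cos_neg,
      show 2 * Real.pi / 3 = Real.pi - Real.pi / 3 by ring, Real.cos_pi_sub, Real.cos_pi_div_three]
    norm_num
  have him : xp.im = -(Real.sqrt 3 / 2) := by
    unfold xp
    rw [Complex.exp_ofReal_mul_I_im, Real.sin_neg,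
      show 2 * Real.pi / 3 = Real.pi - Real.pi / 3 by ring, Real.sin_pi_sub, Real.sin_pi_div_three]
  simp only [Complex.sub_re, Complex.sub_im, Complex.one_re, Complex.one_im, hre, him]
  have h3 : Real.sqrt 3 * Real.sqrt 3 = 3 := Real.mul_self_sqrt (by norm_num)
  nlinarith

lemma w6_eq : w6 = Complex.I * yp := by
  rw [w6_exp]
  unfold yp
  have h1 : Complex.exp (((Real.pi / 2 : ℝ) : ℂ) * Complex.I) = Complex.I := by
    rw [Complex.exp_mul_I, ← Complex.ofReal_cos, ← Complex.ofReal_sin, Real.cos_pi_div_two,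
      Real.sin_pi_div_two]
    simp
  have h2 : Complex.exp (((Real.pi / 3 : ℝ) : ℂ) * Complex.I) =
      Complex.exp (((Real.pi / 2 : ℝ) : ℂ) * Complex.I) *
      Complex.exp (((-(Real.pi / 6) : ℝ) : ℂ) * Complex.I) := by
    rw [← Complex.exp_add]
    congr 1
    push_cast; ring
  rw [h2, h1]

lemma yp_ne : yp ≠ 0 := Complex.exp_ne_zero _

lemma I_zpow_mod {k : ℤ} {j : ℕ} (h : k % 4 = j) : Complex.I ^ k = Complex.I ^ j := by
  have e : k = (j : ℤ) + 4 * (k / 4) := by omega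
  rw [e, zpow_add₀ Complex.I_ne_zero, zpow_mul, zpow_natCast]
  have : Complex.I ^ (4 : ℤ) = 1 := by
    have h4 : (4 : ℤ) = ((4 : ℕ) : ℤ) := rfl
    rw [h4, zpow_natCast, Complex.I_pow_four]
  rw [this, one_zpow, mul_one]

/-- the increments of the parafermion are values of the generating functions -/
theorem inc_gn {X : Env} {c : ℤ × ℤ} {j : ℕ} (hj : ty c = j) :
    X.inc c = Complex.I ^ j * gn X yp c := by
  unfold Env.inc gn
  rw [mul_left_comm, mul_sum (X.E.powerset) (fun ω => at' X yp ω c) (Complex.I ^ j)]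
  congr 1
  refine sum_congr rfl fun ω hω => ?_
  have hω' := mem_powerset.1 hω
  by_cases hv : Vis X c ω
  · obtain ⟨i, hi, hz⟩ := hv
    rw [Env.incO_of hω' hi hz, at_of hω' hi hz]
    have hK : X.K ω i % 4 = j := by rw [Env.K_mod hω', hz, hj]
    unfold Pool.Agent.Q1.ph
    rw [w6_eq, mul_zpow, I_zpow_mod hK]
  · rw [at_zero hv, mul_zero]
    apply Env.incO_zero
    intro i hi hz
    exact hv ⟨i, hi, hz⟩

/-- the difference of the increments at two consecutive corners -/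
lemma inc_sub {X : Env} (c : ℤ × ℤ) : ∃ i, c = crn (vx c) i ∧
    ‖X.inc (nxC c) - Complex.I * X.inc c‖ =
      ‖gn X yp (crn (vx c) (i + 1)) - gn X yp (crn (vx c) i)‖ ∧
    ‖X.inc c‖ = ‖gn X yp (crn (vx c) i)‖ := by
  obtain ⟨i, hi, hty⟩ := exists_crn c
  obtain ⟨j, hj, hty2⟩ := exists_crn (nxC c)
  have hnx : nxC c = crn (vx c) (i + 1) := by rw [crn_succ, ← hi]
  have h1 := inc_gn (X := X) hty
  have h2 := inc_gn (X := X) hty2
  have hIj : Complex.I ^ j = Complex.I ^ (i + 1) := by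
    have h3 : ty (nxC c) = (ty c + 1) % 4 := by
      have h4 := ty_nx ∅ c (ty c) (by rcases ty_cases c with h | h | h | h <;> rw [h.1] <;> rfl)
      unfold nx del at h4
      simp only [notMem_empty, if_false] at h4
      exact h4.symm
    rw [hty, hty2] at h3
    have h5 : ((j : ℤ)) % 4 = ((j : ℕ) : ℤ) := by omega
    have h6 : (((i + 1 : ℕ) : ℤ)) % 4 = ((j : ℕ) : ℤ) := by push_cast; omega
    rw [← I_zpow_mod h6, zpow_natCast]
  have hn : ∀ k : ℕ, ‖Complex.I ^ k‖ = 1 := fun k => by rw [norm_pow, Complex.norm_I, one_pow]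
  refine ⟨i, hi, ?_, ?_⟩
  · rw [h1, h2, hIj, hnx]
    have e : Complex.I ^ (i + 1) * gn X yp (crn (vx c) (i + 1)) - Complex.I *
        (Complex.I ^ i * gn X yp c) = Complex.I ^ (i + 1) *
        (gn X yp (crn (vx c) (i + 1)) - gn X yp c) := by ring
    rw [e, norm_mul, hn, one_mul, ← hi]
  · rw [h1, norm_mul, hn, one_mul, ← hi]

/-- the pairs (environment, corner) which are not trivial at scale `R` -/
def Idx (R : ℕ) : Type := {a : Env × (ℤ × ℤ) // PlaneK a.1 ∧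
  Pool.Agent.H47.NC.Bq (vx a.2) R ⊆ a.1.E ∧ (R : ℝ)⁻¹ ^ 10 ≤ hv a.1 (vx a.2) ∧
  ∃ m, (R : ℝ)⁻¹ ^ 10 ≤ ‖gn a.1 yp (crn (vx a.2) m)‖}

/-- the small parameter -/
noncomputable def sm (η : ℝ) (R : ℕ) : ℝ := (R : ℝ) ^ (-(η / 16))

lemma sm_tendsto {η : ℝ} (hη : 0 < η) : Tendsto (sm η) atTop (𝓝 0) := by
  unfold sm
  exact (tendsto_rpow_neg_atTop (by positivity)).comp tendsto_natCast_atTop_atTop

lemma sm_pow {η : ℝ} {R : ℕ} : sm η R ^ 16 = (R : ℝ) ^ (-η) := by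
  unfold sm
  rw [← Real.rpow_natCast, ← Real.rpow_mul (Nat.cast_nonneg R)]
  congr 1
  push_cast; ring

lemma sm_rpow {η : ℝ} {R : ℕ} : sm η R = ((R : ℝ)⁻¹ ^ 10) ^ (η / 160) := by
  unfold sm
  rw [← Real.rpow_natCast ((R : ℝ)⁻¹) 10, Real.inv_rpow (Nat.cast_nonneg R),
    ← Real.rpow_neg (Nat.cast_nonneg R), ← Real.rpow_mul (Nat.cast_nonneg R)]
  congr 1
  push_cast; ring

lemma arc_norm {s : ℝ} : ‖Complex.exp (s * Complex.I) - 1‖ ≤ |s| := by
  rw [mul_comm]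
  exact Real.norm_exp_I_mul_ofReal_sub_one_le

/-- everything which holds for the non-trivial pairs at large scales -/
theorem good_idx (hZ : ZFE) {η : ℝ} (hη : 0 < η) (hη1 : η ≤ 1) {N0 : ℕ}
    (hMX : ∀ N : ℕ, N0 ≤ N →
      ∀ X, PlaneK X → ∀ v, Pool.Agent.H47.NC.Bq v N ⊆ X.E → (N : ℝ)⁻¹ ^ 10 ≤ hv X v →
      ∀ y : ℂ, ‖y‖ = 1 → ∀ i : ℕ,
      ‖gn X y (crn v (i + 1)) ^ 2 - gn X y (crn v i) * gn X y (crn v (i + 2))‖ ≤
        (N : ℝ) ^ (-η) * hv X v ^ 2) :
    ∀ᶠ R in atTop, ∀ a : Idx R, NZ a.1.1 a.1.2 ∧ lab a.1.2 ∈ a.1.1.E ∧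
      ∀ s ∈ Set.Icc (0 : ℝ) (min 1 (Real.sqrt (3 * (η / 160)))),
        ‖(gn a.1.1 (yx (Complex.exp (s * Complex.I))) (nxC a.1.2) /
        gn a.1.1 (yx (Complex.exp (s * Complex.I))) a.1.2) ^ 4 - 1‖ ≤
        10 * (2 ^ 30 * sm η R ^ 8) := by
  have h0 : Tendsto (fun R => 2 ^ 30 * sm η R ^ 8) atTop (𝓝 0) := by
    have := ((sm_tendsto hη).pow 8).const_mul (2 ^ 30 : ℝ)
    simpa using this
  filter_upwards [eventually_ge_atTop N0, eventually_ge_atTop 1,
    h0 (Iic_mem_nhds (show (0 : ℝ) < 1 / 1000 by norm_num))] with R hR hR1 hsm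
  rintro ⟨⟨X, c⟩, ⟨W, hX⟩, hB, hhv, m, hm⟩
  simp only at hB hhv hm ⊢
  have hRpos : (0 : ℝ) < R := by exact_mod_cast hR1
  have hM := hMX R hR X ⟨W, hX⟩ (vx c) hB hhv
  have hr0 : (0 : ℝ) < (R : ℝ)⁻¹ ^ 10 := by positivity
  have hr1 : (R : ℝ)⁻¹ ^ 10 ≤ 1 := by
    refine pow_le_one₀ (by positivity) ?_
    exact inv_le_one_of_one_le₀ (by exact_mod_cast hR1)
  have hh : 0 < hv X (vx c) := lt_of_lt_of_le hr0 hhv
  have hs0 : 0 < sm η R := by unfold sm; positivity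
  have hsm' : 2 ^ 30 * sm η R ^ 8 ≤ 1 / 1000 := hsm
  have hM' : ∀ y : ℂ, ‖y‖ = 1 → ∀ i : ℕ, ‖gn X y (crn (vx c) (i + 1)) ^ 2 -
      gn X y (crn (vx c) i) * gn X y (crn (vx c) (i + 2))‖ ≤ sm η R ^ 16 * hv X (vx c) ^ 2 := by
    intro y hy i
    rw [sm_pow]; exact hM y hy i
  obtain ⟨i, hi, -⟩ := exists_crn c
  have hs16 : sm η R ^ 16 ≤ 1 / 100 := by
    have h8 : sm η R ^ 8 ≤ 1 / 1000 / 2 ^ 30 := by
      rw [le_div_iff₀ (by positivity)]; linarith
    have e : sm η R ^ 16 = sm η R ^ 8 * sm η R ^ 8 := by ring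
    rw [e]
    have h9 : (1 : ℝ) / 1000 / 2 ^ 30 ≤ 1 / 10 := by norm_num
    have h10 : 0 ≤ sm η R ^ 8 := by positivity
    nlinarith
  have hP := step_one (X := X) (v := vx c) (t := sm η R ^ 16) (by positivity) hs16 hh
    (fun i => hM' 1 (by simp) i)
  have hvis : ∃ ω ⊆ X.E, Vis X c ω := by
    refine vis_of_pos ?_
    have h1 := hP i
    unfold pv4 at h1
    rw [← hi] at h1
    linarith
  refine ⟨nz_of hZ hX hR1 hB hvis, lab_mem hR1 hB, ?_⟩
  intro s hs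
  have hsabs : |s| = s := abs_of_nonneg hs.1
  have hs1 : s ≤ 1 := hs.2.trans (min_le_left _ _)
  have hs2 : s ≤ Real.sqrt (3 * (η / 160)) := hs.2.trans (min_le_right _ _)
  have hs3 : s ^ 2 ≤ 3 * (η / 160) := by
    have := pow_le_pow_left₀ hs.1 hs2 2
    rwa [Real.sq_sqrt (by positivity)] at this
  have hpi := Real.pi_gt_three
  have hxa : ‖Complex.exp (s * Complex.I) - 1‖ ^ 2 / 3 ≤ η / 160 := by
    have h1 := arc_norm (s := s)
    rw [hsabs] at h1
    have h2 := pow_le_pow_left₀ (norm_nonneg _) h1 2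
    linarith
  have key := step_two (X := X) (v := vx c) (r := (R : ℝ)⁻¹ ^ 10) (w0 := η / 160) (s := sm η R)
    hZ hX hs0 hsm' hr0 hr1 (le_of_eq sm_rpow) hh hM' (x := Complex.exp (s * Complex.I)) (x0 := xp)
    (norm_exp_I s) xp_norm xp_three hxa (by linarith)
    (m := m) (by rw [yx_xp]; exact hm) i
  have e1 : crn (vx c) (i + 1) = nxC c := by rw [crn_succ, ← hi]
  rw [e1, ← hi] at key
  exact key

/-- **(c1)** -/
theorem c1_done : C1 := by
  intro hZ hMXK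
  obtain ⟨η', hη', N0, hMX'⟩ := hMXK 10
  -- make the exponent at most `1`
  set η : ℝ := min η' 1 with hηdef
  have hη : 0 < η := lt_min hη' one_pos
  have hη1 : η ≤ 1 := min_le_right _ _
  have hMX : ∀ N : ℕ, max N0 1 ≤ N →
      ∀ X, PlaneK X → ∀ v, Pool.Agent.H47.NC.Bq v N ⊆ X.E → (N : ℝ)⁻¹ ^ 10 ≤ hv X v →
      ∀ y : ℂ, ‖y‖ = 1 → ∀ i : ℕ,
      ‖gn X y (crn v (i + 1)) ^ 2 - gn X y (crn v i) * gn X y (crn v (i + 2))‖ ≤
        (N : ℝ) ^ (-η) * hv X v ^ 2 := by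
    intro N hN X hX v hB hh y hy i
    refine (hMX' N ((le_max_left _ _).trans hN) X hX v hB hh y hy i).trans ?_
    refine mul_le_mul_of_nonneg_right ?_ (by positivity)
    refine Real.rpow_le_rpow_of_exponent_le ?_ (neg_le_neg (min_le_left _ _))
    exact_mod_cast (le_max_right _ _).trans hN
  have hgood := good_idx hZ hη hη1 hMX
  set T : ℝ := min 1 (Real.sqrt (3 * (η / 160))) with hT
  have hT0 : 0 < T := lt_min one_pos (Real.sqrt_pos.2 (by positivity))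
  have hTpi : T < Real.pi := lt_of_le_of_lt (min_le_left _ _) (by linarith [Real.pi_gt_three])
  have h0 : Tendsto (fun R => 10 * (2 ^ 30 * sm η R ^ 8)) atTop (𝓝 0) := by
    have := (((sm_tendsto hη).pow 8).const_mul (2 ^ 30 : ℝ)).const_mul (10 : ℝ)
    simpa using this
  intro ε hε
  -- the accuracy of the square root
  set ε1 : ℝ := min 1 (ε / 3) with hε1
  have hε1p : 0 < ε1 := lt_min one_pos (by positivity)
  have hlim := tendsto_of_avoid (Om := Complex.slitPlane) Complex.isOpen_slitPlane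
    ((Complex.starConvex_one_slitPlane.isPathConnected
      Complex.one_mem_slitPlane).isConnected.isPreconnected)
    (E := Idx) (q := fun R a => QQ a.1.1 a.1.2)
    (by filter_upwards [hgood] with R h a; exact QQ_diff (h a).1)
    (by filter_upwards [hgood] with R h a z hz; exact QQ_mem (h a).1 hz)
    (q0 := qv) qv_diff (fun z _ => qv_mem z)
    (I := (fun s : ℝ => Complex.exp (s * Complex.I)) '' Set.Icc 0 T)
    (by
      rintro _ ⟨s, hs, rfl⟩
      exact exp_I_mem (by linarith [hs.1, Real.pi_pos]) (by linarith [hs.2]))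
    (z0 := 1) Complex.one_mem_slitPlane
    (by
      rw [accPt_iff_frequently_nhdsNE]
      have h1 : Tendsto (fun s : ℝ => Complex.exp (s * Complex.I)) (𝓝[>] 0) (𝓝[≠] (1 : ℂ)) := by
        refine tendsto_nhdsWithin_iff.2 ⟨?_, ?_⟩
        · have h2 : Continuous fun s : ℝ => Complex.exp (s * Complex.I) := by fun_prop
          have h3 := (h2.tendsto 0).mono_left (nhdsWithin_le_nhds (s := Set.Ioi (0 : ℝ)))
          simpa using h3
        · filter_upwards [Ioc_mem_nhdsGT hT0] with s hs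
          intro h4
          have h5 := congrArg Complex.log h4
          rw [log_exp_I (by linarith [hs.1, Real.pi_pos]) (by linarith [hs.2]), Complex.log_one]
            at h5
          have h6 : (s : ℂ) = 0 := by
            rcases mul_eq_zero.1 h5 with h7 | h7
            · exact h7
            · exact absurd h7 Complex.I_ne_zero
          have h8 : s = 0 := by exact_mod_cast h6
          exact (ne_of_gt hs.1) h8
      refine h1.frequently (Eventually.frequently ?_)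
      filter_upwards [Ioc_mem_nhdsGT hT0] with s hs
      exact ⟨s, ⟨hs.1.le, hs.2⟩, rfl⟩)
    (by
      rintro _ ⟨s, hs, rfl⟩ δ hδ
      filter_upwards [hgood, h0 (Iio_mem_nhds (show (0 : ℝ) < 1 / 10 by norm_num)),
        h0 (Iio_mem_nhds hδ)] with R h h2 h3 a
      exact lt_of_le_of_lt (arc_close (h a).1 (h a).2.1 hTpi h2 (h a).2.2 s hs) h3)
    (K := {xp}) (Set.singleton_subset_iff.2 xp_mem) isCompact_singleton hε1p
  obtain ⟨R0, hR0⟩ := eventually_atTop.1 (hlim.and (hgood.and (eventually_ge_atTop 2)))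
  refine ⟨R0, fun N hN X hX c hB => ?_⟩
  obtain ⟨hq, hg, hN2⟩ := hR0 N hN
  obtain ⟨i, hi, hd, hn⟩ := inc_sub (X := X) c
  rw [hd, hn]
  have hNpos : (0 : ℝ) < N := by
    have : (2 : ℝ) ≤ N := by exact_mod_cast hN2
    linarith
  have hN9 : 2 * (N : ℝ)⁻¹ ^ 10 ≤ (N : ℝ)⁻¹ ^ 9 := by
    have h1 : (N : ℝ)⁻¹ ≤ 1 / 2 := by
      rw [inv_eq_one_div]
      exact one_div_le_one_div_of_le (by norm_num) (by exact_mod_cast hN2)
    have e : (N : ℝ)⁻¹ ^ 10 = (N : ℝ)⁻¹ * (N : ℝ)⁻¹ ^ 9 := by ring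
    rw [e]
    have h2 : 0 ≤ (N : ℝ)⁻¹ ^ 9 := by positivity
    nlinarith
  -- trivial cases
  have triv : (∀ m, ‖gn X yp (crn (vx c) m)‖ ≤ (N : ℝ)⁻¹ ^ 10) →
      ‖gn X yp (crn (vx c) (i + 1)) - gn X yp (crn (vx c) i)‖ ≤
      ε * ‖gn X yp (crn (vx c) i)‖ + (N : ℝ)⁻¹ ^ 9 := by
    intro h
    have h1 := norm_sub_le (gn X yp (crn (vx c) (i + 1))) (gn X yp (crn (vx c) i))
    have h2 := h i
    have h3 := h (i + 1)
    have h4 : 0 ≤ ε * ‖gn X yp (crn (vx c) i)‖ := by positivity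
    linarith
  by_cases hhv : (N : ℝ)⁻¹ ^ 10 ≤ hv X (vx c)
  swap
  · push Not at hhv
    refine triv fun m => ?_
    refine (gn_norm _ yp_norm).trans (le_trans ?_ hhv.le)
    have hnn : ∀ k, 0 ≤ pv4 X (vx c) k := fun k => PrP_nonneg pb_half _ _
    rw [hv_eq]
    rcases crn_cases (vx c) m with h1 | h1 | h1 | h1 <;> rw [h1]
    · change pv4 X (vx c) 0 ≤ _; linarith [hnn 1, hnn 2, hnn 3]
    · change pv4 X (vx c) 1 ≤ _; linarith [hnn 0, hnn 2, hnn 3]
    · change pv4 X (vx c) 2 ≤ _; linarith [hnn 1, hnn 0, hnn 3]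
    · change pv4 X (vx c) 3 ≤ _; linarith [hnn 1, hnn 2, hnn 0]
  by_cases hm : ∃ m, (N : ℝ)⁻¹ ^ 10 ≤ ‖gn X yp (crn (vx c) m)‖
  swap
  · push Not at hm
    exact triv fun m => (hm m).le
  set a : Idx N := ⟨(X, c), hX, hB, hhv, hm⟩ with ha
  have h1 : ‖QQ X c xp - qv xp‖ < ε1 := hq a xp rfl
  obtain ⟨h2, h3, -⟩ := hg a
  have h4 := ratio_eq h2 h3 xp_mem
  have h5 := gn_ne h2 h3 xp_mem
  change gn X (yx xp) (nxC c) / gn X (yx xp) c = yx xp * QQ X c xp ^ 2 at h4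
  change gn X (yx xp) c ≠ 0 at h5
  rw [yx_xp] at h4 h5
  have e1 : crn (vx c) (i + 1) = nxC c := by rw [crn_succ, ← hi]
  rw [e1, ← hi]
  have e2 : gn X yp (nxC c) - gn X yp c = gn X yp c * (yp * QQ X c xp ^ 2 - 1) := by
    rw [← h4]; field_simp
  have e3 : yp * QQ X c xp ^ 2 - 1 = yp * ((QQ X c xp - qv xp) * (QQ X c xp - qv xp + 2 * qv xp)) := by
    have h6 := yx_qv (x := xp)
    rw [yx_xp] at h6
    linear_combination h6
  have hqn : ‖qv xp‖ = 1 := qv_norm xp_norm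
  have h7 : ‖yp * QQ X c xp ^ 2 - 1‖ ≤ ε := by
    rw [e3, norm_mul, norm_mul, yp_norm, one_mul]
    have h8 : ‖QQ X c xp - qv xp + 2 * qv xp‖ ≤ 3 := by
      refine (norm_add_le _ _).trans ?_
      rw [norm_mul, hqn]
      have : ε1 ≤ 1 := min_le_left _ _
      norm_num
      linarith
    have h9 : ε1 ≤ ε / 3 := min_le_right _ _
    calc _ ≤ ε / 3 * 3 := mul_le_mul (h1.le.trans h9) h8 (norm_nonneg _) (by positivity)
      _ = ε := by ring
  rw [e2, norm_mul]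
  have h10 : 0 ≤ (N : ℝ)⁻¹ ^ 9 := by positivity
  have h11 : ‖gn X yp c‖ * ‖yp * QQ X c xp ^ 2 - 1‖ ≤ ‖gn X yp c‖ * ε :=
    mul_le_mul_of_nonneg_left h7 (norm_nonneg _)
  linarith [mul_comm ‖gn X yp c‖ ε]

end Pool.Agent.H95.ZF
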