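import Mathlib
import Pool.Agent.H53.ZF.Cong
import Pool.Agent.H53.ZF.Dis
import Pool.Agent.H33.Q1.Inv

set_option autoImplicit false
open Finset

/-! # The far entrance of a good inner state

`dgood_far`: the strands of a good state (`Dgood`) are the two ends of the strand of the unique far
entrance. `dgood_uniq`: the pair of heights is unique. `t6 : T6`. -/

namespace Pool.Agent.H95.ZF

open Pool.Agent.H75.Perc Pool.Agent.H75.TwoArm Pool.Agent.Q1 Pool.Agent.H47.NC Pool.Agent.ZF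
open Pool.Agent.H99.NC Pool.Agent.Q1.M6c Pool.Agent.H65.Four2 Pool.Agent.H53.ZF
open Pool.Agent.Q1.M6b.Gd (FarIn)

section

variable {w In Out Q : Finset (ℤ × ℤ)}

lemma pv_nx_iter (w : Finset (ℤ × ℤ)) (c : ℤ × ℤ) (n : ℕ) : (pv w)^[n] ((nx w)^[n] c) = c :=
  (Function.LeftInverse.iterate (pv_nx w) n) c

lemma nx_pv_iter (w : Finset (ℤ × ℤ)) (c : ℤ × ℤ) (n : ℕ) : (nx w)^[n] ((pv w)^[n] c) = c :=
  (Function.LeftInverse.iterate (nx_pv w) n) c

lemma pv_iter_of_le {c : ℤ × ℤ} {i n : ℕ} (h : i ≤ n) :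
    (pv w)^[i] ((nx w)^[n] c) = (nx w)^[n - i] c := by
  obtain ⟨k, rfl⟩ := Nat.exists_eq_add_of_le h
  rw [Function.iterate_add_apply, pv_nx_iter, show i + k - i = k by omega]

lemma nx_iter_of_le {c : ℤ × ℤ} {i n : ℕ} (h : i ≤ n) :
    (nx w)^[i] ((pv w)^[n] c) = (pv w)^[n - i] c := by
  obtain ⟨k, rfl⟩ := Nat.exists_eq_add_of_le h
  rw [Function.iterate_add_apply, nx_pv_iter, show i + k - i = k by omega]

lemma lab_iter_pv {c : ℤ × ℤ} {i n : ℕ} (h : i < n) :
    lab ((nx w)^[i] ((pv w)^[n] c)) = plab ((pv w)^[n - i - 1] c) := by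
  rw [nx_iter_of_le h.le, show n - i = (n - i - 1) + 1 by omega, Function.iterate_succ_apply', lab_pv]
  rfl

lemma plab_iter_nx {c : ℤ × ℤ} {i n : ℕ} (h : i < n) :
    plab ((pv w)^[i] ((nx w)^[n] c)) = lab ((nx w)^[n - i - 1] c) := by
  rw [pv_iter_of_le h.le, show n - i = (n - i - 1) + 1 by omega, Function.iterate_succ_apply', plab_nx]
  rfl

/-- a loop which leaves a set of labels forwards leaves it backwards -/
lemma leave_back {c : ℤ × ℤ} (hL : Leave Out w c) : ∃ N : ℕ, plab ((pv w)^[N] c) ∉ Out := by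
  obtain ⟨j, hj⟩ := hL
  obtain ⟨L, hO⟩ := Pool.Agent.H69.Q1.exists_orb_nx w c
  have hper : ∀ q : ℕ, (nx w)^[q * L] c = c := by
    intro q
    induction q with
    | zero => simp
    | succ q ih =>
      rw [Nat.succ_mul, Function.iterate_add_apply, hO.per, ih]
  have hpos := hO.pos
  refine ⟨(j + 1) * L - (j + 1), ?_⟩
  have h1 : (pv w)^[(j + 1) * L - (j + 1)] c = (nx w)^[j + 1] c := by
    have h2 : j + 1 ≤ (j + 1) * L := Nat.le_mul_of_pos_right _ hpos
    have h3 := pv_iter_of_le (w := w) (c := c) (i := (j + 1) * L - (j + 1)) (n := (j + 1) * L)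
      (Nat.sub_le _ _)
    rw [hper] at h3
    rw [h3]
    congr 1
    omega
  rw [h1, Function.iterate_succ_apply', plab_nx]
  exact hj

/-- first entrance of `In` after the last entrance of `Out` -/
lemma exists_far (hIO : In ⊆ Out) {c : ℤ × ℤ} (hc : lab c ∈ In) (hL : Leave Out w c) :
    ∃ (z : ℤ × ℤ) (n : ℕ), FarIn In Out w z ∧ (nx w)^[n] z = c ∧
      ∀ i ≤ n, lab ((nx w)^[i] z) ∈ Out := by
  classical
  have hex := leave_back hL
  set N := Nat.find hex with hN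
  have h1 : plab ((pv w)^[N] c) ∉ Out := Nat.find_spec hex
  have h2 : ∀ i < N, plab ((pv w)^[i] c) ∈ Out := fun i hi => by
    by_contra h3
    exact Nat.find_min hex hi h3
  set c' := (pv w)^[N] c with hc'
  have h3 : (nx w)^[N] c' = c := nx_pv_iter w c N
  have h4 : ∀ i < N, lab ((nx w)^[i] c') ∈ Out := fun i hi => by
    rw [hc', lab_iter_pv hi]
    exact h2 _ (by omega)
  have hex2 : ∃ i, lab ((nx w)^[i] c') ∈ In := ⟨N, by rw [h3]; exact hc⟩
  set i0 := Nat.find hex2 with hi0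
  have h5 : lab ((nx w)^[i0] c') ∈ In := Nat.find_spec hex2
  have h6 : ∀ i < i0, lab ((nx w)^[i] c') ∉ In := fun i hi => Nat.find_min hex2 hi
  have h7 : i0 ≤ N := Nat.find_min' hex2 (by rw [h3]; exact hc)
  refine ⟨(nx w)^[i0] c', N - i0, ⟨h5, c', i0, h1, rfl, fun i hi => ?_⟩, ?_, ?_⟩
  · exact mem_sdiff.2 ⟨h4 i (by omega), h6 i hi⟩
  · rw [← Function.iterate_add_apply, show N - i0 + i0 = N by omega, h3]
  · intro i hi
    rw [← Function.iterate_add_apply]
    rcases Nat.lt_or_ge (i + i0) N with h8 | h8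
    · exact h4 _ h8
    · rw [show i + i0 = N by omega, h3]
      exact hIO hc

/-- the first label in `In` of a strand from outside gives a far entrance -/
lemma far_of {n : ℕ} : ∀ {c : ℤ × ℤ}, plab c ∉ Out → (∀ i < n, lab ((nx w)^[i] c) ∉ In) →
    lab ((nx w)^[n] c) ∈ In → FarIn In Out w ((nx w)^[n] c) := by
  induction n using Nat.strong_induction_on with
  | _ n ih =>
    intro c hc h1 h2
    by_cases h3 : ∀ i < n, lab ((nx w)^[i] c) ∈ Out
    · exact ⟨h2, c, n, hc, rfl, fun i hi => mem_sdiff.2 ⟨h3 i hi, h1 i hi⟩⟩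
    · push Not at h3
      obtain ⟨i, hi, h4⟩ := h3
      have e : ∀ j, (nx w)^[j] ((nx w)^[i + 1] c) = (nx w)^[j + (i + 1)] c := fun j => by
        rw [← Function.iterate_add_apply]
      have h5 := ih (n - (i + 1)) (by omega) (c := (nx w)^[i + 1] c)
        (by rw [Function.iterate_succ_apply', plab_nx]; exact h4)
        (fun j hj => by rw [e]; exact h1 _ (by omega))
        (by rw [e, show n - (i + 1) + (i + 1) = n by omega]; exact h2)
      rw [e, show n - (i + 1) + (i + 1) = n by omega] at h5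
      exact h5

lemma FX_uniq {c x x' : ℤ × ℤ} (h : FX Q w c x) (h' : FX Q w c x') : x' = x := by
  obtain ⟨j, h1, h2, h3⟩ := h'
  exact Str_FX h (Or.inl ⟨j, h1, h3⟩) h2

lemma BX_uniq {c x x' : ℤ × ℤ} (h : BX Q w c x) (h' : BX Q w c x') : x' = x := by
  obtain ⟨j, h1, h2, h3⟩ := h'
  exact Str_BX h (Or.inr ⟨j, h1, h3⟩) h2

/-- forward exit of a later corner -/
lemma FX_shift {z c x : ℤ × ℤ} (h : FX Q w z x) {n : ℕ} (hn : (nx w)^[n] z = c)
    (hQ : ∀ i ≤ n, lab ((nx w)^[i] z) ∈ Q) : FX Q w c x := by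
  obtain ⟨j, h1, h2, h3⟩ := h
  have h4 : n < j := by
    by_contra h5
    push Not at h5
    exact h2 (by rw [← h1]; exact hQ j h5)
  refine ⟨j - n, ?_, h2, fun i hi => ?_⟩
  · rw [← hn, ← Function.iterate_add_apply, show j - n + n = j by omega, h1]
  · rw [← hn, ← Function.iterate_add_apply]
    exact h3 _ (by omega)

/-- backward exit of a later corner -/
lemma BX_shift {z c x : ℤ × ℤ} (h : BX Q w z x) {n : ℕ} (hn : (nx w)^[n] z = c)
    (hQ : ∀ i < n, lab ((nx w)^[i] z) ∈ Q) : BX Q w c x := by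
  obtain ⟨j, h1, h2, h3⟩ := h
  refine ⟨j + n, ?_, h2, fun i hi => ?_⟩
  · rw [← hn, Function.iterate_add_apply, pv_nx_iter, h1]
  · rcases Nat.lt_or_ge i n with h4 | h4
    · rw [← hn, plab_iter_nx h4]
      exact hQ _ (by omega)
    · obtain ⟨k, rfl⟩ := Nat.exists_eq_add_of_le' h4
      rw [← hn, Function.iterate_add_apply, pv_nx_iter]
      exact h3 _ (by omega)

end

section

variable {t s r L t1 t2 : ℤ} {w : Finset (ℤ × ℤ)}

lemma BB_sub_BE {a r L : ℤ} (h : a ≤ r) (h' : a ≤ L) : BB a ⊆ BE r L :=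
  Bx_sub (by omega) h (by omega) h'

lemma BB_sub_BB {a b : ℤ} (h : a ≤ b) : BB a ⊆ BB b :=
  Bx_sub (by omega) h (by omega) h

lemma plab_in (r t : ℤ) : plab (2 * r + 1, 2 * t + 1) = (2 * r + 1, 2 * t) := by
  unfold plab
  simp only
  rw [if_neg (by omega), if_neg (by omega)]
  simp

lemma lab_out (r t : ℤ) : lab (2 * r + 1, 2 * t) = (2 * r + 1, 2 * t) := by
  unfold lab
  simp only
  rw [if_pos (by omega), if_neg (by omega)]

lemma notMem_BE {r L y : ℤ} : ((2 * r + 1, y) : ℤ × ℤ) ∉ BE r L := by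
  intro h
  have := (mem_Bx.1 h).1.2
  simp only at this
  omega

/-- **The strand of the far entrance of a good state.** -/
theorem dgood_far (h1t : 1 ≤ t) (htr : 4 * t + 6 ≤ r) (hrL : r ≤ L)
    (h : Dgood t s r L t1 t2 w) : ∃ z, FarIn (BB (2 * t)) (BB (r / 2)) w z ∧
      FX (BE r (2 * L)) w z (2 * r + 1, 2 * t1) ∧ BX (BE r (2 * L)) w z (2 * r + 1, 2 * t2 + 1) := by
  have hQ : BB (r / 2) ⊆ BE r (2 * L) := BB_sub_BE (by omega) (by omega)
  have hI : BB (2 * t) ⊆ BB (r / 2) := BB_sub_BB (by omega)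
  obtain ⟨n, a1, a2⟩ := h.fwd
  obtain ⟨m, b1, b2⟩ := h.bwd
  have hz2 : FarIn (BB (2 * t)) (BB (r / 2)) w ((nx w)^[n] (2 * r + 1, 2 * t2 + 1)) :=
    far_of (by rw [plab_in]; exact fun h5 => notMem_BE (hQ h5))
      (fun i hi => (mem_sdiff.1 (a2 i hi)).2) a1
  refine ⟨_, hz2, ?_, ?_⟩
  · -- the strand of the exit
    set z1 := (pv w)^[m] (2 * r + 1, 2 * t1) with hz1
    have hx : (nx w)^[m] z1 = (2 * r + 1, 2 * t1) := nx_pv_iter _ _ _
    set c := pv w z1 with hc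
    have hcz : nx w c = z1 := nx_pv w z1
    have hlc : lab c ∈ BB (2 * t) := by rw [hc, lab_pv]; exact b1
    have hlv : Leave (BB (r / 2)) w c := by
      refine ⟨m + 1, ?_⟩
      rw [Function.iterate_succ_apply, hcz, hx, lab_out]
      exact fun h5 => notMem_BE (hQ h5)
    obtain ⟨z, k, hz, hk, hk'⟩ := exists_far hI hlc hlv
    have hzz : (nx w)^[n] (2 * r + 1, 2 * t2 + 1) = z :=
      Pool.Agent.H65.G1.far_unique (x := (0, 0)) (a := 2 * t) (b := r / 2) (E := BB (r / 2))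
        (by omega) (by omega) (by rw [BB_eq]) h.four h.fourd
        (by rw [← BB_eq, ← BB_eq]; exact hz2) (by rw [← BB_eq, ← BB_eq]; exact hz)
    rw [hzz]
    refine ⟨m + 1 + k, ?_, by rw [lab_out]; exact notMem_BE, fun i hi => ?_⟩
    · rw [Function.iterate_add_apply, hk, Function.iterate_succ_apply, hcz, hx]
    · rcases Nat.lt_or_ge k i with h4 | h4
      · obtain ⟨j, rfl⟩ := Nat.exists_eq_add_of_le' h4.le
        obtain ⟨j', rfl⟩ : ∃ j', j = j' + 1 := ⟨j - 1, by omega⟩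
        rw [Function.iterate_add_apply, hk, Function.iterate_succ_apply, hcz, hz1,
          lab_iter_pv (by omega)]
        exact (mem_sdiff.1 (b2 _ (by omega))).1
      · exact hQ (hk' i h4)
  · refine ⟨n, pv_nx_iter _ _ _, by rw [plab_in]; exact notMem_BE, fun i hi => ?_⟩
    rw [plab_iter_nx hi]
    exact (mem_sdiff.1 (a2 _ (by omega))).1

/-- **The heights of a good state are unique.** -/
theorem dgood_uniq {t1' t2' : ℤ} (h1t : 1 ≤ t) (htr : 4 * t + 6 ≤ r) (hrL : r ≤ L)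
    (h : Dgood t s r L t1 t2 w) (h' : Dgood t s r L t1' t2' w) : t1' = t1 ∧ t2' = t2 := by
  obtain ⟨z, a1, a2, a3⟩ := dgood_far h1t htr hrL h
  obtain ⟨z', b1, b2, b3⟩ := dgood_far h1t htr hrL h'
  have hzz : z = z' :=
    Pool.Agent.H65.G1.far_unique (x := (0, 0)) (a := 2 * t) (b := r / 2) (E := BB (r / 2))
      (by omega) (by omega) (by rw [BB_eq]) h.four h.fourd
      (by rw [← BB_eq, ← BB_eq]; exact a1) (by rw [← BB_eq, ← BB_eq]; exact b1)
  subst hzz
  have e1 := congrArg Prod.snd (FX_uniq a2 b2)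
  have e2 := congrArg Prod.snd (BX_uniq a3 b3)
  simp only at e1 e2
  omega

lemma lab_C0 {c : ℤ × ℤ} (hc : C0 c) (ht : 1 ≤ t) : lab c ∈ BB (2 * t) := by
  unfold H75.TwoArm.BB
  rcases hc with rfl | rfl | rfl | rfl
  all_goals
    rw [mem_Bx]
    unfold lab
    simp
    omega

/-- a corner at the origin which leaves the box has the two exits -/
theorem east_of_leave (h1t : 1 ≤ t) (htr : 4 * t + 6 ≤ r) (hrL : r ≤ L)
    (h : Dgood t s r L t1 t2 w) {c : ℤ × ℤ} (hc : C0 c) (hL : Leave (BB (r / 2)) w c) :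
    East r (2 * L) w c t1 t2 := by
  have hQ : BB (r / 2) ⊆ BE r (2 * L) := BB_sub_BE (by omega) (by omega)
  have hI : BB (2 * t) ⊆ BB (r / 2) := BB_sub_BB (by omega)
  obtain ⟨z, a1, a2, a3⟩ := dgood_far h1t htr hrL h
  obtain ⟨z', k, hz, hk, hk'⟩ := exists_far hI (lab_C0 hc h1t) hL
  have hzz : z = z' :=
    Pool.Agent.H65.G1.far_unique (x := (0, 0)) (a := 2 * t) (b := r / 2) (E := BB (r / 2))
      (by omega) (by omega) (by rw [BB_eq]) h.four h.fourd
      (by rw [← BB_eq, ← BB_eq]; exact a1) (by rw [← BB_eq, ← BB_eq]; exact hz)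
  subst hzz
  exact ⟨FX_shift a2 hk fun i hi => hQ (hk' i hi), BX_shift a3 hk fun i hi => hQ (hk' i hi.le)⟩

lemma leave_of_east {c : ℤ × ℤ} (hrL : r ≤ L) (hr : 0 ≤ r) (h : East r (2 * L) w c t1 t2) :
    Leave (BB (r / 2)) w c := by
  have hQ : BB (r / 2) ⊆ BE r (2 * L) := BB_sub_BE (by omega) (by omega)
  obtain ⟨j, h1, h2, -⟩ := h.1
  exact ⟨j, by rw [h1]; exact fun h5 => h2 (hQ h5)⟩

end

/-- linear consequences of `Par` without a condition on `Mh` -/
lemma par_lin {M1 k Mh : ℕ} {t s r L R u : ℤ} (hM : 1 ≤ M1) (hp : Par M1 k Mh t s r L R u) :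
    1 ≤ t ∧ t ≤ s ∧ 16 * s ≤ r ∧ r ≤ L ∧ R = 16 * L := by
  obtain ⟨h1, h2, h3, h4, h5, h6, h7, h8⟩ := hp
  have hM' : (1 : ℤ) ≤ M1 := by exact_mod_cast hM
  have hk : (1 : ℤ) ≤ 4 ^ k := one_le_pow₀ (by norm_num)
  have e1 : t ≤ s := by rw [h2]; nlinarith
  have e2 : 16 * s ≤ r := by rw [h3]; nlinarith
  have e3 : r ≤ L := by rw [h4]; nlinarith
  exact ⟨h1, e1, e2, e3, h5⟩

/-- **T6.** -/
theorem t6 : T6 := by
  intro M1 k Mh t s r L R u hM hp w c t1 t2 hc hD hL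
  obtain ⟨g1, g2, g3, g4, -⟩ := par_lin hM hp
  exact east_of_leave g1 (by omega) g4 hD hc hL

end Pool.Agent.H95.ZF
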