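import Mathlib
import Pool.Agent.H95.ZF.Far
import Pool.Agent.H95.ZF.Gn
import Pool.Agent.H53.ZF.Can

set_option autoImplicit false
open Finset

/-! # OS, part 1: the chosen pair of heights, the weight, what they depend on -/

namespace Pool.Agent.H95.ZF

open Pool.Agent.H75.Perc Pool.Agent.H75.TwoArm Pool.Agent.Q1 Pool.Agent.H47.NC Pool.Agent.ZF
open Pool.Agent.H99.NC Pool.Agent.Q1.M6c Pool.Agent.H65.Four2 Pool.Agent.H53.ZF

/-- all dual rectangles are in the double box -/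
lemma allD_sub {s r L R u : ℤ} (g1 : 1 ≤ s) (g2 : 16 * s ≤ r) (g3 : r ≤ L) (g4 : R = 16 * L)
    (g5 : 1 ≤ u) (g6 : 1000 * u ≤ R) {i : ℕ} {y t1 t2 : ℤ} (hi : i < 4) (hy : |y| ≤ R - 39 * u)
    (h2 : |t2| ≤ L) {e : ℤ × ℤ} (hD : ∃ ρ ∈ allD i R u s r y t1 t2, sh1 e ∈ ρ.lb) :
    e ∈ BB (2 * R) := by
  obtain ⟨a, b⟩ := e
  rw [abs_le] at hy h2
  unfold allD hookD ringD innD Rc.lb at hD
  have hsh : sh1 (a, b) = (a + 1, b + 1) := rfl
  rw [hsh] at hD
  unfold H75.TwoArm.BB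
  rw [mem_Bx]
  by_cases h : t1 < t2
  · simp only [if_pos h] at hD
    interval_cases i <;>
    simp only [List.map_cons, List.map_nil, List.mem_append, List.mem_cons,
      List.not_mem_nil, or_false, Function.iterate_succ, Function.iterate_zero, Function.comp_apply,
      id_eq, or_and_right, exists_or, exists_eq_left, Rc.rotd, mem_Bx, or_assoc] at hD <;>
    omega
  · simp only [if_neg h] at hD
    interval_cases i <;>
    simp only [List.map_cons, List.map_nil, List.mem_append, List.mem_cons,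
      List.not_mem_nil, or_false, Function.iterate_succ, Function.iterate_zero, Function.comp_apply,
      id_eq, or_and_right, exists_or, exists_eq_left, Rc.rotd, mem_Bx, or_assoc] at hD <;>
    omega

/-- the crossings depend only on the labels of the double box which are not in `U` -/
lemma holds_loc {O D : List Rc} {E U w w' B : Finset (ℤ × ℤ)}
    (hO : ∀ e, (∃ ρ ∈ O, e ∈ ρ.lb) → e ∈ B) (hD : ∀ e, (∃ ρ ∈ D, sh1 e ∈ ρ.lb) → e ∈ B)
    (h : ∀ e ∈ B, e ∉ U → (e ∈ w ↔ e ∈ w')) (hH : Holds O D E w U) : Holds O D E w' U := by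
  refine ⟨fun ρ hρ => Rc.cr_mono (hH.1 ρ hρ) ?_, fun ρ hρ => Rc.cr_mono (hH.2 ρ hρ) ?_⟩
  · intro e he he'
    rw [mem_union] at he ⊢
    by_cases hU : e ∈ U
    · exact Or.inr hU
    · left
      have h1 := h e (hO e ⟨ρ, hρ, he'⟩) hU
      tauto
  · intro e he he'
    rw [CorrAux.mem_du'] at he ⊢
    refine ⟨he.1, fun h1 => he.2 ?_⟩
    rw [mem_sdiff] at h1 ⊢
    have h4 : sh1 (e - (1, 1)) = e := by
      unfold sh1
      refine Prod.ext ?_ ?_ <;> simp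
    have h5 := h _ (hD (e - (1, 1)) ⟨ρ, hρ, by rw [h4]; exact he'⟩) h1.2
    exact ⟨h5.2 h1.1, h1.2⟩

/-- the crossings depend only on the labels which are not in `U` -/
lemma holds_off {O D : List Rc} {E U w w' : Finset (ℤ × ℤ)} (h : ∀ e ∉ U, (e ∈ w ↔ e ∈ w')) :
    Holds O D E w U ↔ Holds O D E w' U := by
  have e1 : w ∪ U = w' ∪ U := by
    ext e
    rw [mem_union, mem_union]
    have := h e
    tauto
  have e2 : w \ U = w' \ U := by
    ext e
    rw [mem_sdiff, mem_sdiff]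
    have := h e
    tauto
  unfold Holds
  rw [e1, e2]

section

variable {t s r L t1 t2 : ℤ} {w w' : Finset (ℤ × ℤ)}

/-- `DU` does not depend on the labels of the inner box -/
lemma DU_cg (h : ∀ e ∈ DU t r L t1 t2 w, e ∉ BB (2 * t) → (e ∈ w ↔ e ∈ w')) :
    DU t r L t1 t2 w' = DU t r L t1 t2 w := by
  have hF : ∀ e, FM (fun e => e ∈ BE r (2 * L) \ BB (2 * t)) w (2 * r + 1, 2 * t2 + 1) e →
      (e ∈ w ↔ e ∈ w') := by
    intro e he
    obtain ⟨n, h1, h2⟩ := id he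
    have h3 := h2 n le_rfl
    rw [h1] at h3
    exact h e (mem_DU.2 (Or.inr ⟨(mem_sdiff.1 h3).1, Or.inl he⟩)) (mem_sdiff.1 h3).2
  have hB : ∀ e, BM (fun e => e ∈ BE r (2 * L) \ BB (2 * t)) w (2 * r + 1, 2 * t1) e →
      (e ∈ w ↔ e ∈ w') := by
    intro e he
    obtain ⟨n, h1, h2⟩ := id he
    have h3 := h2 n le_rfl
    rw [h1] at h3
    exact h e (mem_DU.2 (Or.inr ⟨(mem_sdiff.1 h3).1, Or.inr he⟩)) (mem_sdiff.1 h3).2
  ext e
  rw [mem_DU, mem_DU, fm_iff hF, bm_iff hB]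

/-- `Dgood` does not depend on the labels of the inner box -/
lemma Dgood_cg (h : ∀ e ∈ DU t r L t1 t2 w, e ∉ BB (2 * t) → (e ∈ w ↔ e ∈ w'))
    (hD : Dgood t s r L t1 t2 w) : Dgood t s r L t1 t2 w' := by
  -- replace the labels of the inner box
  have h1 : Dgood t s r L t1 t2 ((w' \ BB (2 * t)) ∪ (w ∩ BB (2 * t))) := by
    refine Dgood_congr (fun e he => ?_) hD
    rw [mem_union, mem_sdiff, mem_inter]
    by_cases hB : e ∈ BB (2 * t)
    · tauto
    · have := h e he hB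
      tauto
  set v := (w' \ BB (2 * t)) ∪ (w ∩ BB (2 * t)) with hv
  have hvw : ∀ e ∉ BB (2 * t), (e ∈ v ↔ e ∈ w') := by
    intro e he
    rw [hv, mem_union, mem_sdiff, mem_inter]
    tauto
  clear_value v
  have hF : ∀ e, FM (fun e => e ∈ BE r (2 * L) \ BB (2 * t)) v (2 * r + 1, 2 * t2 + 1) e →
      (e ∈ v ↔ e ∈ w') := by
    rintro e ⟨n, h2, h3⟩
    have h4 := h3 n le_rfl
    rw [h2] at h4
    exact hvw e (mem_sdiff.1 h4).2
  have hB : ∀ e, BM (fun e => e ∈ BE r (2 * L) \ BB (2 * t)) v (2 * r + 1, 2 * t1) e →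
      (e ∈ v ↔ e ∈ w') := by
    rintro e ⟨n, h2, h3⟩
    have h4 := h3 n le_rfl
    rw [h2] at h4
    exact hvw e (mem_sdiff.1 h4).2
  have hann : ∀ l ∈ An (0, 0) (2 * t + 1) (r / 2 - 1), l ∉ BB (2 * t) := by
    intro l hl
    rw [BB_eq]
    rw [mem_An, mem_Bq, mem_Bq] at hl
    rw [mem_Bq]
    omega
  refine ⟨h1.h1, h1.h2, h1.sep, ?_, ?_, ?_, ?_⟩
  · obtain ⟨n, h2, h3⟩ := h1.fwd
    have h4 := fm_iter hF (n := n) h3
    exact ⟨n, by rw [h4 n le_rfl]; exact h2, fun i hi => by rw [h4 i hi.le]; exact h3 i hi⟩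
  · obtain ⟨n, h2, h3⟩ := h1.bwd
    have h4 := bm_iter hB (n := n) h3
    exact ⟨n, by rw [h4 n le_rfl]; exact h2, fun i hi => by rw [h4 i hi.le]; exact h3 i hi⟩
  · rw [← four_congr (v := v)]
    · exact h1.four
    · ext e
      rw [mem_inter, mem_inter]
      constructor
      · rintro ⟨h2, h3⟩
        exact ⟨(hvw e (hann e h3)).1 h2, h3⟩
      · rintro ⟨h2, h3⟩
        exact ⟨(hvw e (hann e h3)).2 h2, h3⟩
  · rw [← four_congr (v := du (BB (r / 2)) v)]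
    · exact h1.fourd
    · ext e
      rw [mem_inter, mem_inter, CorrAux.mem_du', CorrAux.mem_du']
      have key : e ∈ An (0, 0) (2 * t + 1) (r / 2 - 1) → e - (1, 1) ∈ BB (r / 2) →
          (e - (1, 1) ∈ v ↔ e - (1, 1) ∈ w') := by
        intro h2 h3
        refine hvw _ ?_
        rw [BB_eq]
        rw [mem_An, mem_Bq, mem_Bq] at h2
        rw [BB_eq, mem_Bq] at h3
        rw [mem_Bq]
        simp only [Prod.fst_sub, Prod.snd_sub] at h3 ⊢
        omega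
      constructor
      · rintro ⟨⟨h2, h3⟩, h4⟩
        exact ⟨⟨h2, fun h5 => h3 ((key h4 h2).2 h5)⟩, h4⟩
      · rintro ⟨⟨h2, h3⟩, h4⟩
        exact ⟨⟨h2, fun h5 => h3 ((key h4 h2).1 h5)⟩, h4⟩

/-- a good state -/
def Gd (t s r L : ℤ) (w : Finset (ℤ × ℤ)) : Prop := ∃ p : ℤ × ℤ, Dgood t s r L p.1 p.2 w

/-- the pair of heights of a good state -/
noncomputable def pr (t s r L : ℤ) (w : Finset (ℤ × ℤ)) : ℤ × ℤ :=
  Classical.epsilon fun p : ℤ × ℤ => Dgood t s r L p.1 p.2 w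

lemma pr_spec (h : Gd t s r L w) : Dgood t s r L (pr t s r L w).1 (pr t s r L w).2 w :=
  Classical.epsilon_spec h

lemma pr_eq (h1t : 1 ≤ t) (htr : 4 * t + 6 ≤ r) (hrL : r ≤ L) (h : Dgood t s r L t1 t2 w) :
    (pr t s r L w).1 = t1 ∧ (pr t s r L w).2 = t2 :=
  dgood_uniq h1t htr hrL h (pr_spec ⟨(t1, t2), h⟩)

lemma dgood_iff (h : ∀ e ∉ BB (2 * t), (e ∈ w ↔ e ∈ w')) (p : ℤ × ℤ) :
    Dgood t s r L p.1 p.2 w ↔ Dgood t s r L p.1 p.2 w' :=
  ⟨fun hD => Dgood_cg (fun e _ he => h e he) hD, fun hD => Dgood_cg (fun e _ he => (h e he).symm) hD⟩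

lemma gd_out (h : ∀ e ∉ BB (2 * t), (e ∈ w ↔ e ∈ w')) :
    (Gd t s r L w ↔ Gd t s r L w') ∧ pr t s r L w = pr t s r L w' := by
  have h1 : (fun p : ℤ × ℤ => Dgood t s r L p.1 p.2 w) = fun p => Dgood t s r L p.1 p.2 w' :=
    funext fun p => propext (dgood_iff h p)
  unfold Gd pr
  rw [h1]
  exact ⟨Iff.rfl, rfl⟩

/-- everything depends only on the labels of the rectangle -/
lemma dgood_in (hr : r ≤ L) (h0 : 0 ≤ r) (p : ℤ × ℤ) :
    Dgood t s r L p.1 p.2 (w ∩ BE r (2 * L)) ↔ Dgood t s r L p.1 p.2 w := by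
  have hsub : ∀ {v : Finset (ℤ × ℤ)} {e : ℤ × ℤ}, e ∈ DU t r L p.1 p.2 v → e ∈ BE r (2 * L) := by
    intro v e he
    have h1 := DU_sub h0 hr he
    unfold H75.TwoArm.BE
    rw [mem_Bx]
    omega
  constructor
  · intro h
    refine Dgood_congr (fun e he => ?_) h
    have := hsub he
    rw [mem_inter]
    tauto
  · intro h
    refine Dgood_congr (fun e he => ?_) h
    have := hsub he
    rw [mem_inter]
    tauto

lemma gd_in (hr : r ≤ L) (h0 : 0 ≤ r) :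
    (Gd t s r L (w ∩ BE r (2 * L)) ↔ Gd t s r L w) ∧
      pr t s r L (w ∩ BE r (2 * L)) = pr t s r L w := by
  have h1 : (fun p : ℤ × ℤ => Dgood t s r L p.1 p.2 (w ∩ BE r (2 * L))) =
      fun p => Dgood t s r L p.1 p.2 w := funext fun p => propext (dgood_in hr h0 p)
  unfold Gd pr
  rw [h1]
  exact ⟨Iff.rfl, rfl⟩

lemma DU_in (hr : r ≤ L) (h0 : 0 ≤ r) :
    DU t r L t1 t2 (w ∩ BE r (2 * L)) = DU t r L t1 t2 w ∧
      (w ∩ BE r (2 * L)) ∩ DU t r L t1 t2 (w ∩ BE r (2 * L)) = w ∩ DU t r L t1 t2 w := by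
  have hsub : ∀ {e : ℤ × ℤ}, e ∈ DU t r L t1 t2 w → e ∈ BE r (2 * L) := by
    intro e he
    have h1 := DU_sub h0 hr he
    unfold H75.TwoArm.BE
    rw [mem_Bx]
    omega
  have h1 : DU t r L t1 t2 (w ∩ BE r (2 * L)) = DU t r L t1 t2 w := by
    refine DU_congr fun e he => ?_
    have := hsub he
    rw [mem_inter]
    tauto
  refine ⟨h1, ?_⟩
  rw [h1]
  ext e
  simp only [mem_inter]
  constructor
  · rintro ⟨⟨h2, -⟩, h3⟩; exact ⟨h2, h3⟩
  · rintro ⟨h2, h3⟩; exact ⟨⟨h2, hsub h3⟩, h3⟩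

lemma east_in {c : ℤ × ℤ} :
    East r (2 * L) (w ∩ BE r (2 * L)) c t1 t2 ↔ East r (2 * L) w c t1 t2 := by
  have h1 := local_UU (B := BE r (2 * L)) (ω := w) (ω1 := w ∩ BE r (2 * L)) (c := c)
    (fun e he => by
      have := CorrAux.UU_sub' _ _ _ he
      rw [mem_inter]
      tauto)
  unfold East
  rw [h1.2.2.1, h1.2.2.2.1]

end

end Pool.Agent.H95.ZF
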