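import Mathlib
import Pool.Agent.H95.ZF.OSa
import Pool.Agent.H53.ZF.Turn

set_option autoImplicit false
open Finset

/-! # OS, part 2: the weight and the double resampling -/

namespace Pool.Agent.H95.ZF

open Pool.Agent.H75.Perc Pool.Agent.H75.TwoArm Pool.Agent.Q1 Pool.Agent.H47.NC Pool.Agent.ZF
open Pool.Agent.H99.NC Pool.Agent.Q1.M6c Pool.Agent.H65.Four2 Pool.Agent.H53.ZF

/-- the statement of T5 for one environment -/
def T5at (t s r L R u : ℤ) (X : Env) (W : Finset (ℤ × ℤ)) (k1 : ℕ → ℤ → Finset (ℤ × ℤ) → ℤ)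
    (k2 : ℤ × ℤ → ℤ → ℤ → Finset (ℤ × ℤ) → ℤ) : Prop :=
  ∀ (ω : Finset (ℤ × ℤ)) (c : ℤ × ℤ) (i : ℕ) (y t1 t2 : ℤ),
  ω ⊆ X.E → i < 4 → Nice R u (ω ∪ W) X.c0 → Side' i R y (ω ∪ W) X.c0 → H75.TwoArm.C0 c →
  Dgood t s r L t1 t2 ω → East r (2 * L) ω c t1 t2 →
  Holds (allO i R u s r L y t1) (allD i R u s r y t1 t2) X.E ω
    (ExL X.E (ω ∪ W) (BB R) X.c0 ∪ DU t r L t1 t2 ω) →
  ∀ n < X.len ω, X.z ω n = c →
  X.K ω n = k1 i y (ω ∩ AR X.E W X.c0 R ω) + k2 c t1 t2 (ω ∩ DU t r L t1 t2 ω)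

/-- the hypotheses for a nice state -/
structure Ctx (M1 k Mh : ℕ) (t s r L R u : ℤ) (X : Env) (W ω : Finset (ℤ × ℤ)) (i : ℕ)
    (y : ℤ) : Prop where
  hM1 : 1 ≤ M1
  hMh : 1000 ≤ Mh
  hp : Par M1 k Mh t s r L R u
  hG : GE X W
  hE : BB (2 * R) ⊆ X.E
  hc0 : R < |(vx X.c0).1| ∨ R < |(vx X.c0).2|
  hω : ω ⊆ X.E
  hi : i < 4
  hN : Nice R u (ω ∪ W) X.c0
  hS : Side' i R y (ω ∪ W) X.c0

lemma lab_c0 {R : ℤ} {c : ℤ × ℤ} (h : R < |(vx c).1| ∨ R < |(vx c).2|) : lab c ∉ BB R := by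
  intro h1
  have h2 := lab_near c
  unfold H75.TwoArm.BB at h1
  rw [mem_Bx] at h1
  rw [lt_abs, lt_abs] at h
  omega

/-- a corner of the strand of the root leaves every set which does not contain the label of the root -/
lemma leave_of_vis {X : Env} {W w B : Finset (ℤ × ℤ)} (hG : GE X W) (hw : w ⊆ X.E) (hB : B ⊆ X.E)
    (h0 : lab X.c0 ∉ B) {c : ℤ × ℤ} (hv : H53.ZF.Vis X c w) : Leave B w c := by
  obtain ⟨n, hn, hz⟩ := hv
  have h1 : (nx (w ∪ W))^[X.len w - n] c = X.c0 := by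
    rw [← hz, hG.zz w hw, ← Function.iterate_add_apply, show X.len w - n + n = X.len w by omega,
      ← hG.zz w hw, Env.z_len hw]
  have h2 : Leave B (w ∪ W) c := ⟨_, by rw [h1]; exact h0⟩
  refine Leave_congr (fun e he => ?_) h2
  have := disjoint_left.1 hG.disj (hB he)
  rw [mem_union]
  tauto

section

variable {M1 k Mh : ℕ} {t s r L R u : ℤ} {X : Env} {W ω w w' : Finset (ℤ × ℤ)} {c : ℤ × ℤ} {i : ℕ}
  {y t1 t2 : ℤ} {k1 : ℕ → ℤ → Finset (ℤ × ℤ) → ℤ} {k2 : ℤ × ℤ → ℤ → ℤ → Finset (ℤ × ℤ) → ℤ}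

lemma Ctx.lin (H : Ctx M1 k Mh t s r L R u X W ω i y) : 1 ≤ t ∧ t ≤ s ∧ 1 ≤ s ∧ 16 * s ≤ r ∧
    r ≤ L ∧ R = 16 * L ∧ 1 ≤ u ∧ 1000 * u ≤ R := by
  obtain ⟨g1, g2, g3, g4, g5, g6, g7, g8, -⟩ := Par.lin H.hM1 H.hMh H.hp
  exact ⟨g1, g2, g3, g4, g5, g6, g7, g8⟩

lemma Ctx.tr (H : Ctx M1 k Mh t s r L R u X W ω i y) (hw : w ⊆ X.E)
    (h : ω ∩ AR X.E W X.c0 R ω = w ∩ AR X.E W X.c0 R ω) : Ctx M1 k Mh t s r L R u X W w i y :=
  ⟨H.hM1, H.hMh, H.hp, H.hG, H.hE, H.hc0, hw, H.hi, (nice_iff H.hω hw h).2 H.hN,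
    (side_iff H.hω hw h).2 H.hS⟩

lemma BB_sub_E (H : Ctx M1 k Mh t s r L R u X W ω i y) {a : ℤ} (ha : a ≤ 2 * R) : BB a ⊆ X.E :=
  (BB_sub_BB ha).trans H.hE

open Classical in
/-- **The value at an inner corner** if the crossings hold. -/
theorem Ctx.val (h2 : T2) (h6 : T6) (H : Ctx M1 k Mh t s r L R u X W w i y)
    (hk : T5at t s r L R u X W k1 k2) (hc : H75.TwoArm.C0 c) (hD : Dgood t s r L t1 t2 w)
    (hH : Holds (allO i R u s r L y t1) (allD i R u s r y t1 t2) X.E w (Us X W t r L R t1 t2 w))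
    (z : ℂ) : at' X z w c = if East r (2 * L) w c t1 t2 then
      z ^ (k1 i y (w ∩ AR X.E W X.c0 R w) + k2 c t1 t2 (w ∩ DU t r L t1 t2 w)) else 0 := by
  obtain ⟨g1, g2, g3, g4, g5, g6, g7, g8⟩ := H.lin
  by_cases hE : East r (2 * L) w c t1 t2
  · rw [if_pos hE]
    have hy : Hy M1 k Mh t s r L R u X W w c i y t1 t2 :=
      ⟨H.hM1, H.hMh, H.hp, H.hG, H.hE, H.hc0, H.hω, H.hi, H.hN, H.hS, hc, hD, hE⟩
    obtain ⟨n, hn, hz⟩ := hy.alive h2 h6 H.hω (fun _ _ => Iff.rfl) hH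
    rw [at_of H.hω hn hz, hk w c i y t1 t2 H.hω H.hi H.hN H.hS hc hD hE hH n hn hz]
  · rw [if_neg hE]
    refine at_zero (fun hv => hE ?_) z
    refine east_of_leave g1 (by omega) g5 hD hc ?_
    refine leave_of_vis H.hG H.hω (BB_sub_E H (by omega)) (fun h => lab_c0 H.hc0 ?_) hv
    exact BB_sub_BB (by omega) h

/-! ### The weight -/

/-- probability of the crossings -/
noncomputable def PH (E U : Finset (ℤ × ℤ)) (i : ℕ) (R u s r L y t1 t2 : ℤ) : ℝ :=
  Pr E fun w => Holds (allO i R u s r L y t1) (allD i R u s r y t1 t2) E w U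

open Classical in
/-- the weight -/
noncomputable def rho (p : ℝ) (X : Env) (W : Finset (ℤ × ℤ)) (t s r L R u : ℤ) (i : ℕ) (y : ℤ)
    (w : Finset (ℤ × ℤ)) : ℝ :=
  if Gd t s r L w ∧ Holds (allO i R u s r L y (pr t s r L w).1)
      (allD i R u s r y (pr t s r L w).1 (pr t s r L w).2) X.E w
      (Us X W t r L R (pr t s r L w).1 (pr t s r L w).2 w)
  then p / PH X.E (Us X W t r L R (pr t s r L w).1 (pr t s r L w).2 w) i R u s r L y
    (pr t s r L w).1 (pr t s r L w).2 else 0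

lemma rho_out {p : ℝ} (htr : 4 * t + 6 ≤ r) (htR : 2 * t ≤ R)
    (h : ∀ e ∉ BB (2 * t), (e ∈ w ↔ e ∈ w')) :
    rho p X W t s r L R u i y w = rho p X W t s r L R u i y w' := by
  classical
  obtain ⟨h1, h2⟩ := gd_out (s := s) (r := r) (L := L) h
  have h3 : ∀ e : ℤ × ℤ, e ∉ BB R → (e ∈ w ∪ W ↔ e ∈ w' ∪ W) := by
    intro e he
    have := h e (fun h4 => he (BB_sub_BB htR h4))
    rw [mem_union, mem_union]
    tauto
  have h4 : ExL X.E (w ∪ W) (BB R) X.c0 = ExL X.E (w' ∪ W) (BB R) X.c0 := by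
    unfold ExL
    ext e
    rw [mem_filter, mem_filter, MetL_iff, MetL_iff,
      fm_iff (w := w ∪ W) (w' := w' ∪ W) (fun e he => ?_),
      bm_iff (w := w ∪ W) (w' := w' ∪ W) (fun e he => ?_)]
    · obtain ⟨n, h5, h6⟩ := he
      exact h3 e (by rw [← h5]; exact h6 n le_rfl)
    · obtain ⟨n, h5, h6⟩ := he
      exact h3 e (by rw [← h5]; exact h6 n le_rfl)
  have h5 : Us X W t r L R (pr t s r L w).1 (pr t s r L w).2 w =
      Us X W t r L R (pr t s r L w).1 (pr t s r L w).2 w' := by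
    unfold Us
    rw [h4, DU_cg (w := w) (w' := w') (fun e _ he => h e he)]
  have h6 : ∀ (O D : List Rc), Holds O D X.E w
        (Us X W t r L R (pr t s r L w).1 (pr t s r L w).2 w) ↔
      Holds O D X.E w' (Us X W t r L R (pr t s r L w).1 (pr t s r L w).2 w) := by
    intro O D
    refine holds_off fun e he => h e fun h7 => he ?_
    unfold Us
    exact mem_union_right _ (mem_DU.2 (Or.inl (BB_sub_BB (by omega) h7)))
  unfold rho
  rw [h6, h5, h2]
  simp only [h1]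

lemma PH_ge {p : ℝ} (H : Ctx M1 k Mh t s r L R u X W ω i y)
    (hT : ∀ t s r L R u : ℤ, Par M1 k Mh t s r L R u → ∀ (E U ω : Finset (ℤ × ℤ)) (i : ℕ)
      (y t1 t2 : ℤ), i < 4 → BB (2 * R) ⊆ E → |y| ≤ R - 39 * u → (i = 0 → 39 * u ≤ |y|) →
      |t1| ≤ L → |t2| ≤ L → 16 * s ≤ |t1 - t2| →
      p ≤ Pr E (fun ω' => Holds (allO i R u s r L y t1) (allD i R u s r y t1 t2) E (mix U ω ω') U))
    (hD : Dgood t s r L t1 t2 w) (U : Finset (ℤ × ℤ)) : p ≤ PH X.E U i R u s r L y t1 t2 := by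
  obtain ⟨b1, b2⟩ := y_bd H.hi H.hp.u1 H.hN H.hS
  refine (hT t s r L R u H.hp X.E U ∅ i y t1 t2 H.hi H.hE b1 b2 hD.h1 hD.h2 hD.sep).trans
    (le_of_eq ?_)
  unfold PH
  refine Pr_congr fun ω' _ => holds_off fun e he => ?_
  rw [mem_mix]
  tauto

/-! ### Resampling -/

lemma gd_stop (h1t : 1 ≤ t) (htr : 4 * t + 6 ≤ r) (hrL : r ≤ L) (hG : Gd t s r L w)
    (h : ∀ e ∈ DU t r L (pr t s r L w).1 (pr t s r L w).2 w, (e ∈ w ↔ e ∈ w')) :
    Gd t s r L w' ∧ pr t s r L w' = pr t s r L w ∧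
      DU t r L (pr t s r L w).1 (pr t s r L w).2 w' =
        DU t r L (pr t s r L w).1 (pr t s r L w).2 w := by
  have h1 := Dgood_congr h (pr_spec hG)
  have h2 := pr_eq h1t htr hrL h1
  exact ⟨⟨_, h1⟩, Prod.ext h2.1 h2.2, DU_congr h⟩

open Classical in
/-- the inner part of the stopping set -/
noncomputable def Vs (X : Env) (t s r L : ℤ) (w : Finset (ℤ × ℤ)) : Finset (ℤ × ℤ) :=
  if Gd t s r L w then DU t r L (pr t s r L w).1 (pr t s r L w).2 w else X.E

lemma mix_tower {A V η η' ζ : Finset (ℤ × ℤ)} (h : A ⊆ V) :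
    mix A η (mix V η' ζ) = mix V (mix A η η') ζ := by
  ext e
  simp only [mem_mix]
  have := @h e
  tauto

lemma Vs_stop (h1t : 1 ≤ t) (htr : 4 * t + 6 ≤ r) (hrL : r ≤ L) (hw : w ⊆ X.E) (hw' : w' ⊆ X.E)
    (h : ∀ e ∈ Vs X t s r L w, (e ∈ w ↔ e ∈ w')) : Vs X t s r L w' = Vs X t s r L w := by
  classical
  by_cases hG : Gd t s r L w
  · have e1 : Vs X t s r L w = DU t r L (pr t s r L w).1 (pr t s r L w).2 w := by
      unfold Vs; rw [if_pos hG]
    rw [e1] at h ⊢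
    obtain ⟨h1, h2, h3⟩ := gd_stop h1t htr hrL hG h
    unfold Vs
    rw [if_pos h1, h2, h3]
  · have e1 : Vs X t s r L w = X.E := by unfold Vs; rw [if_neg hG]
    have e2 : w' = w := by
      ext e
      by_cases he : e ∈ X.E
      · exact (h e (by rw [e1]; exact he)).symm
      · exact ⟨fun h1 => absurd (hw' h1) he, fun h1 => absurd (hw h1) he⟩
    rw [e2]

lemma Ec_ite (E : Finset (ℤ × ℤ)) (A : Finset (ℤ × ℤ) → Prop) [DecidablePred A] (K : ℂ) :
    Ec (fun _ => (1 / 2 : ℂ)) E (fun ω => if A ω then K else 0) = K * ((Pr E A : ℝ) : ℂ) := by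
  rw [Ec_half, ← sum_filter, sum_const, nsmul_eq_mul, Pr_eq]
  push_cast
  rw [one_div, inv_pow]
  field_simp

open Classical in
/-- the inner function -/
noncomputable def GG (k2 : ℤ × ℤ → ℤ → ℤ → Finset (ℤ × ℤ) → ℤ) (t s r L : ℤ) (z : ℂ) (c : ℤ × ℤ)
    (w : Finset (ℤ × ℤ)) : ℂ :=
  if Gd t s r L w ∧ East r (2 * L) w c (pr t s r L w).1 (pr t s r L w).2 then
    z ^ (k2 c (pr t s r L w).1 (pr t s r L w).2
      (w ∩ DU t r L (pr t s r L w).1 (pr t s r L w).2 w)) else 0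

lemma GG_in (hr : r ≤ L) (h0 : 0 ≤ r) (z : ℂ) :
    GG k2 t s r L z c (w ∩ BE r (2 * L)) = GG k2 t s r L z c w := by
  classical
  obtain ⟨h1, h2⟩ := gd_in (t := t) (s := s) (w := w) hr h0
  unfold GG
  rw [h2, (DU_in hr h0).2]
  exact if_congr (and_congr h1 east_in) rfl rfl

lemma Ctx.AR_out (H : Ctx M1 k Mh t s r L R u X W ω i y) {e : ℤ × ℤ}
    (he : e ∈ AR X.E W X.c0 R ω) : e ∉ BB R := by
  obtain ⟨g1, g2, g3, g4, g5, g6, g7, g8⟩ := H.lin
  exact H53.ZF.AR_out (by omega) he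

/-- agreement of a resampled configuration with the first one -/
lemma Ctx.inner (h2 : T2) (h6 : T6) (H : Ctx M1 k Mh t s r L R u X W ω i y)
    (hk : T5at t s r L R u X W k1 k2) (hc : H75.TwoArm.C0 c) {p : ℝ} (hp0 : 0 < p)
    (hP : ∀ (w U : Finset (ℤ × ℤ)) (t1 t2 : ℤ), Dgood t s r L t1 t2 w →
      p ≤ PH X.E U i R u s r L y t1 t2) (hw : w ⊆ X.E)
    (hwA : ω ∩ AR X.E W X.c0 R ω = w ∩ AR X.E W X.c0 R ω) {z : ℂ} (hz : z ≠ 0) :
    Ec (fun _ => (1 / 2 : ℂ)) X.E (fun η => ((rho p X W t s r L R u i y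
      (mix (AR X.E W X.c0 R ω ∪ Vs X t s r L w) w η) : ℝ) : ℂ) *
      at' X z (mix (AR X.E W X.c0 R ω ∪ Vs X t s r L w) w η) c) =
    z ^ (k1 i y (ω ∩ AR X.E W X.c0 R ω)) * (p * GG k2 t s r L z c w) := by
  classical
  obtain ⟨g1, g2, g3, g4, g5, g6, g7, g8⟩ := H.lin
  set A := AR X.E W X.c0 R ω with hA
  by_cases hG : Gd t s r L w
  · set t1 := (pr t s r L w).1 with ht1
    set t2 := (pr t s r L w).2 with ht2
    have hD : Dgood t s r L t1 t2 w := pr_spec hG
    have hVs : Vs X t s r L w = DU t r L t1 t2 w := by unfold Vs; rw [if_pos hG]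
    rw [hVs]
    set U := Us X W t r L R t1 t2 w with hU
    have hPU := hP w U t1 t2 hD
    have hPpos : 0 < PH X.E U i R u s r L y t1 t2 := hp0.trans_le hPU
    -- the resampled configuration
    have key : ∀ η ⊆ X.E, ((rho p X W t s r L R u i y (mix (A ∪ DU t r L t1 t2 w) w η) : ℝ) : ℂ) *
        at' X z (mix (A ∪ DU t r L t1 t2 w) w η) c =
        if Holds (allO i R u s r L y t1) (allD i R u s r y t1 t2) X.E η U then
          ((p / PH X.E U i R u s r L y t1 t2 : ℝ) : ℂ) *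
          (z ^ (k1 i y (ω ∩ A)) * GG k2 t s r L z c w) else 0 := by
      intro η hη
      set v := mix (A ∪ DU t r L t1 t2 w) w η with hv
      have hvE : v ⊆ X.E := mix_subset hw hη
      have hag : ∀ e ∈ A ∪ DU t r L t1 t2 w, (e ∈ w ↔ e ∈ v) := by
        intro e he
        rw [hv, mem_mix]
        tauto
      have hoff : ∀ e ∉ A ∪ DU t r L t1 t2 w, (e ∈ v ↔ e ∈ η) := by
        intro e he
        rw [hv, mem_mix]
        tauto
      clear_value v
      have hvA : ω ∩ A = v ∩ A := by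
        rw [hwA]
        ext e
        rw [mem_inter, mem_inter]
        constructor
        · rintro ⟨h3, h4⟩
          exact ⟨(hag e (mem_union_left _ h4)).1 h3, h4⟩
        · rintro ⟨h3, h4⟩
          exact ⟨(hag e (mem_union_left _ h4)).2 h3, h4⟩
      have hDUag : ∀ e ∈ DU t r L t1 t2 w, (e ∈ w ↔ e ∈ v) := fun e he =>
        hag e (mem_union_right _ he)
      obtain ⟨hGv, hprv, hDUv⟩ := gd_stop g1 (by omega) g5 hG hDUag
      have hDv : Dgood t s r L t1 t2 v := Dgood_congr hDUag hD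
      have Hv : Ctx M1 k Mh t s r L R u X W v i y := H.tr hvE hvA
      have hExw : ExL X.E (w ∪ W) (BB R) X.c0 = ExL X.E (ω ∪ W) (BB R) X.c0 :=
        ExL_congr H.hω hw hwA
      have hExv : ExL X.E (v ∪ W) (BB R) X.c0 = ExL X.E (ω ∪ W) (BB R) X.c0 :=
        ExL_congr H.hω hvE hvA
      have hUv : Us X W t r L R t1 t2 v = U := by
        rw [hU]
        unfold Us
        rw [hExv, hExw, hDUv]
      have hARv : AR X.E W X.c0 R v = A := AR_congr H.hω hvE hvA
      have hiDU : v ∩ DU t r L t1 t2 v = w ∩ DU t r L t1 t2 w := by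
        rw [hDUv]
        ext e
        rw [mem_inter, mem_inter]
        constructor
        · rintro ⟨h3, h4⟩
          exact ⟨(hDUag e h4).2 h3, h4⟩
        · rintro ⟨h3, h4⟩
          exact ⟨(hDUag e h4).1 h3, h4⟩
      -- the crossings
      have hloc : ∀ e ∈ BB (2 * R), e ∉ U → (e ∈ v ↔ e ∈ η) := by
        intro e he heU
        refine hoff e ?_
        rw [mem_union]
        rintro (h3 | h3)
        · rw [hA] at h3
          unfold H53.ZF.AR at h3
          rw [mem_union, mem_sdiff] at h3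
          rcases h3 with h3 | h3
          · exact h3.2 he
          · apply heU
            rw [hU]
            unfold Us
            rw [hExw]
            exact mem_union_left _ h3
        · apply heU
          rw [hU]
          unfold Us
          exact mem_union_right _ h3
      obtain ⟨b1, b2⟩ := y_bd H.hi H.hp.u1 H.hN H.hS
      have hOB : ∀ e, (∃ ρ ∈ allO i R u s r L y t1, e ∈ ρ.lb) → e ∈ BB (2 * R) := fun e he =>
        allO_sub g3 g4 g5 g6 g7 g8 H.hi b1 hD.h1 he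
      have hDB : ∀ e, (∃ ρ ∈ allD i R u s r y t1 t2, sh1 e ∈ ρ.lb) → e ∈ BB (2 * R) := fun e he =>
        allD_sub g3 g4 g5 g6 g7 g8 H.hi b1 hD.h2 he
      have hHiff : Holds (allO i R u s r L y t1) (allD i R u s r y t1 t2) X.E v U ↔
          Holds (allO i R u s r L y t1) (allD i R u s r y t1 t2) X.E η U :=
        ⟨holds_loc hOB hDB hloc, holds_loc hOB hDB fun e he he' => (hloc e he he').symm⟩
      -- the weight
      have hrho : rho p X W t s r L R u i y v =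
          if Holds (allO i R u s r L y t1) (allD i R u s r y t1 t2) X.E η U then
            p / PH X.E U i R u s r L y t1 t2 else 0 := by
        unfold rho
        rw [hprv, ← ht1, ← ht2, hUv, hHiff]
        simp only [hGv, true_and]
      rw [hrho]
      by_cases hH : Holds (allO i R u s r L y t1) (allD i R u s r y t1 t2) X.E η U
      · rw [if_pos hH, if_pos hH]
        have hval := Hv.val h2 h6 hk hc hDv (by rw [hUv]; exact hHiff.2 hH) z
        rw [hval, hARv, hiDU, ← hvA]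
        congr 1
        have hEiff : East r (2 * L) v c t1 t2 ↔ East r (2 * L) w c t1 t2 := by
          have hbox : ∀ e ∈ BB (r / 2), (e ∈ w ↔ e ∈ v) := fun e he =>
            hDUag e (mem_DU.2 (Or.inl he))
          constructor
          · intro h3
            exact east_of_leave g1 (by omega) g5 hD hc (Leave_congr
              (fun e he => (hbox e he).symm) (leave_of_east g5 (by omega) h3))
          · intro h3
            exact east_of_leave g1 (by omega) g5 hDv hc (Leave_congr hbox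
              (leave_of_east g5 (by omega) h3))
        unfold GG
        by_cases hEa : East r (2 * L) w c t1 t2
        · rw [if_pos (hEiff.2 hEa), if_pos ⟨hG, hEa⟩, zpow_add₀ hz]
        · rw [if_neg (fun h3 => hEa (hEiff.1 h3)), if_neg (fun h3 => hEa h3.2), mul_zero]
      · rw [if_neg hH, if_neg hH, Complex.ofReal_zero, zero_mul]
    rw [Ec_congr key, Ec_ite]
    unfold PH at hPpos ⊢
    have hne : ((Pr X.E (fun w => Holds (allO i R u s r L y t1) (allD i R u s r y t1 t2) X.E w U) :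
      ℝ) : ℂ) ≠ 0 := by
      rw [Ne, Complex.ofReal_eq_zero]
      exact hPpos.ne'
    push_cast
    field_simp
  · have hVs : Vs X t s r L w = X.E := by unfold Vs; rw [if_neg hG]
    have hG0 : GG k2 t s r L z c w = 0 := by
      unfold GG
      rw [if_neg (fun h3 => hG h3.1)]
    rw [hVs, hG0, mul_zero, mul_zero]
    rw [Ec_congr (G := fun _ => 0), Ec_const]
    intro η hη
    have e1 : mix (A ∪ X.E) w η = w := by
      ext e
      rw [mem_mix, mem_union]
      have h3 := @hw e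
      have h4 := @hη e
      tauto
    rw [e1]
    have e2 : rho p X W t s r L R u i y w = 0 := by
      unfold rho
      rw [if_neg (fun h3 => hG h3.1)]
    rw [e2, Complex.ofReal_zero, zero_mul]

end

end Pool.Agent.H95.ZF
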