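import Mathlib
import Pool.Agent.H95.ZF.OSb
import Pool.Agent.H75.TwoArm.Final

set_option autoImplicit false
open Finset

/-! # OS, part 3: the one-scale theorem -/

namespace Pool.Agent.H95.ZF

open Pool.Agent.H75.Perc Pool.Agent.H75.TwoArm Pool.Agent.Q1 Pool.Agent.H47.NC Pool.Agent.ZF
open Pool.Agent.H99.NC Pool.Agent.Q1.M6c Pool.Agent.H65.Four2 Pool.Agent.H53.ZF

section

variable {M1 k Mh : ℕ} {t s r L R u : ℤ} {X : Env} {W ω w w' : Finset (ℤ × ℤ)} {c : ℤ × ℤ} {i : ℕ}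
  {y t1 t2 : ℤ} {k1 : ℕ → ℤ → Finset (ℤ × ℤ) → ℤ} {k2 : ℤ × ℤ → ℤ → ℤ → Finset (ℤ × ℤ) → ℤ}

/-- **The conditional expectation factorises.** -/
theorem Ctx.ce_eq (h2 : T2) (h6 : T6) (H : Ctx M1 k Mh t s r L R u X W ω i y)
    (hk : T5at t s r L R u X W k1 k2) (hc : H75.TwoArm.C0 c) {p : ℝ} (hp0 : 0 < p)
    (hP : ∀ (w U : Finset (ℤ × ℤ)) (t1 t2 : ℤ), Dgood t s r L t1 t2 w →
      p ≤ PH X.E U i R u s r L y t1 t2) {z : ℂ} (hz : z ≠ 0) :
    CE X.E (H53.ZF.AR X.E W X.c0 R ω) ω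
      (fun w => ((rho p X W t s r L R u i y w : ℝ) : ℂ) * Fc X z c w) =
    z ^ (k1 i y (ω ∩ H53.ZF.AR X.E W X.c0 R ω)) *
      (p * Ec (fun _ => (1 / 2 : ℂ)) (BE r (2 * L)) (GG k2 t s r L z c)) := by
  obtain ⟨g1, g2, g3, g4, g5, g6, g7, g8⟩ := H.lin
  set A := H53.ZF.AR X.E W X.c0 R ω with hA
  have hQE : BE r (2 * L) ⊆ X.E := by
    refine Finset.Subset.trans ?_ H.hE
    intro e he
    unfold H75.TwoArm.BE at he
    unfold H75.TwoArm.BB
    rw [mem_Bx] at he ⊢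
    omega
  have hQA : ∀ e ∈ BE r (2 * L), e ∉ A := by
    intro e he h
    refine H.AR_out h ?_
    unfold H75.TwoArm.BE at he
    unfold H75.TwoArm.BB
    rw [mem_Bx] at he ⊢
    omega
  have hV : ∀ η η', η ⊆ X.E → η' ⊆ X.E →
      (fun ζ => A ∪ Vs X t s r L (mix A ω ζ)) (H75.Perc.mix ((fun ζ => A ∪ Vs X t s r L (mix A ω ζ)) η)
        η η') = (fun ζ => A ∪ Vs X t s r L (mix A ω ζ)) η := by
    intro η η' hη hη'
    simp only
    congr 1
    have hw : mix A ω η ⊆ X.E := mix_subset H.hω hη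
    rw [mix_tower subset_union_left]
    refine Vs_stop g1 (by omega) g5 hw (mix_subset hw hη') fun e he => ?_
    rw [mem_mix (U := A ∪ Vs X t s r L (mix A ω η))]
    have h3 : e ∈ A ∪ Vs X t s r L (mix A ω η) := mem_union_right _ he
    tauto
  unfold CE Fc
  rw [← Ec_half, ← Ec_resample1 X.E (fun ζ => A ∪ Vs X t s r L (mix A ω ζ)) hV
    (fun ω' => ((rho p X W t s r L R u i y (mix A ω ω') : ℝ) : ℂ) * at' X z (mix A ω ω') c)]
  have key : ∀ η ⊆ X.E, Ec (fun _ => (1 / 2 : ℂ)) X.E (fun ω' =>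
      ((rho p X W t s r L R u i y (mix A ω (mix (A ∪ Vs X t s r L (mix A ω η)) η ω')) : ℝ) : ℂ) *
        at' X z (mix A ω (mix (A ∪ Vs X t s r L (mix A ω η)) η ω')) c) =
      z ^ (k1 i y (ω ∩ A)) * (p * GG k2 t s r L z c (η ∩ BE r (2 * L))) := by
    intro η hη
    have hw : mix A ω η ⊆ X.E := mix_subset H.hω hη
    have hwA : ω ∩ A = mix A ω η ∩ A := by
      ext e
      rw [mem_inter, mem_inter, mem_mix]
      tauto
    have e1 : mix A ω η ∩ BE r (2 * L) = η ∩ BE r (2 * L) := by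
      ext e
      rw [mem_inter, mem_inter, mem_mix]
      have := hQA e
      tauto
    simp only [mix_tower (subset_union_left : A ⊆ A ∪ Vs X t s r L (mix A ω η))]
    rw [H.inner h2 h6 hk hc hp0 hP hw hwA hz, ← e1, GG_in g5 (by omega)]
  rw [Ec_congr key]
  rw [Ec_smul, Ec_smul, Ec_local _ hQE]

end

/-- the forward tip is at one of the four sides -/
lemma side_ex {w : Finset (ℤ × ℤ)} {c0 : ℤ × ℤ} {R : ℤ} (h0 : R < |(vx c0).1| ∨ R < |(vx c0).2|)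
    (ha : Alive R w c0) : ∃ i < 4, ∃ y, Side' i R y w c0 := by
  obtain ⟨a, ha⟩ := ha
  obtain ⟨n, h1, h2, h3⟩ := id ha
  have hn : n ≠ 0 := by
    rintro rfl
    rw [Function.iterate_zero_apply] at h1
    rw [← h1] at h2
    exact lab_c0 h0 h2
  obtain ⟨m, rfl⟩ := Nat.exists_eq_succ_of_ne_zero hn
  have h4 : plab a ∉ BB R := by
    rw [← h1, Function.iterate_succ_apply', plab_nx]
    exact h3 m (Nat.lt_succ_self m)
  have h5 : (vx a).1 = R ∨ (vx a).2 = R ∨ (vx a).1 = -R ∨ (vx a).2 = -R := by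
    clear ha h1
    obtain ⟨p, q⟩ := a
    unfold H75.TwoArm.BB at h2 h4
    rw [mem_Bx] at h2 h4
    unfold plab at h4
    unfold lab at h2
    unfold vx
    simp only at h2 h4 ⊢
    split_ifs at h2 h4 <;> simp only at h2 h4 <;> omega
  rcases h5 with h5 | h5 | h5 | h5
  · exact ⟨0, by norm_num, (vx a).2, a, ha, Prod.ext h5 rfl⟩
  · refine ⟨1, by norm_num, -(vx a).1, a, ha, Prod.ext ?_ ?_⟩ <;>
      simp only [Function.iterate_succ, Function.iterate_zero, Function.comp_apply, id_eq, rotv] <;>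
      omega
  · refine ⟨2, by norm_num, -(vx a).2, a, ha, Prod.ext ?_ ?_⟩ <;>
      simp only [Function.iterate_succ, Function.iterate_zero, Function.comp_apply, id_eq, rotv] <;>
      omega
  · refine ⟨3, by norm_num, (vx a).1, a, ha, Prod.ext ?_ ?_⟩ <;>
      simp only [Function.iterate_succ, Function.iterate_zero, Function.comp_apply, id_eq, rotv] <;>
      omega

/-- upper bound for the passage at an inner corner -/
lemma upper {X : Env} {W ω : Finset (ℤ × ℤ)} {R : ℤ} {c : ℤ × ℤ} (hG : GE X W) (hR : 0 ≤ R)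
    (hE : BB (2 * R) ⊆ X.E) (h0 : R < |(vx X.c0).1| ∨ R < |(vx X.c0).2|) (hω : ω ⊆ X.E) :
    ‖CE X.E (H53.ZF.AR X.E W X.c0 R ω) ω (fun w => Fc X 1 c w)‖ ≤
      Pr (BB R) (fun v => Leave (BB R) v c) := by
  have hBE : BB R ⊆ X.E := (BB_sub_BB (by omega)).trans hE
  unfold CE Fc
  rw [← Ec_half]
  refine (Ec_half_norm (g := fun ω' => ind (Leave (BB R) (ω' ∩ BB R) c)) fun ω' hω' => ?_).trans
    (le_of_eq ?_)
  · have hw : mix (H53.ZF.AR X.E W X.c0 R ω) ω ω' ⊆ X.E := mix_subset hω hω'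
    refine (at_norm hw c (by simp)).trans (ind_mono fun hv => ?_)
    refine Leave_congr (fun e he => ?_) (leave_of_vis hG hw hBE (lab_c0 h0) hv)
    have h1 : e ∉ H53.ZF.AR X.E W X.c0 R ω := fun h => H53.ZF.AR_out hR h he
    rw [mem_mix, mem_inter]
    tauto
  · have h1 := PrP_restrict (fun _ => (1 / 2 : ℝ)) hBE (fun v => Leave (BB R) v c)
    unfold PrP at h1
    rw [h1]
    exact PrP_half (BB R) fun v => Leave (BB R) v c

lemma aa_ge {R : ℤ} {c : ℤ × ℤ} (hc : H75.TwoArm.C0 c) :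
    Pr (BB R) (fun v => Leave (BB R) v c) ≤ aa R := by
  have h1 := Pr_nonneg (BB R) (fun ω => Leave (BB R) ω (0, 0))
  have h2 := Pr_nonneg (BB R) (fun ω => Leave (BB R) ω (1, 0))
  have h3 := Pr_nonneg (BB R) (fun ω => Leave (BB R) ω (0, 1))
  have h4 := Pr_nonneg (BB R) (fun ω => Leave (BB R) ω (1, 1))
  unfold aa
  rcases hc with rfl | rfl | rfl | rfl <;> linarith

section

variable {t s r L : ℤ} {k2 : ℤ × ℤ → ℤ → ℤ → Finset (ℤ × ℤ) → ℤ} {c : ℤ × ℤ}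

lemma gd_east_iff (h1t : 1 ≤ t) (htr : 4 * t + 6 ≤ r) (hrL : r ≤ L) {w : Finset (ℤ × ℤ)} :
    (Gd t s r L w ∧ East r (2 * L) w c (pr t s r L w).1 (pr t s r L w).2) ↔
      ∃ t1 t2, Dgood t s r L t1 t2 w ∧ East r (2 * L) w c t1 t2 := by
  constructor
  · rintro ⟨h1, h2⟩
    exact ⟨_, _, pr_spec h1, h2⟩
  · rintro ⟨t1, t2, h1, h2⟩
    obtain ⟨h3, h4⟩ := pr_eq h1t htr hrL h1
    exact ⟨⟨(t1, t2), h1⟩, by rw [h3, h4]; exact h2⟩

lemma GG_one (h1t : 1 ≤ t) (htr : 4 * t + 6 ≤ r) (hrL : r ≤ L) :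
    Ec (fun _ => (1 / 2 : ℂ)) (BE r (2 * L)) (GG k2 t s r L 1 c) =
      ((Pr (BE r (2 * L)) (fun w => ∃ t1 t2, Dgood t s r L t1 t2 w ∧ East r (2 * L) w c t1 t2) :
        ℝ) : ℂ) := by
  classical
  have h1 := Ec_ite (BE r (2 * L))
    (fun w => ∃ t1 t2, Dgood t s r L t1 t2 w ∧ East r (2 * L) w c t1 t2) 1
  rw [one_mul] at h1
  rw [← h1]
  refine Ec_congr fun w _ => ?_
  unfold GG
  rw [one_zpow]
  exact if_congr (gd_east_iff h1t htr hrL) rfl rfl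

lemma GG_norm (h1t : 1 ≤ t) (htr : 4 * t + 6 ≤ r) (hrL : r ≤ L) {z : ℂ} (hz : ‖z‖ = 1) :
    ‖Ec (fun _ => (1 / 2 : ℂ)) (BE r (2 * L)) (GG k2 t s r L z c)‖ ≤
      Pr (BE r (2 * L)) (fun w => ∃ t1 t2, Dgood t s r L t1 t2 w ∧ East r (2 * L) w c t1 t2) := by
  classical
  rw [← PrP_half]
  refine Ec_half_norm fun w _ => ?_
  unfold GG
  by_cases h : Gd t s r L w ∧ East r (2 * L) w c (pr t s r L w).1 (pr t s r L w).2
  · rw [if_pos h, norm_zpow, hz, one_zpow, ind_true ((gd_east_iff h1t htr hrL).1 h)]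
  · rw [if_neg h, norm_zero]
    exact ind_nonneg _

end

/-- **The one-scale theorem.** -/
theorem os_of (h2 : T2) (h4 : T4) (h5 : T5) (h6 : T6) (h7 : T7) : OS := by
  classical
  obtain ⟨M1, k, c1, hM1, hc1, hT7⟩ := h7
  obtain ⟨C1, hC1, hup⟩ := exps.2.1
  refine ⟨256 * 16 ^ k * M1, C1, ?_, hC1, ?_⟩
  · have h16 : 1 ≤ 16 ^ k := Nat.one_le_pow _ _ (by norm_num)
    nlinarith
  intro Mh hMh
  obtain ⟨p, hp0, hT4⟩ := h4 M1 k Mh hM1 hMh
  refine ⟨p * c1, by positivity, ?_⟩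
  intro t R u ht hR hu hu1 hu2
  -- the parameters
  obtain ⟨s, hs⟩ : ∃ s : ℤ, s = M1 * t := ⟨_, rfl⟩
  obtain ⟨r, hr⟩ : ∃ r : ℤ, r = 4 ^ k * (16 * s) := ⟨_, rfl⟩
  obtain ⟨L, hL⟩ : ∃ L : ℤ, L = 4 ^ k * r := ⟨_, rfl⟩
  have hRL : R = 16 * L := by
    rw [hR, hL, hr, hs]
    push_cast
    have h16 : (16 : ℤ) ^ k = 4 ^ k * 4 ^ k := by rw [← mul_pow]; norm_num
    rw [h16]
    ring
  have hp : Par M1 k Mh t s r L R u := ⟨ht, hs, hr, hL, hRL, hu, hu1, hu2⟩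
  obtain ⟨g1, g2, g3, g4, g5, g6, g7, g8, -⟩ := Par.lin hM1 hMh hp
  have htr : 4 * t + 6 ≤ r := by omega
  obtain ⟨k2, hk2⟩ := h5 M1 k Mh t s r L R u hM1 hMh hp
  set S : Finset (ℤ × ℤ) := {(0, 0), (1, 0), (0, 1), (1, 1)} with hS
  set q : ℤ × ℤ → ℝ := fun c => Pr (BE r (2 * L))
    (fun w => ∃ t1 t2, Dgood t s r L t1 t2 w ∧ East r (2 * L) w c t1 t2) with hq
  refine ⟨fun z c => p * Ec (fun _ => (1 / 2 : ℂ)) (BE r (2 * L)) (GG k2 t s r L z c),
    p * ∑ c ∈ S, q c, ?_, ?_, ?_⟩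
  · -- lower bound
    have h7 := hT7 Mh t s r L R u hp
    have ht0 : (0 : ℝ) < t := by exact_mod_cast g1
    have htR : (t : ℝ) ≤ R := by
      have : t ≤ R := by omega
      exact_mod_cast this
    have h8 : (R : ℝ) ^ (-(1 / 4 : ℝ)) ≤ (t : ℝ) ^ (-(1 / 4 : ℝ)) :=
      Real.rpow_le_rpow_of_nonpos ht0 htR (by norm_num)
    calc p * c1 * (R : ℝ) ^ (-(1 / 4 : ℝ)) ≤ p * c1 * (t : ℝ) ^ (-(1 / 4 : ℝ)) := by gcongr
      _ = p * (c1 * (t : ℝ) ^ (-(1 / 4 : ℝ))) := by ring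
      _ ≤ p * ∑ c ∈ S, q c := by
        refine mul_le_mul_of_nonneg_left ?_ hp0.le
        exact h7
  · -- norms
    intro z hz
    rw [mul_sum]
    refine sum_le_sum fun c _ => ?_
    rw [norm_mul, Complex.norm_real, Real.norm_eq_abs, abs_of_pos hp0]
    exact mul_le_mul_of_nonneg_left (GG_norm g1 htr g5 hz) hp0.le
  intro X W hG hE h0 ω hω
  have h0' : R < |(vx X.c0).1| ∨ R < |(vx X.c0).2| := by
    rcases h0 with h | h
    · left; omega
    · right; omega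
  obtain ⟨k1, hk1⟩ := hk2 X W hG hE h0'
  refine ⟨fun hN => ?_, ?_⟩
  · obtain ⟨i, hi, y, hSd⟩ := side_ex h0' hN.1
    have H : Ctx M1 k Mh t s r L R u X W ω i y := ⟨hM1, hMh, hp, hG, hE, h0', hω, hi, hN, hSd⟩
    have hP : ∀ (w U : Finset (ℤ × ℤ)) (t1 t2 : ℤ), Dgood t s r L t1 t2 w →
        p ≤ PH X.E U i R u s r L y t1 t2 := fun w U t1 t2 hD => PH_ge H hT4 hD U
    refine ⟨rho p X W t s r L R u i y, fun w => ?_, fun w w' h => ?_, fun z hz => ?_, ?_⟩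
    · unfold rho
      split_ifs with h
      · have h8 := hP w (Us X W t r L R (pr t s r L w).1 (pr t s r L w).2 w) _ _ (pr_spec h.1)
        exact ⟨div_nonneg hp0.le (hp0.le.trans h8), div_le_one_of_le₀ h8 (hp0.le.trans h8)⟩
      · exact ⟨le_rfl, zero_le_one⟩
    · refine rho_out htr (by omega) fun e he => ?_
      have h8 := Finset.ext_iff.1 h e
      rw [mem_sdiff, mem_sdiff] at h8
      tauto
    · have hz0 : z ≠ 0 := by
        intro h8
        rw [h8, norm_zero] at hz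
        exact zero_ne_one hz
      refine ⟨z ^ (k1 i y (ω ∩ H53.ZF.AR X.E W X.c0 R ω)), ?_, fun c hc => ?_⟩
      · rw [norm_zpow, hz, one_zpow]
      · exact H.ce_eq h2 h6 hk1 hc hp0 hP hz0
    · have h8 : ∀ c ∈ S, CE X.E (H53.ZF.AR X.E W X.c0 R ω) ω
          (fun w => ((rho p X W t s r L R u i y w : ℝ) : ℂ) * Fc X 1 c w) =
            ((p * q c : ℝ) : ℂ) := by
        intro c hc
        have hc' : H75.TwoArm.C0 c := by
          rw [hS] at hc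
          simp only [mem_insert, mem_singleton] at hc
          exact hc
        rw [H.ce_eq h2 h6 hk1 hc' hp0 hP one_ne_zero, one_zpow, one_mul, GG_one g1 htr g5]
        push_cast
        rfl
      rw [sum_congr rfl h8, mul_sum]
      push_cast
      rfl
  · intro c hc
    refine (upper hG (by omega) hE h0' hω).trans ((aa_ge hc).trans (hup R (by omega)))

end Pool.Agent.H95.ZF
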